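import Pool.Agent.Helper6.SF.Rt

/-!
# Separable relations
-/

set_option autoImplicit false

open Complex Metric Set Filter Topology Polynomial

namespace Pool.Agent.Helper6.SF

/-- an algebraic element satisfies a separable relation -/
theorem sep_rel {R S : Type} [CommRing R] [IsDomain R] [CharZero R] [CommRing S] [IsDomain S]
    [Algebra R S] (hinj : Function.Injective (algebraMap R S)) {h : S} {p0 : R[X]}
    (hp0 : p0 ≠ 0) (hp0h : aeval h p0 = 0) :
    ∃ (p u v : R[X]) (ρ : R), ρ ≠ 0 ∧ p ≠ 0 ∧ p.natDegree ≤ p0.natDegree ∧ aeval h p = 0 ∧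
      u * p + v * derivative p = C ρ := by
  classical
  have hf : FaithfulSMul R S := (faithfulSMul_iff_algebraMap_injective R S).2 hinj
  have hinj2 : Function.Injective (algebraMap R (FractionRing S)) := by
    rw [IsScalarTower.algebraMap_eq R S (FractionRing S)]
    exact (IsFractionRing.injective S (FractionRing S)).comp hinj
  have hf2 : FaithfulSMul R (FractionRing S) :=
    (faithfulSMul_iff_algebraMap_injective R (FractionRing S)).2 hinj2
  letI : Algebra (FractionRing R) (FractionRing S) := FractionRing.liftAlgebra R _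
  have := FractionRing.isScalarTower_liftAlgebra R (FractionRing S)
  set x : FractionRing S := algebraMap S (FractionRing S) h with hx
  have h0 : aeval x p0 = 0 := by rw [hx, aeval_algebraMap_apply, hp0h, map_zero]
  have h1 : IsAlgebraic R x := ⟨p0, hp0, h0⟩
  have h2 : IsAlgebraic (FractionRing R) x :=
    (IsFractionRing.isAlgebraic_iff R (FractionRing R) (FractionRing S)).1 h1
  have hint : IsIntegral (FractionRing R) x := h2.isIntegral
  set m := minpoly (FractionRing R) x with hm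
  have hsep : m.Separable := (minpoly.irreducible hint).separable
  obtain ⟨a, b, hab⟩ := hsep
  obtain ⟨⟨b1, hb1⟩, e1⟩ := IsLocalization.integerNormalization_map_to_map
    (nonZeroDivisors R) m
  obtain ⟨⟨b2, hb2⟩, e2⟩ := IsLocalization.integerNormalization_map_to_map
    (nonZeroDivisors R) a
  obtain ⟨⟨b3, hb3⟩, e3⟩ := IsLocalization.integerNormalization_map_to_map
    (nonZeroDivisors R) b
  set p := IsLocalization.integerNormalization (nonZeroDivisors R) m with hp
  set u := IsLocalization.integerNormalization (nonZeroDivisors R) a with hu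
  set v := IsLocalization.integerNormalization (nonZeroDivisors R) b with hv
  simp only at e1 e2 e3
  have n1 : b1 ≠ 0 := nonZeroDivisors.ne_zero hb1
  have n2 : b2 ≠ 0 := nonZeroDivisors.ne_zero hb2
  have n3 : b3 ≠ 0 := nonZeroDivisors.ne_zero hb3
  have hmi : Function.Injective (Polynomial.map (algebraMap R (FractionRing R))) :=
    Polynomial.map_injective _ (IsFractionRing.injective R (FractionRing R))
  have hsm : ∀ (r : R) (f : (FractionRing R)[X]),
      r • f = C (algebraMap R (FractionRing R) r) * f := by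
    intro r f
    rw [← Polynomial.smul_eq_C_mul, algebraMap_smul]
  refine ⟨p, C b3 * u, C b2 * v, b1 * b2 * b3, mul_ne_zero (mul_ne_zero n1 n2) n3, ?_, ?_, ?_,
    ?_⟩
  · intro h0
    rw [h0, Polynomial.map_zero, hsm] at e1
    have h3 := (mul_eq_zero.1 e1.symm).resolve_left (by
      intro h4
      rw [C_eq_zero] at h4
      exact n1 ((IsFractionRing.injective R (FractionRing R)) (by rw [h4, map_zero])))
    exact minpoly.ne_zero hint h3
  · have hinjK := IsFractionRing.injective R (FractionRing R)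
    have h3 : p.natDegree = m.natDegree := by
      rw [← Polynomial.natDegree_map_eq_of_injective hinjK p, e1, hsm,
        Polynomial.natDegree_C_mul (by
          intro h4
          exact n1 (hinjK (by rw [h4, map_zero])))]
    have h4 : m.natDegree ≤ (p0.map (algebraMap R (FractionRing R))).natDegree := by
      refine Polynomial.natDegree_le_natDegree (minpoly.degree_le_of_ne_zero _ _ ?_ ?_)
      · exact (Polynomial.map_ne_zero_iff hinjK).2 hp0
      · rw [aeval_map_algebraMap]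
        exact h0
    rw [h3]
    exact h4.trans Polynomial.natDegree_map_le
  · have h3 : aeval x p = 0 :=
      IsLocalization.integerNormalization_aeval_eq_zero (nonZeroDivisors R) m (minpoly.aeval _ _)
    rw [hx, aeval_algebraMap_apply] at h3
    exact (IsFractionRing.injective S (FractionRing S)) (by rw [h3, map_zero])
  · apply hmi
    rw [Polynomial.map_add, Polynomial.map_mul, Polynomial.map_mul, Polynomial.map_mul,
      Polynomial.map_mul, Polynomial.map_C, Polynomial.map_C, Polynomial.map_C,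
      ← Polynomial.derivative_map, e1, e2, e3, hsm, hsm, hsm, derivative_C_mul]
    simp only [map_mul]
    linear_combination (C (algebraMap R (FractionRing R) b1) *
      C (algebraMap R (FractionRing R) b2) * C (algebraMap R (FractionRing R) b3)) * hab

/-- the holomorphic functions on `W` -/
def Hol (W : Set ℂ) : Subring (W → ℂ) where
  carrier := {f | ∃ F : ℂ → ℂ, DifferentiableOn ℂ F W ∧ ∀ w : W, f w = F w}
  mul_mem' := by
    rintro f g ⟨F, hF, hf⟩ ⟨G, hG, hg⟩
    exact ⟨fun w => F w * G w, hF.mul hG, fun w => by rw [Pi.mul_apply, hf, hg]⟩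
  one_mem' := ⟨fun _ => 1, differentiableOn_const _, fun _ => rfl⟩
  add_mem' := by
    rintro f g ⟨F, hF, hf⟩ ⟨G, hG, hg⟩
    exact ⟨fun w => F w + G w, hF.add hG, fun w => by rw [Pi.add_apply, hf, hg]⟩
  zero_mem' := ⟨fun _ => 0, differentiableOn_const _, fun _ => rfl⟩
  neg_mem' := by
    rintro f ⟨F, hF, hf⟩
    exact ⟨fun w => -F w, hF.neg, fun w => by rw [Pi.neg_apply, hf]⟩

variable {W V : Set ℂ}

theorem hol_ext {f g : Hol W} (h : ∀ w : W, f.1 w = g.1 w) : f = g :=
  Subtype.ext (funext h)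

/-- identity theorem -/
theorem hol_zero (hWo : IsOpen W) (hWc : IsPreconnected W) {F : ℂ → ℂ}
    (hF : DifferentiableOn ℂ F W) {w0 : ℂ} (hw0 : w0 ∈ W) (h : ∀ᶠ w in 𝓝 w0, F w = 0) :
    ∀ w ∈ W, F w = 0 := fun _ hw =>
  (hF.analyticOnNhd hWo).eqOn_zero_of_preconnected_of_eventuallyEq_zero hWc hw0 h hw

theorem hol_dom (hWo : IsOpen W) (hWc : IsPreconnected W) (hWn : W.Nonempty) :
    IsDomain (Hol W) := by
  have h1 : Nontrivial (Hol W) := by
    obtain ⟨w0, hw0⟩ := hWn
    refine ⟨⟨0, 1, fun h => ?_⟩⟩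
    have := congrFun (congrArg Subtype.val h) ⟨w0, hw0⟩
    exact zero_ne_one this
  have h2 : NoZeroDivisors (Hol W) := by
    refine ⟨?_⟩
    rintro ⟨f, F, hF, hf⟩ ⟨g, G, hG, hg⟩ hfg
    by_contra hcon
    push Not at hcon
    obtain ⟨c1, c2⟩ := hcon
    obtain ⟨w0, hw0⟩ : ∃ w : W, f w ≠ 0 := by
      by_contra h
      push Not at h
      exact c1 (Subtype.ext (funext h))
    apply c2
    refine Subtype.ext (funext fun w => ?_)
    show g w = 0
    rw [hg]
    refine hol_zero hWo hWc hG w0.2 ?_ w w.2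
    have hFc : ContinuousAt F w0 := (hF.differentiableAt (hWo.mem_nhds w0.2)).continuousAt
    filter_upwards [hFc.eventually_ne (by rw [← hf]; exact hw0), hWo.mem_nhds w0.2] with v h3 h4
    have h5 : f ⟨v, h4⟩ * g ⟨v, h4⟩ = 0 := congrFun (congrArg Subtype.val hfg) ⟨v, h4⟩
    rw [hf, hg] at h5
    exact (mul_eq_zero.1 h5).resolve_left h3
  exact NoZeroDivisors.to_isDomain _

/-- evaluation -/
def evw (w : W) : Hol W →+* ℂ := (Pi.evalRingHom (fun _ : W => ℂ) w).comp (Hol W).subtype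

theorem evw_apply (w : W) (f : Hol W) : evw w f = f.1 w := rfl

theorem hol_char (hWn : W.Nonempty) : CharZero (Hol W) := by
  obtain ⟨w0, hw0⟩ := hWn
  refine ⟨fun m n h => ?_⟩
  have h1 := congrArg (evw (⟨w0, hw0⟩ : W)) h
  rw [map_natCast, map_natCast] at h1
  exact_mod_cast h1

/-- restriction -/
def res (hVW : V ⊆ W) : Hol W →+* Hol V where
  toFun f := ⟨fun v => f.1 ⟨v, hVW v.2⟩, by
    obtain ⟨F, hF, hf⟩ := f.2
    exact ⟨F, hF.mono hVW, fun w => hf _⟩⟩
  map_one' := rfl
  map_mul' _ _ := rfl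
  map_zero' := rfl
  map_add' _ _ := rfl

theorem res_inj (hWo : IsOpen W) (hWc : IsPreconnected W) (hVo : IsOpen V) (hVW : V ⊆ W)
    (hVn : V.Nonempty) : Function.Injective (res hVW) := by
  rw [injective_iff_map_eq_zero]
  rintro ⟨f, F, hF, hf⟩ h
  obtain ⟨v0, hv0⟩ := hVn
  refine Subtype.ext (funext fun w => ?_)
  show f w = 0
  rw [hf]
  refine hol_zero hWo hWc hF (hVW hv0) ?_ w w.2
  filter_upwards [hVo.mem_nhds hv0] with v hv
  have h1 : f ⟨v, hVW hv⟩ = 0 := congrFun (congrArg Subtype.val h) ⟨v, hv⟩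
  rwa [hf] at h1

/-- **A separable relation.** -/
theorem sep_an (hWo : IsOpen W) (hWc : IsPreconnected W) (hVo : IsOpen V)
    (hVc : IsPreconnected V) (hVW : V ⊆ W) (hVn : V.Nonempty) {d : ℕ} {c : ℕ → ℂ → ℂ}
    (hc : ∀ k ≤ d, DifferentiableOn ℂ (c k) W) (hd : ∃ w ∈ W, c d w ≠ 0) {h : ℂ → ℂ}
    (hh : DifferentiableOn ℂ h V) (hrel : ∀ w ∈ V, Ev d c w (h w) = 0) :
    ∃ (d' : ℕ) (c' : ℕ → ℂ → ℂ) (ρ : ℂ → ℂ), d' ≤ d ∧ (∀ k, DifferentiableOn ℂ (c' k) W) ∧
      DifferentiableOn ℂ ρ W ∧ (∃ w ∈ W, c' d' w ≠ 0) ∧ (∃ w ∈ W, ρ w ≠ 0) ∧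
      (∀ w ∈ V, Ev d' c' w (h w) = 0) ∧
      ∀ w ∈ W, ρ w ≠ 0 → ∀ x, Ev d' c' w x = 0 → Ev' d' c' w x ≠ 0 := by
  classical
  have hWn : W.Nonempty := hVn.mono hVW
  haveI := hol_dom hWo hWc hWn
  haveI := hol_dom hVo hVc hVn
  haveI := hol_char hWn
  letI : Algebra (Hol W) (Hol V) := (res hVW).toAlgebra
  let hV : Hol V := ⟨fun v => h v, h, hh, fun _ => rfl⟩
  let cc : ℕ → Hol W := fun k =>
    if hk : k ≤ d then ⟨fun w => c k w, c k, hc k hk, fun _ => rfl⟩ else 0
  have hcc : ∀ k ≤ d, ∀ w : W, (cc k).1 w = c k w := by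
    intro k hk w
    simp only [cc]
    rw [dif_pos hk]
  let p0 : (Hol W)[X] := ∑ k ∈ Finset.range (d + 1), C (cc k) * X ^ k
  have hp0 : p0 ≠ 0 := by
    intro h0
    obtain ⟨w, hw, hdw⟩ := hd
    have h1 : p0.coeff d = cc d := by
      simp only [p0]
      rw [finsetSum_coeff, Finset.sum_eq_single d]
      · rw [coeff_C_mul, coeff_X_pow, if_pos rfl, mul_one]
      · intro k _ hk
        rw [coeff_C_mul, coeff_X_pow, if_neg (Ne.symm hk), mul_zero]
      · intro h
        exact absurd (Finset.mem_range.2 (Nat.lt_succ_self d)) h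
    rw [h0, coeff_zero] at h1
    apply hdw
    rw [← hcc d le_rfl ⟨w, hw⟩, ← h1]
    rfl
  have hp0h : aeval hV p0 = 0 := by
    refine hol_ext fun v => ?_
    have h1 : aeval hV p0 = ∑ k ∈ Finset.range (d + 1), res hVW (cc k) * hV ^ k := by
      simp only [p0]
      rw [map_sum]
      refine Finset.sum_congr rfl fun k _ => ?_
      rw [map_mul, aeval_C, map_pow, aeval_X]
      rfl
    rw [h1, ← evw_apply, map_sum]
    have h2 := hrel v v.2
    unfold Ev at h2
    have h3 : ((0 : Hol V).1 v) = 0 := rfl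
    rw [h3, ← h2]
    refine Finset.sum_congr rfl fun k hk => ?_
    have hk' : k ≤ d := Nat.lt_succ_iff.1 (Finset.mem_range.1 hk)
    rw [map_mul, map_pow, evw_apply, evw_apply]
    show (cc k).1 ⟨v, hVW v.2⟩ * h v ^ k = _
    rw [hcc k hk']
  obtain ⟨p, u, v, ρ, hρ, hp, hdeg, hph, hbez⟩ := sep_rel (R := Hol W) (S := Hol V)
    (res_inj hWo hWc hVo hVW hVn) hp0 hp0h
  have hdeg0 : p0.natDegree ≤ d := by
    refine Polynomial.natDegree_sum_le_of_forall_le _ _ fun k hk => ?_
    exact (Polynomial.natDegree_C_mul_X_pow_le _ _).trans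
      (Nat.lt_succ_iff.1 (Finset.mem_range.1 hk))
  obtain ⟨ρF, hρF, hρe⟩ := ρ.2
  have hch : ∀ k, ∃ F : ℂ → ℂ, DifferentiableOn ℂ F W ∧ ∀ w : W, (p.coeff k).1 w = F w :=
    fun k => (p.coeff k).2
  choose c' hc'd hc' using hch
  have hnz : ∀ f : Hol W, f ≠ 0 → ∃ w : W, f.1 w ≠ 0 := by
    intro f hf
    by_contra hcon
    push Not at hcon
    exact hf (hol_ext hcon)
  have hmap : ∀ w : W, p.map (evw w) = Pw p.natDegree c' w := by
    intro w
    conv_lhs => rw [p.as_sum_range_C_mul_X_pow]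
    unfold Pw
    rw [Polynomial.map_sum]
    refine Finset.sum_congr rfl fun k _ => ?_
    rw [Polynomial.map_mul, Polynomial.map_pow, Polynomial.map_C, Polynomial.map_X, evw_apply,
      hc']
  refine ⟨p.natDegree, c', ρF, hdeg.trans hdeg0, hc'd, hρF, ?_, ?_, ?_, ?_⟩
  · obtain ⟨w, hw⟩ := hnz (p.coeff p.natDegree) (by
      rw [coeff_natDegree, Ne, leadingCoeff_eq_zero]; exact hp)
    exact ⟨w, w.2, by rw [← hc']; exact hw⟩
  · obtain ⟨w, hw⟩ := hnz ρ hρ
    exact ⟨w, w.2, by rw [← hρe]; exact hw⟩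
  · intro w hw
    have h1 := congrArg (evw (⟨w, hw⟩ : V)) hph
    rw [aeval_def, eval₂_eq_sum_range, map_sum, map_zero] at h1
    unfold Ev
    rw [← h1]
    refine Finset.sum_congr rfl fun k _ => ?_
    rw [map_mul, map_pow]
    have e1 : evw (⟨w, hw⟩ : V) (algebraMap (Hol W) (Hol V) (p.coeff k)) = c' k w :=
      hc' k ⟨w, hVW hw⟩
    have e2 : evw (⟨w, hw⟩ : V) hV = h w := rfl
    rw [e1, e2]
  · intro w hw hρw x hx hx'
    have h1 := congrArg (fun f => (f.map (evw (⟨w, hw⟩ : W))).eval x) hbez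
    simp only [Polynomial.map_add, Polynomial.map_mul, ← Polynomial.derivative_map, hmap,
      Polynomial.map_C, eval_add, eval_mul, eval_C] at h1
    rw [Pw_eval, Pw_der, hx, hx', mul_zero, mul_zero, add_zero] at h1
    apply hρw
    have h2 : evw (⟨w, hw⟩ : W) ρ = ρF w := hρe ⟨w, hw⟩
    rw [← h2]
    exact h1.symm

/-- zeros are countable -/
theorem zeros_countable (hWo : IsOpen W) (hWc : IsPreconnected W) {F : ℂ → ℂ}
    (hF : DifferentiableOn ℂ F W) (hne : ∃ w ∈ W, F w ≠ 0) : {w | w ∈ W ∧ F w = 0}.Countable := by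
  obtain ⟨w0, hw0, hFw0⟩ := hne
  have hd : DiscreteTopology {w | w ∈ W ∧ F w = 0} := by
    rw [discreteTopology_subtype_iff]
    rintro w ⟨hw, -⟩
    have h1 : AnalyticAt ℂ F w := hF.analyticAt (hWo.mem_nhds hw)
    have h2 : ∀ᶠ v in 𝓝[≠] w, F v ≠ 0 := by
      rcases h1.eventually_eq_zero_or_eventually_ne_zero with h2 | h2
      · exact absurd (hol_zero hWo hWc hF hw h2 w0 hw0) hFw0
      · exact h2
    rw [← Filter.empty_mem_iff_bot, Filter.mem_inf_iff]
    refine ⟨{v | F v ≠ 0}, h2, {w | w ∈ W ∧ F w = 0}, Filter.mem_principal_self _, ?_⟩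
    ext v
    simp only [mem_empty_iff_false, mem_inter_iff, mem_ofPred_eq, false_iff, not_and]
    exact fun h3 _ h4 => h3 h4
  exact (countable_of_Lindelof_of_discrete (X := {w | w ∈ W ∧ F w = 0})).to_set

end Pool.Agent.Helper6.SF
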