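import Pool.Agent.Helper6.SF.Alg

/-!
# Fields generated by algebraic functions are closed under derivation
-/

set_option autoImplicit false

open Complex Metric Set Filter Topology Polynomial

namespace Pool.Agent.Helper6.SF

section

variable {R S : Type} [CommRing R] [IsDomain R] [CharZero R] [CommRing S] [IsDomain S]
  [Algebra R S]

/-- the field generated by `h` -/
noncomputable def Lf (R : Type) {S : Type} [CommRing R] [CommRing S] [IsDomain S] [Algebra R S]
    (h : S) : Subfield (FractionRing S) :=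
  Subfield.closure (insert (algebraMap S (FractionRing S) h)
    (Set.range fun a : R => algebraMap S (FractionRing S) (algebraMap R S a)))

omit [IsDomain R] [CharZero R] in
theorem Lf_self (h : S) : algebraMap S (FractionRing S) h ∈ Lf R h :=
  Subfield.subset_closure (Set.mem_insert _ _)

omit [IsDomain R] [CharZero R] in
theorem Lf_base (h : S) (a : R) :
    algebraMap S (FractionRing S) (algebraMap R S a) ∈ Lf R h :=
  Subfield.subset_closure (Set.mem_insert_of_mem _ ⟨a, rfl⟩)

omit [IsDomain R] [CharZero R] in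
theorem Lf_aeval {h g : S} (hg : algebraMap S (FractionRing S) g ∈ Lf R h) (p : R[X]) :
    algebraMap S (FractionRing S) (aeval g p) ∈ Lf R h := by
  rw [aeval_eq_sum_range, map_sum]
  refine sum_mem fun k _ => ?_
  rw [Algebra.smul_def, map_mul, map_pow]
  exact mul_mem (Lf_base h _) (pow_mem hg _)

/-- the degree of the elements -/
theorem deg_bound (hinj : Function.Injective (algebraMap R S)) {h g : S} {p0 : R[X]}
    (hp0 : p0 ≠ 0) (hp0h : aeval h p0 = 0)
    (hg : algebraMap S (FractionRing S) g ∈ Lf R h) :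
    ∃ p : R[X], p ≠ 0 ∧ p.natDegree ≤ p0.natDegree ∧ aeval g p = 0 := by
  classical
  have hf : FaithfulSMul R S := (faithfulSMul_iff_algebraMap_injective R S).2 hinj
  have hinj2 : Function.Injective (algebraMap R (FractionRing S)) := by
    rw [IsScalarTower.algebraMap_eq R S (FractionRing S)]
    exact (IsFractionRing.injective S (FractionRing S)).comp hinj
  have hf2 : FaithfulSMul R (FractionRing S) :=
    (faithfulSMul_iff_algebraMap_injective R (FractionRing S)).2 hinj2
  letI : Algebra (FractionRing R) (FractionRing S) := FractionRing.liftAlgebra R _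
  have := FractionRing.isScalarTower_liftAlgebra R (FractionRing S)
  set x : FractionRing S := algebraMap S (FractionRing S) h with hx
  set y : FractionRing S := algebraMap S (FractionRing S) g with hy
  have h0 : aeval x p0 = 0 := by rw [hx, aeval_algebraMap_apply, hp0h, map_zero]
  have h1 : IsAlgebraic R x := ⟨p0, hp0, h0⟩
  have h2 : IsAlgebraic (FractionRing R) x :=
    (IsFractionRing.isAlgebraic_iff R (FractionRing R) (FractionRing S)).1 h1
  have hint : IsIntegral (FractionRing R) x := h2.isIntegral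
  have hinjK := IsFractionRing.injective R (FractionRing R)
  have hyL : y ∈ IntermediateField.adjoin (FractionRing R) {x} := by
    have h3 : Lf R h ≤ (IntermediateField.adjoin (FractionRing R) {x}).toSubfield := by
      unfold Lf
      rw [Subfield.closure_le]
      rintro a (rfl | ⟨b, rfl⟩)
      · exact IntermediateField.mem_adjoin_simple_self _ _
      · have h4 : algebraMap S (FractionRing S) (algebraMap R S b) =
            algebraMap (FractionRing R) (FractionRing S) (algebraMap R (FractionRing R) b) := by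
          rw [← IsScalarTower.algebraMap_apply R S (FractionRing S),
            ← IsScalarTower.algebraMap_apply R (FractionRing R) (FractionRing S)]
        show algebraMap S (FractionRing S) (algebraMap R S b) ∈ _
        rw [h4]
        exact IntermediateField.algebraMap_mem _ _
    exact h3 hg
  haveI : FiniteDimensional (FractionRing R) (IntermediateField.adjoin (FractionRing R) {x}) :=
    IntermediateField.adjoin.finiteDimensional hint
  have hdy : (minpoly (FractionRing R) y).natDegree ≤ (minpoly (FractionRing R) x).natDegree := by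
    have h3 := minpoly.natDegree_le (A := FractionRing R)
      (⟨y, hyL⟩ : IntermediateField.adjoin (FractionRing R) {x})
    rw [IntermediateField.adjoin.finrank hint] at h3
    have h4 : minpoly (FractionRing R) y = minpoly (FractionRing R)
        (⟨y, hyL⟩ : IntermediateField.adjoin (FractionRing R) {x}) :=
      minpoly.algebraMap_eq (algebraMap (IntermediateField.adjoin (FractionRing R) {x})
        (FractionRing S)).injective (⟨y, hyL⟩ : IntermediateField.adjoin (FractionRing R) {x})
    rw [h4]
    exact h3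
  have hinty : IsIntegral (FractionRing R) y := by
    have h3 : IsIntegral (FractionRing R)
        (⟨y, hyL⟩ : IntermediateField.adjoin (FractionRing R) {x}) :=
      Algebra.IsIntegral.isIntegral _
    exact h3.map (IntermediateField.adjoin (FractionRing R) {x}).val
  set m := minpoly (FractionRing R) y with hm
  obtain ⟨⟨b1, hb1⟩, e1⟩ := IsLocalization.integerNormalization_map_to_map
    (nonZeroDivisors R) m
  set p := IsLocalization.integerNormalization (nonZeroDivisors R) m with hp
  simp only at e1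
  have n1 : b1 ≠ 0 := nonZeroDivisors.ne_zero hb1
  have hsm : ∀ (r : R) (f : (FractionRing R)[X]),
      r • f = C (algebraMap R (FractionRing R) r) * f := by
    intro r f
    rw [← Polynomial.smul_eq_C_mul, algebraMap_smul]
  have n1' : algebraMap R (FractionRing R) b1 ≠ 0 := by
    intro h4
    exact n1 (hinjK (by rw [h4, map_zero]))
  refine ⟨p, ?_, ?_, ?_⟩
  · intro h0
    rw [h0, Polynomial.map_zero, hsm] at e1
    have h3 := (mul_eq_zero.1 e1.symm).resolve_left (by
      intro h4
      rw [C_eq_zero] at h4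
      exact n1' h4)
    exact minpoly.ne_zero hinty h3
  · have h3 : p.natDegree = m.natDegree := by
      rw [← Polynomial.natDegree_map_eq_of_injective hinjK p, e1, hsm,
        Polynomial.natDegree_C_mul n1']
    have h4 : (minpoly (FractionRing R) x).natDegree ≤
        (p0.map (algebraMap R (FractionRing R))).natDegree := by
      refine Polynomial.natDegree_le_natDegree (minpoly.degree_le_of_ne_zero _ _ ?_ ?_)
      · exact (Polynomial.map_ne_zero_iff hinjK).2 hp0
      · rw [aeval_map_algebraMap]
        exact h0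
    rw [h3]
    exact hdy.trans (h4.trans Polynomial.natDegree_map_le)
  · have h3 : aeval y p = 0 :=
      IsLocalization.integerNormalization_aeval_eq_zero (nonZeroDivisors R) m (minpoly.aeval _ _)
    rw [hy, aeval_algebraMap_apply] at h3
    exact (IsFractionRing.injective S (FractionRing S)) (by rw [h3, map_zero])

/-- closedness under derivation -/
theorem der_mem (hinj : Function.Injective (algebraMap R S)) {δR : R → R} {δS : S →+ S}
    (hmul : ∀ a b, δS (a * b) = a * δS b + b * δS a)
    (hres : ∀ a, δS (algebraMap R S a) = algebraMap R S (δR a)) {h g : S} {p0 : R[X]}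
    (hp0 : p0 ≠ 0) (hp0h : aeval h p0 = 0)
    (hg : algebraMap S (FractionRing S) g ∈ Lf R h) :
    algebraMap S (FractionRing S) (δS g) ∈ Lf R h := by
  obtain ⟨p1, hp1, -, hp1g⟩ := deg_bound hinj hp0 hp0h hg
  obtain ⟨p, u, v, ρ, hρ, hp, -, hpg, hbez⟩ := sep_rel hinj hp1 hp1g
  have E1 : aeval g v * aeval g (derivative p) = algebraMap R S ρ := by
    have h1 := congrArg (aeval g) hbez
    rw [map_add, map_mul, map_mul, hpg, mul_zero, zero_add, aeval_C] at h1
    exact h1
  have hpow : ∀ k : ℕ, δS (g ^ k) = k * g ^ (k - 1) * δS g := by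
    intro k
    induction k with
    | zero =>
      rw [pow_zero, Nat.cast_zero, zero_mul, zero_mul]
      have h1 := hmul 1 1
      rw [one_mul, one_mul] at h1
      have h2 : δS 1 + δS 1 = δS 1 + 0 := by rw [add_zero]; exact h1.symm
      exact add_left_cancel h2
    | succ k ih =>
      rw [pow_succ, hmul, ih, Nat.add_sub_cancel]
      rcases Nat.eq_zero_or_pos k with h1 | h1
      · subst h1
        simp
      · obtain ⟨j, rfl⟩ : ∃ j, k = j + 1 := ⟨k - 1, by omega⟩
        rw [Nat.add_sub_cancel]
        push_cast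
        ring
  have E2 : aeval g (derivative p) = ∑ k ∈ Finset.range (p.natDegree + 1),
      algebraMap R S (p.coeff k) * (k * g ^ (k - 1)) := by
    conv_lhs => rw [p.as_sum_range_C_mul_X_pow]
    rw [derivative_sum, map_sum]
    refine Finset.sum_congr rfl fun k _ => ?_
    rw [derivative_C_mul_X_pow, map_mul, aeval_C, map_pow, aeval_X, map_mul, map_natCast]
    ring
  set A : S := ∑ k ∈ Finset.range (p.natDegree + 1), g ^ k * algebraMap R S (δR (p.coeff k))
    with hA
  have E3 : A + aeval g (derivative p) * δS g = 0 := by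
    have h1 : δS (aeval g p) = 0 := by rw [hpg, map_zero]
    rw [aeval_eq_sum_range, map_sum] at h1
    rw [← h1, E2, hA, Finset.sum_mul, ← Finset.sum_add_distrib]
    refine Finset.sum_congr rfl fun k _ => ?_
    rw [Algebra.smul_def, hmul, hpow, hres]
    ring
  have E4 : algebraMap R S ρ * δS g = -(aeval g v * A) := by
    rw [← E1]
    linear_combination (aeval g v) * E3
  have hAL : algebraMap S (FractionRing S) A ∈ Lf R h := by
    rw [hA, map_sum]
    refine sum_mem fun k _ => ?_
    rw [map_mul, map_pow]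
    exact mul_mem (pow_mem hg _) (Lf_base h _)
  have hρ' : algebraMap S (FractionRing S) (algebraMap R S ρ) ≠ 0 := by
    intro h1
    apply hρ
    apply hinj
    apply IsFractionRing.injective S (FractionRing S)
    rw [h1, map_zero, map_zero]
  have E5 : algebraMap S (FractionRing S) (δS g) =
      -(algebraMap S (FractionRing S) (aeval g v) * algebraMap S (FractionRing S) A) /
        algebraMap S (FractionRing S) (algebraMap R S ρ) := by
    rw [eq_div_iff hρ', ← map_mul, ← map_mul, ← map_neg, ← E4]
    congr 1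
    ring
  rw [E5]
  exact div_mem (neg_mem (mul_mem (Lf_aeval hg v) hAL)) (Lf_base h ρ)

end

variable {W V : Set ℂ}

/-- a holomorphic function as an element -/
def mkH {V : Set ℂ} (f : ℂ → ℂ) (hf : DifferentiableOn ℂ f V) : Hol V :=
  ⟨fun v => f v, f, hf, fun _ => rfl⟩

theorem mkH_eq {f g : ℂ → ℂ} (hf : DifferentiableOn ℂ f V) (hg : DifferentiableOn ℂ g V)
    (h : ∀ v ∈ V, f v = g v) : mkH f hf = mkH g hg :=
  hol_ext fun v => h v v.2

/-- the derivative -/
noncomputable def dH (hVo : IsOpen V) : Hol V →+ Hol V where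
  toFun f := mkH (deriv (Classical.choose f.2)) ((Classical.choose_spec f.2).1.deriv hVo)
  map_zero' := by
    refine hol_ext fun v => ?_
    obtain ⟨h1, h2⟩ := Classical.choose_spec (0 : Hol V).2
    have h3 : Classical.choose (0 : Hol V).2 =ᶠ[𝓝 (v : ℂ)] fun _ => (0 : ℂ) := by
      filter_upwards [hVo.mem_nhds v.2] with w hw
      exact (h2 ⟨w, hw⟩).symm
    show deriv (Classical.choose (0 : Hol V).2) v = 0
    rw [h3.deriv_eq, deriv_const]
  map_add' f g := by
    refine hol_ext fun v => ?_
    obtain ⟨h1, h2⟩ := Classical.choose_spec (f + g).2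
    obtain ⟨h3, h4⟩ := Classical.choose_spec f.2
    obtain ⟨h5, h6⟩ := Classical.choose_spec g.2
    have h7 : Classical.choose (f + g).2 =ᶠ[𝓝 (v : ℂ)]
        fun w => Classical.choose f.2 w + Classical.choose g.2 w := by
      filter_upwards [hVo.mem_nhds v.2] with w hw
      rw [← h2 ⟨w, hw⟩, ← h4 ⟨w, hw⟩, ← h6 ⟨w, hw⟩]
      rfl
    show deriv (Classical.choose (f + g).2) v =
      deriv (Classical.choose f.2) v + deriv (Classical.choose g.2) v
    rw [h7.deriv_eq]
    exact deriv_fun_add (h3.differentiableAt (hVo.mem_nhds v.2))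
      (h5.differentiableAt (hVo.mem_nhds v.2))

theorem dH_eq (hVo : IsOpen V) {f : Hol V} {F : ℂ → ℂ} (hf : ∀ v : V, f.1 v = F v) (v : V) :
    (dH hVo f).1 v = deriv F v := by
  obtain ⟨h1, h2⟩ := Classical.choose_spec f.2
  have h3 : Classical.choose f.2 =ᶠ[𝓝 (v : ℂ)] F := by
    filter_upwards [hVo.mem_nhds v.2] with w hw
    rw [← h2 ⟨w, hw⟩, hf ⟨w, hw⟩]
  exact h3.deriv_eq

theorem dH_mul (hVo : IsOpen V) (f g : Hol V) : dH hVo (f * g) = f * dH hVo g + g * dH hVo f := by
  refine hol_ext fun v => ?_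
  obtain ⟨F, hF, hf⟩ := f.2
  obtain ⟨G, hG, hg⟩ := g.2
  have h1 : (dH hVo (f * g)).1 v = deriv (fun w => F w * G w) v :=
    dH_eq hVo (fun v => by
      show f.1 v * g.1 v = _
      rw [hf, hg]) v
  have h2 : (f * dH hVo g + g * dH hVo f).1 v = f.1 v * (dH hVo g).1 v + g.1 v * (dH hVo f).1 v :=
    rfl
  rw [h1, h2, dH_eq hVo hf, dH_eq hVo hg, hf, hg, deriv_fun_mul
    (hF.differentiableAt (hVo.mem_nhds v.2)) (hG.differentiableAt (hVo.mem_nhds v.2))]
  ring

theorem dH_res (hWo : IsOpen W) (hVo : IsOpen V) (hVW : V ⊆ W) (a : Hol W) :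
    dH hVo (res hVW a) = res hVW (dH hWo a) := by
  refine hol_ext fun v => ?_
  obtain ⟨A, hA, ha⟩ := a.2
  have h1 : (dH hVo (res hVW a)).1 v = deriv A v := dH_eq hVo (fun v => ha _) v
  have h2 : (res hVW (dH hWo a)).1 v = (dH hWo a).1 ⟨v, hVW v.2⟩ := rfl
  rw [h1, h2, dH_eq hWo ha]

theorem dH_mk (hVo : IsOpen V) {f : ℂ → ℂ} (hf : DifferentiableOn ℂ f V) :
    dH hVo (mkH f hf) = mkH (deriv f) (hf.deriv hVo) :=
  hol_ext fun v => dH_eq hVo (f := mkH f hf) (F := f) (fun _ => rfl) v

/-- **Relations for the elements of the field.** -/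
theorem alg_close (hWo : IsOpen W) (hWc : IsPreconnected W) (hVo : IsOpen V)
    (hVc : IsPreconnected V) (hVW : V ⊆ W) (hVn : V.Nonempty) {d : ℕ} {c : ℕ → ℂ → ℂ}
    (hc : ∀ k ≤ d, DifferentiableOn ℂ (c k) W) (hd : ∃ w ∈ W, c d w ≠ 0) {i : Fin 4}
    {f : ℂ → ℂ} (hf : DifferentiableOn ℂ f V) (hf0 : ∀ v ∈ V, deriv f v ≠ 0)
    (hrel : ∀ w ∈ V, Ev d c w (![f w, deriv f w, deriv (deriv f) w / deriv f w,
      deriv (deriv (deriv f)) w / deriv f w - 3 / 2 * (deriv (deriv f) w / deriv f w) ^ 2] i) = 0) :
    ∃ (d' : ℕ) (c' : ℕ → ℂ → ℂ), d' ≤ d ∧ (∀ k, DifferentiableOn ℂ (c' k) W) ∧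
      (∃ w ∈ W, c' d' w ≠ 0) ∧
      (∀ w ∈ V, Ev d' c' w (deriv (deriv (deriv f)) w / deriv f w -
        3 / 2 * (deriv (deriv f) w / deriv f w) ^ 2) = 0) := by
  classical
  have hWn : W.Nonempty := hVn.mono hVW
  haveI := hol_dom hWo hWc hWn
  haveI := hol_dom hVo hVc hVn
  haveI := hol_char hWn
  letI : Algebra (Hol W) (Hol V) := (res hVW).toAlgebra
  have hinj : Function.Injective (algebraMap (Hol W) (Hol V)) := res_inj hWo hWc hVo hVW hVn
  -- the functions
  have hf1 : DifferentiableOn ℂ (deriv f) V := hf.deriv hVo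
  have hf2 : DifferentiableOn ℂ (deriv (deriv f)) V := hf1.deriv hVo
  have hf3 : DifferentiableOn ℂ (deriv (deriv (deriv f))) V := hf2.deriv hVo
  set N : ℂ → ℂ := fun w => deriv (deriv f) w / deriv f w with hN
  set Z : ℂ → ℂ := fun w => deriv (deriv (deriv f)) w / deriv f w -
        3 / 2 * (deriv (deriv f) w / deriv f w) ^ 2 with hZ
  have hNd : DifferentiableOn ℂ N V := hf2.div hf1 hf0
  have hZd : DifferentiableOn ℂ Z V := (hf3.div hf1 hf0).sub ((hNd.pow 2).const_mul _)
  have hXd : DifferentiableOn ℂ (fun w => ![f w, deriv f w, N w, Z w] i) V := by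
    fin_cases i
    · exact hf
    · exact hf1
    · exact hNd
    · exact hZd
  set h : Hol V := mkH _ hXd with hh
  -- the polynomial
  let cc : ℕ → Hol W := fun k =>
    if hk : k ≤ d then ⟨fun w => c k w, c k, hc k hk, fun _ => rfl⟩ else 0
  have hcc : ∀ k ≤ d, ∀ w : W, (cc k).1 w = c k w := by
    intro k hk w
    simp only [cc]
    rw [dif_pos hk]
  let p0 : (Hol W)[X] := ∑ k ∈ Finset.range (d + 1), C (cc k) * X ^ k
  have hp0 : p0 ≠ 0 := by
    intro h0
    obtain ⟨w, hw, hdw⟩ := hd
    have h1 : p0.coeff d = cc d := by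
      simp only [p0]
      rw [finsetSum_coeff, Finset.sum_eq_single d]
      · rw [coeff_C_mul, coeff_X_pow, if_pos rfl, mul_one]
      · intro k _ hk
        rw [coeff_C_mul, coeff_X_pow, if_neg (Ne.symm hk), mul_zero]
      · intro h
        exact absurd (Finset.mem_range.2 (Nat.lt_succ_self d)) h
    rw [h0, coeff_zero] at h1
    apply hdw
    rw [← hcc d le_rfl ⟨w, hw⟩, ← h1]
    rfl
  have hdeg0 : p0.natDegree ≤ d := by
    refine Polynomial.natDegree_sum_le_of_forall_le _ _ fun k hk => ?_
    exact (Polynomial.natDegree_C_mul_X_pow_le _ _).trans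
      (Nat.lt_succ_iff.1 (Finset.mem_range.1 hk))
  have hp0h : aeval h p0 = 0 := by
    refine hol_ext fun v => ?_
    have h1 : aeval h p0 = ∑ k ∈ Finset.range (d + 1), res hVW (cc k) * h ^ k := by
      simp only [p0]
      rw [map_sum]
      refine Finset.sum_congr rfl fun k _ => ?_
      rw [map_mul, aeval_C, map_pow, aeval_X]
      rfl
    rw [h1, ← evw_apply, map_sum]
    have h2 := hrel v v.2
    unfold Ev at h2
    have h3 : ((0 : Hol V).1 v) = 0 := rfl
    rw [h3, ← h2]
    refine Finset.sum_congr rfl fun k hk => ?_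
    have hk' : k ≤ d := Nat.lt_succ_iff.1 (Finset.mem_range.1 hk)
    rw [map_mul, map_pow, evw_apply, evw_apply]
    show (cc k).1 ⟨v, hVW v.2⟩ * (![f v, deriv f v, N v, Z v] i) ^ k = _
    rw [hcc k hk']
  -- membership
  have hder : ∀ g : Hol V, algebraMap (Hol V) (FractionRing (Hol V)) g ∈ Lf (Hol W) h →
      algebraMap (Hol V) (FractionRing (Hol V)) (dH hVo g) ∈ Lf (Hol W) h := fun g hg =>
    der_mem hinj (δR := dH hWo) (dH_mul hVo) (dH_res hWo hVo hVW) hp0 hp0h hg
  have hself : algebraMap (Hol V) (FractionRing (Hol V)) h ∈ Lf (Hol W) h := Lf_self h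
  have hinjV := IsFractionRing.injective (Hol V) (FractionRing (Hol V))
  have hdiv : ∀ g1 g2 g3 : Hol V, g3 ≠ 0 → g1 * g3 = g2 →
      algebraMap (Hol V) (FractionRing (Hol V)) g2 ∈ Lf (Hol W) h →
      algebraMap (Hol V) (FractionRing (Hol V)) g3 ∈ Lf (Hol W) h →
      algebraMap (Hol V) (FractionRing (Hol V)) g1 ∈ Lf (Hol W) h := by
    intro g1 g2 g3 h3 he m2 m3
    have h4 : algebraMap (Hol V) (FractionRing (Hol V)) g3 ≠ 0 := by
      intro h5
      exact h3 (hinjV (by rw [h5, map_zero]))
    have h5 : algebraMap (Hol V) (FractionRing (Hol V)) g1 =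
        algebraMap (Hol V) (FractionRing (Hol V)) g2 /
          algebraMap (Hol V) (FractionRing (Hol V)) g3 := by
      rw [eq_div_iff h4, ← map_mul, he]
    rw [h5]
    exact div_mem m2 m3
  obtain ⟨v0, hv0⟩ := hVn
  have hf1n : mkH (deriv f) hf1 ≠ 0 := by
    intro h1
    have h2 := congrArg (fun g : Hol V => g.1 ⟨v0, hv0⟩) h1
    exact hf0 v0 hv0 h2
  have m0 : i = 0 → algebraMap (Hol V) (FractionRing (Hol V)) (mkH f hf) ∈ Lf (Hol W) h := by
    rintro rfl
    exact hself
  have m1 : i = 0 ∨ i = 1 → algebraMap (Hol V) (FractionRing (Hol V)) (mkH (deriv f) hf1) ∈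
      Lf (Hol W) h := by
    rintro (h1 | h1)
    · rw [← dH_mk hVo hf]
      exact hder _ (m0 h1)
    · subst h1
      exact hself
  have m2 : i = 0 ∨ i = 1 ∨ i = 2 → algebraMap (Hol V) (FractionRing (Hol V)) (mkH N hNd) ∈
      Lf (Hol W) h := by
    have h3 : i = 0 ∨ i = 1 → algebraMap (Hol V) (FractionRing (Hol V)) (mkH N hNd) ∈
        Lf (Hol W) h := by
      intro h1
      have h2 := m1 h1
      have h3 := hder _ h2
      rw [dH_mk hVo hf1] at h3
      refine hdiv _ _ _ hf1n ?_ h3 h2
      refine hol_ext fun v => ?_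
      show N v * deriv f v = deriv (deriv f) v
      rw [hN]
      exact div_mul_cancel₀ _ (hf0 v v.2)
    rintro (h1 | h1 | h1)
    · exact h3 (Or.inl h1)
    · exact h3 (Or.inr h1)
    · subst h1
      exact hself
  have m3 : algebraMap (Hol V) (FractionRing (Hol V)) (mkH Z hZd) ∈ Lf (Hol W) h := by
    have h3 : i = 0 ∨ i = 1 ∨ i = 2 → algebraMap (Hol V) (FractionRing (Hol V)) (mkH Z hZd) ∈
        Lf (Hol W) h := by
      intro h1
      have h2 := m2 h1
      have h3 := hder _ h2
      rw [dH_mk hVo hNd] at h3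
      have hhalf : algebraMap (Hol V) (FractionRing (Hol V))
          (algebraMap (Hol W) (Hol V) (mkH (fun _ => 1 / 2) (differentiableOn_const _))) ∈
          Lf (Hol W) h := Lf_base h _
      have e : mkH Z hZd = mkH (deriv N) (hNd.deriv hVo) -
          algebraMap (Hol W) (Hol V) (mkH (fun _ => 1 / 2) (differentiableOn_const _)) *
            mkH N hNd ^ 2 := by
        refine hol_ext fun v => ?_
        show Z v = deriv N v - 1 / 2 * N v ^ 2
        have h4 : deriv N v = (deriv (deriv (deriv f)) v * deriv f v -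
            deriv (deriv f) v * deriv (deriv f) v) / deriv f v ^ 2 :=
          deriv_fun_div (hf2.differentiableAt (hVo.mem_nhds v.2))
            (hf1.differentiableAt (hVo.mem_nhds v.2)) (hf0 v v.2)
        have h5 := hf0 v v.2
        rw [h4, hZ, hN]
        field_simp
        ring
      rw [e, map_sub, map_mul, map_pow]
      exact sub_mem h3 (mul_mem hhalf (pow_mem h2 _))
    fin_cases i
    · exact h3 (Or.inl rfl)
    · exact h3 (Or.inr (Or.inl rfl))
    · exact h3 (Or.inr (Or.inr rfl))
    · exact hself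
  obtain ⟨p, hp, hdeg, hpz⟩ := deg_bound hinj hp0 hp0h m3
  have hch : ∀ k, ∃ F : ℂ → ℂ, DifferentiableOn ℂ F W ∧ ∀ w : W, (p.coeff k).1 w = F w :=
    fun k => (p.coeff k).2
  choose c' hc'd hc' using hch
  refine ⟨p.natDegree, c', hdeg.trans hdeg0, hc'd, ?_, ?_⟩
  · have h1 : p.coeff p.natDegree ≠ 0 := by
      rw [coeff_natDegree, Ne, leadingCoeff_eq_zero]; exact hp
    by_contra hcon
    push Not at hcon
    apply h1
    refine hol_ext fun w => ?_
    rw [hc', hcon w w.2]
    rfl
  · intro w hw
    have h1 := congrArg (evw (⟨w, hw⟩ : V)) hpz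
    rw [aeval_def, eval₂_eq_sum_range, map_sum, map_zero] at h1
    unfold Ev
    rw [← h1]
    refine Finset.sum_congr rfl fun k _ => ?_
    rw [map_mul, map_pow]
    have e1 : evw (⟨w, hw⟩ : V) (algebraMap (Hol W) (Hol V) (p.coeff k)) = c' k w :=
      hc' k ⟨w, hVW hw⟩
    rw [e1]
    rfl

end Pool.Agent.Helper6.SF
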