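import Pool.Agent.Helper6.SF.Lev
import Pool.Graph.R_pool_sql_team_seeded_b677cdb8.E8helper32.SL.Dg
import Pool.Graph.R_pool_sql_team_seeded_b677cdb8.E8helper32.SB.Fin

/-!
# Equal orders, with a logarithm
-/

set_option autoImplicit false

open Complex MeasureTheory Metric Set Filter Topology ComplexConjugate

namespace Pool.Agent.Helper6.SF

open Pool.Agent.Y245.SC (seg t_SEG)
open Pool.Agent.Y245.SG (Bn)
open Pool.Agent.E8helper32.SA

variable {a Λ : ℝ} {T E F D : ℂ → ℂ} {w0 d0 e0 cc : ℂ} {B B' : ℝ} {q : ℕ}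

theorem WD.add {W W' : ℂ → ℂ} {w0' : ℂ} (h : WD Λ W B w0) (h' : WD Λ W' B' w0') :
    WD Λ (fun σ => W σ + W' σ) (B + B') (w0 + w0') :=
  ⟨fun σ h1 h2 => (norm_add_le _ _).trans (add_le_add (h.hb σ h1 h2) (h'.hb σ h1 h2)),
    fun y => (h.hl y).add (h'.hl y)⟩

theorem wd_exp (hq : 0 < q) (hE : DifferentiableOn ℂ E (ball 0 (Real.exp (Λ / q)))) :
    ∃ B, WD Λ (fun σ => E (exp (σ / q))) B (E 0) := by
  have hq' : (0 : ℝ) < q := by exact_mod_cast hq
  obtain ⟨B, -, hB⟩ := exists_bd hq (show Λ - 1 < Λ by linarith) hE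
  have hre : ∀ σ : ℂ, (σ / q).re = σ.re / q := fun σ => by
    rw [← ofReal_natCast, div_ofReal_re]
  refine ⟨B, fun σ h1 _ => hB _ ?_, fun y => ?_⟩
  · rw [mem_closedBall_zero_iff, norm_exp, hre]
    exact Real.exp_le_exp.2 (by gcongr)
  · have hEc : ContinuousAt E 0 :=
      (hE.differentiableAt (isOpen_ball.mem_nhds (mem_ball_self (Real.exp_pos _)))).continuousAt
    refine hEc.tendsto.comp ?_
    rw [tendsto_zero_iff_norm_tendsto_zero]
    have h1 : ∀ x : ℝ, ‖exp ((y - x) / q)‖ = Real.exp ((y.re - x) / q) := by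
      intro x
      rw [norm_exp, hre, sub_re, ofReal_re]
    simp only [h1]
    refine Real.tendsto_exp_atBot.comp (Tendsto.atBot_div_const hq' ?_)
    have h2 := tendsto_atBot_add_const_left atTop y.re (tendsto_neg_atTop_atBot (G := ℝ))
    refine h2.congr fun x => ?_
    ring

theorem wd_log (cc : ℂ) : WD Λ (fun σ => cc * σ * exp σ)
    (‖cc‖ * ((1 + Real.exp (2 * (Λ - 1))) + 3 * Real.pi * Real.exp (Λ - 1))) 0 := by
  refine ⟨fun σ h1 h2 => ?_, fun y => ?_⟩
  · rw [mul_assoc, norm_mul, norm_mul, norm_exp]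
    refine mul_le_mul_of_nonneg_left ?_ (norm_nonneg _)
    have h3 : ‖σ‖ ≤ |σ.re| + 3 * Real.pi := (norm_le_abs_re_add_abs_im σ).trans (by linarith)
    have h4 : |σ.re| * Real.exp σ.re ≤ 1 + Real.exp (2 * (Λ - 1)) := by
      have h5 : |σ.re| ≤ Real.exp |σ.re| := by
        have := Real.add_one_le_exp |σ.re|
        linarith
      rcases le_total σ.re 0 with h6 | h6
      · rw [abs_of_nonpos h6] at h5 ⊢
        calc -σ.re * Real.exp σ.re ≤ Real.exp (-σ.re) * Real.exp σ.re := by gcongr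
          _ = 1 := by rw [← Real.exp_add, neg_add_cancel, Real.exp_zero]
          _ ≤ _ := by linarith [Real.exp_pos (2 * (Λ - 1))]
      · rw [abs_of_nonneg h6] at h5 ⊢
        calc σ.re * Real.exp σ.re ≤ Real.exp σ.re * Real.exp σ.re := by gcongr
          _ = Real.exp (2 * σ.re) := by rw [← Real.exp_add]; ring_nf
          _ ≤ Real.exp (2 * (Λ - 1)) := Real.exp_le_exp.2 (by linarith)
          _ ≤ _ := by linarith
    have h5 : Real.exp σ.re ≤ Real.exp (Λ - 1) := Real.exp_le_exp.2 h1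
    have hp := Real.pi_pos
    calc ‖σ‖ * Real.exp σ.re ≤ (|σ.re| + 3 * Real.pi) * Real.exp σ.re := by gcongr
      _ = |σ.re| * Real.exp σ.re + 3 * Real.pi * Real.exp σ.re := by ring
      _ ≤ _ := by gcongr
  · have h1 : Tendsto (fun x : ℝ => ((Real.exp (-x) : ℝ) : ℂ)) atTop (𝓝 0) := by
      have := (continuous_ofReal.tendsto _).comp Real.tendsto_exp_neg_atTop_nhds_zero
      rwa [ofReal_zero] at this
    have h2 : Tendsto (fun x : ℝ => ((x ^ 1 * Real.exp (-x) : ℝ) : ℂ)) atTop (𝓝 0) := by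
      have := (continuous_ofReal.tendsto _).comp (Real.tendsto_pow_mul_exp_neg_atTop_nhds_zero 1)
      rwa [ofReal_zero] at this
    have h3 := (h1.const_mul (cc * y * exp y)).sub (h2.const_mul (cc * exp y))
    rw [mul_zero, mul_zero, sub_zero] at h3
    refine h3.congr fun x => ?_
    rw [sub_eq_add_neg y, exp_add, ofReal_mul, ofReal_exp, pow_one, ofReal_neg]
    ring

/-- reduction of the radius -/
theorem shrink (hq : 0 < q) (Λ : ℝ) {ε : ℝ} (hε : 0 < ε) : ∃ Λ' ≤ Λ, Real.exp (Λ' / q) ≤ ε := by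
  have hq' : (0 : ℝ) < q := by exact_mod_cast hq
  refine ⟨min Λ (q * Real.log ε), min_le_left _ _, ?_⟩
  rw [← Real.le_log_iff_exp_le hε, div_le_iff₀ hq']
  calc min Λ (q * Real.log ε) ≤ q * Real.log ε := min_le_right _ _
    _ = Real.log ε * q := mul_comm _ _

theorem exp_turn (hq : 0 < q) (σ : ℂ) :
    exp ((σ + 2 * Real.pi * I) / q) = zet q * exp (σ / q) := by
  unfold zet
  rw [← exp_add]
  congr 1
  ring

theorem emem (hq : 0 < q) {σ : ℂ} (hσ : σ.re < Λ) :
    exp (σ / q) ∈ ball (0 : ℂ) (Real.exp (Λ / q)) := by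
  have hq' : (0 : ℝ) < q := by exact_mod_cast hq
  rw [mem_ball_zero_iff, norm_exp]
  refine Real.exp_lt_exp.2 ?_
  rw [← ofReal_natCast, div_ofReal_re, div_lt_div_iff_of_pos_right hq']
  exact hσ

/-- a common zero is impossible -/
theorem no_zero {κ : ℂ} (hκ : κ ≠ 0) (h1 : Hk 1 κ = 0) {n : ℕ} (hn : 0 < n) (hnq : n < q) :
    Hk (n / q) κ ≠ 0 := by
  intro h2
  have hq' : (0 : ℝ) < q := by
    have : 0 < q := by omega
    exact_mod_cast this
  have hn' : (0 : ℝ) < n := by exact_mod_cast hn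
  have hν0 : (0 : ℝ) < (n : ℝ) / q := div_pos hn' hq'
  have hν1 : (n : ℝ) / q < 1 := (div_lt_one hq').2 (by exact_mod_cast hnq)
  have h3 := bessel_one hκ h1
  have h4 := bessel_of_Hk hν0 (fun m hm => by
    rw [hm] at hν0 hν1
    have a1 : (0 : ℤ) < m := by exact_mod_cast hν0
    have a2 : m < 1 := by exact_mod_cast hν1
    omega) h2
  rw [← F01_one] at h3
  rw [← F01_poch] at h4
  exact Pool.Agent.E8helper32.SB.besselNC (κ := κ) h3 hν0 (by linarith) hν1.ne h4

/-- **No logarithm.** -/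
theorem no_cc (ha : 0 < a) (hq : 0 < q) (hJB : JB a Λ T)
    (hTd : DifferentiableOn ℂ T (re ⁻¹' Iio Λ))
    (hE : DifferentiableOn ℂ E (ball 0 (Real.exp (Λ / q)))) (hE0 : E 0 ≠ 0)
    (hT : ∀ σ : ℂ, σ.re < Λ → T σ = E (exp (σ / q)) * exp (-σ) + cc * σ) : cc = 0 := by
  by_contra hcc
  have hq' : (0 : ℝ) < q := by exact_mod_cast hq
  have hqc : (q : ℂ) ≠ 0 := by exact_mod_cast hq.ne'
  have ha0 : (a : ℂ) ≠ 0 := ofReal_ne_zero.2 ha.ne'
  have h2pi : (2 * Real.pi * I : ℂ) ≠ 0 := two_pi_I_ne_zero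
  have h0b : (0 : ℂ) ∈ ball (0 : ℂ) (Real.exp (Λ / q)) := mem_ball_self (Real.exp_pos _)
  have hfd : DifferentiableOn ℂ (fun t => E t - E (zet q * t) - 2 * Real.pi * I * cc * t ^ q)
      (ball 0 (Real.exp (Λ / q))) :=
    (hE.sub (hE.comp (fun t _ => (differentiableAt_id.const_mul _).differentiableWithinAt)
      fun t ht => zmul_mem' ht)).sub
      ((differentiable_id.pow q).const_mul _).differentiableOn
  have hfa := hfd.analyticAt (isOpen_ball.mem_nhds h0b)
  have hcc2 : 2 * Real.pi * I * cc ≠ 0 := mul_ne_zero h2pi hcc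
  -- `q` does not divide `q`
  have hnq : ∀ (Dh : ℂ → ℂ), ContinuousAt Dh 0 → Dh 0 ≠ 0 →
      ¬ ∀ᶠ t in 𝓝 (0 : ℂ), E t - E (zet q * t) = t ^ q * Dh t := by
    intro Dh hDc hD0 hev
    obtain ⟨δ, hδ, hb⟩ := Metric.eventually_nhds_iff_ball.1 hev
    rcases Nat.lt_or_ge q 2 with h1 | h1
    · have hq1 : q = 1 := by omega
      subst hq1
      have hz : zet 1 = 1 := by
        unfold zet
        rw [Nat.cast_one, div_one, exp_two_pi_mul_I]
      have h2 : ∀ᶠ t in 𝓝[≠] (0 : ℂ), Dh t = 0 := by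
        rw [eventually_nhdsWithin_iff]
        filter_upwards [hev] with t ht ht0
        rw [hz, one_mul, sub_self, pow_one] at ht
        exact (mul_eq_zero.1 ht.symm).resolve_left ht0
      exact hD0 (tendsto_nhds_unique ((hDc.tendsto.mono_left nhdsWithin_le_nhds).congr' h2)
        tendsto_const_nhds)
    · exact not_dvd (E := E) h1 hδ hDc hD0 hb (dvd_refl q)
  have hnz : ¬ ∀ᶠ t in 𝓝 (0 : ℂ), E t - E (zet q * t) - 2 * Real.pi * I * cc * t ^ q = 0 := by
    intro h
    refine hnq (fun _ => 2 * Real.pi * I * cc) continuousAt_const hcc2 ?_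
    filter_upwards [h] with t ht
    linear_combination ht
  obtain ⟨n, D, hDa, hD0, hev⟩ := hfa.exists_eventuallyEq_pow_smul_nonzero_iff.2 hnz
  have hev' : ∀ᶠ t in 𝓝 (0 : ℂ), E t - E (zet q * t) - 2 * Real.pi * I * cc * t ^ q =
      t ^ n * D t := by
    filter_upwards [hev] with t ht
    rw [ht, sub_zero, smul_eq_mul]
  have hn0 : 0 < n := by
    rcases Nat.eq_zero_or_pos n with h | h
    · exfalso
      have h1 := hev'.self_of_nhds
      rw [mul_zero, sub_self, zero_pow hq.ne', mul_zero, sub_zero, h, pow_zero, one_mul] at h1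
      exact hD0 h1.symm
    · exact h
  rcases lt_or_ge n q with hlt | hge
  · -- a common zero of Bessel functions
    obtain ⟨ε, hε, hb⟩ := Metric.eventually_nhds_iff_ball.1 (hev'.and hDa.eventually_analyticAt)
    obtain ⟨Λ', hΛ, hΛε⟩ := shrink hq Λ hε
    have hb1 : ball (0 : ℂ) (Real.exp (Λ' / q)) ⊆ ball 0 (Real.exp (Λ / q)) :=
      ball_subset_ball (Real.exp_le_exp.2 (by gcongr))
    have hb2 : ball (0 : ℂ) (Real.exp (Λ' / q)) ⊆ ball 0 ε := ball_subset_ball hΛε
    obtain ⟨B1, hW1⟩ := wd_exp hq (hE.mono hb1)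
    have hW := hW1.add (wd_log (Λ := Λ') cc)
    rw [add_zero] at hW
    obtain ⟨B2, hD1⟩ := wd_exp (E := D) hq (Λ := Λ')
      (fun t ht => (hb t (hb2 ht)).2.differentiableAt.differentiableWithinAt)
    have hJB' : JB a Λ' T := fun σ1 h => hJB σ1 (h.trans_le hΛ)
    have hTd' : DifferentiableOn ℂ T (re ⁻¹' Iio Λ') :=
      hTd.mono fun s hs => lt_of_lt_of_le hs hΛ
    have hTW : ∀ σ : ℂ, σ.re < Λ' →
        T σ = (E (exp (σ / q)) + cc * σ * exp σ) * exp (-σ) := by
      intro σ hσ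
      have e : exp σ * exp (-σ) = 1 := by rw [← exp_add, add_neg_cancel, exp_zero]
      rw [hT σ (hσ.trans_le hΛ)]
      linear_combination (-(cc * σ)) * e
    have l1 := levW_one ha hJB' hTd' hW hTW
    have l2 := levW_two (ν := (n : ℝ) / q) ha hJB' hTd' hW hTW hD1 hD0 (fun σ hσ => by
      have h1 := (hb _ (hb2 (emem hq hσ))).1
      have e1 : exp (((n / q : ℝ) : ℂ) * σ) = exp (σ / q) ^ n := by
        rw [← exp_nat_mul]
        congr 1
        push_cast
        ring
      have e2 : exp (σ / q) ^ q = exp σ := by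
        rw [← exp_nat_mul, mul_div_cancel₀ _ hqc]
      rw [exp_turn hq, exp_periodic σ, e1, ← h1, e2]
      ring)
    exact no_zero (mul_ne_zero ha0 hE0) l1 hn0 hlt l2
  · -- no terms of order less than `q`
    have hval : ∀ᶠ t in 𝓝 (0 : ℂ), E t - E (zet q * t) =
        t ^ q * (2 * Real.pi * I * cc + t ^ (n - q) * D t) := by
      filter_upwards [hev'] with t ht
      have e : t ^ n = t ^ q * t ^ (n - q) := by rw [← pow_add, Nat.add_sub_cancel' hge]
      rw [e] at ht
      linear_combination ht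
    have hDh : ContinuousAt (fun t => 2 * Real.pi * I * cc + t ^ (n - q) * D t) 0 :=
      continuousAt_const.add ((continuousAt_id.pow _).mul hDa.continuousAt)
    have hDh0 : (2 * Real.pi * I * cc + (0 : ℂ) ^ (n - q) * D 0) = 0 := by
      by_contra h
      exact hnq _ hDh h hval
    -- the expansion of `E`
    obtain ⟨F, hF, hEF⟩ : ∃ F : ℂ → ℂ, AnalyticAt ℂ F 0 ∧
        ∀ᶠ t in 𝓝 (0 : ℂ), E t = E 0 + t ^ q * F t := by
      have hEa : AnalyticAt ℂ E 0 := hE.analyticAt (isOpen_ball.mem_nhds h0b)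
      by_cases hEz : ∀ᶠ t in 𝓝 (0 : ℂ), E t - E 0 = 0
      · refine ⟨fun _ => 0, analyticAt_const, ?_⟩
        filter_upwards [hEz] with t ht
        rw [mul_zero, add_zero]
        exact sub_eq_zero.1 ht
      · obtain ⟨k, h, hh, hh0, hk⟩ := (hEa.sub
          analyticAt_const).exists_eventuallyEq_pow_smul_nonzero_iff.2 hEz
        have hk' : ∀ᶠ t in 𝓝 (0 : ℂ), E t - E 0 = t ^ k * h t := by
          filter_upwards [hk] with t ht
          have : E t - E 0 = (t - 0) ^ k • h t := ht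
          rw [this, sub_zero, smul_eq_mul]
        have hkq : q ≤ k := by
          by_contra hcon
          push Not at hcon
          have hk0 : 0 < k := by
            rcases Nat.eq_zero_or_pos k with h1 | h1
            · exfalso
              have h2 := hk'.self_of_nhds
              rw [sub_self, h1, pow_zero, one_mul] at h2
              exact hh0 h2.symm
            · exact h1
          have hq2 : 2 ≤ q := by omega
          have hzc : Tendsto (fun t : ℂ => zet q * t) (𝓝 0) (𝓝 0) := by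
            have : Tendsto (fun t : ℂ => zet q * t) (𝓝 0) (𝓝 (zet q * 0)) :=
              (continuous_const.mul continuous_id).tendsto 0
            rwa [mul_zero] at this
          have h1 : ∀ᶠ t in 𝓝[≠] (0 : ℂ), h t - zet q ^ k * h (zet q * t) =
              t ^ (q - k) * (2 * Real.pi * I * cc + t ^ (n - q) * D t) := by
            rw [eventually_nhdsWithin_iff]
            filter_upwards [hk', hzc.eventually hk', hval] with t a1 a2 a3 ht0
            have e : t ^ q = t ^ k * t ^ (q - k) := by rw [← pow_add, Nat.add_sub_cancel' hcon.le]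
            rw [e] at a3
            have h2 : t ^ k ≠ 0 := pow_ne_zero _ ht0
            refine mul_left_cancel₀ h2 ?_
            rw [mul_pow] at a2
            linear_combination a3 - a1 + a2
          have l1 : Tendsto (fun t => h t - zet q ^ k * h (zet q * t)) (𝓝[≠] (0 : ℂ))
              (𝓝 (h 0 - zet q ^ k * h 0)) :=
            (hh.continuousAt.tendsto.sub
              ((hh.continuousAt.tendsto.comp hzc).const_mul _)).mono_left nhdsWithin_le_nhds
          have l2 : Tendsto (fun t => t ^ (q - k) * (2 * Real.pi * I * cc + t ^ (n - q) * D t))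
              (𝓝[≠] (0 : ℂ)) (𝓝 ((0 : ℂ) ^ (q - k) *
                (2 * Real.pi * I * cc + (0 : ℂ) ^ (n - q) * D 0))) :=
            (((continuousAt_id.pow _).mul hDh).tendsto).mono_left nhdsWithin_le_nhds
          rw [hDh0, mul_zero] at l2
          have h2 := tendsto_nhds_unique (l1.congr' h1) l2
          have h3 : (1 - zet q ^ k) * h 0 = 0 := by linear_combination h2
          rcases mul_eq_zero.1 h3 with h4 | h4
          · exact (isPrimitiveRoot_exp q hq.ne').pow_ne_one_of_pos_of_lt hk0.ne' hcon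
              (by
                have := sub_eq_zero.1 h4
                unfold zet at this
                exact this.symm)
          · exact hh0 h4
        refine ⟨fun t => t ^ (k - q) * h t, (analyticAt_id.pow _).mul hh, ?_⟩
        filter_upwards [hk'] with t ht
        have e : t ^ k = t ^ q * t ^ (k - q) := by rw [← pow_add, Nat.add_sub_cancel' hkq]
        rw [e] at ht
        linear_combination ht
    obtain ⟨ε, hε, hb⟩ := Metric.eventually_nhds_iff_ball.1 (hEF.and hF.eventually_analyticAt)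
    obtain ⟨Λ', hΛ, hΛε⟩ := shrink hq Λ hε
    have hb2 : ball (0 : ℂ) (Real.exp (Λ' / q)) ⊆ ball 0 ε := ball_subset_ball hΛε
    refine hcc (Pool.Agent.E8helper32.SL.no_log (F := F) (e0 := E 0) (Λ := Λ') ha hq
      (fun σ1 h => hJB σ1 (h.trans_le hΛ)) (hTd.mono fun s hs => lt_of_lt_of_le hs hΛ)
      (fun t ht => (hb t (hb2 ht)).2.differentiableAt.differentiableWithinAt) hE0
      fun σ hσ => ?_)
    have h1 := (hb _ (hb2 (emem hq hσ))).1
    have e2 : exp (σ / q) ^ q = exp σ := by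
      rw [← exp_nat_mul, mul_div_cancel₀ _ hqc]
    rw [e2] at h1
    have e : exp σ * exp (-σ) = 1 := by rw [← exp_add, add_neg_cancel, exp_zero]
    rw [hT σ (hσ.trans_le hΛ), h1]
    linear_combination (F (exp (σ / q))) * e

/-- **Equal orders.** -/
theorem partD' (ha : 0 < a) (hq : 2 ≤ q) (hJB : JB a Λ T)
    (hTd : DifferentiableOn ℂ T (re ⁻¹' Iio Λ))
    (hE : DifferentiableOn ℂ E (ball 0 (Real.exp (Λ / q)))) (hE0 : E 0 ≠ 0)
    (hT : ∀ σ : ℂ, σ.re < Λ → T σ = E (exp (σ / q)) * exp (-σ))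
    (hnz : ¬ ∀ᶠ t in 𝓝 (0 : ℂ), E t - E (zet q * t) = 0) :
    Bn 1 (a * E 0) = 0 ∧ ∃ (n : ℕ) (D : ℂ → ℂ), ¬ q ∣ n ∧ AnalyticAt ℂ D 0 ∧ D 0 ≠ 0 ∧
      (∀ᶠ t in 𝓝 (0 : ℂ), E t - E (zet q * t) = t ^ n * D t) ∧
      ∑' k : ℕ, (-(a * E 0)) ^ k / ((k.factorial : ℂ) * poch (n / q) k) = 0 := by
  have hq0 : 0 < q := by omega
  have hq' : (0 : ℝ) < q := Nat.cast_pos.2 hq0
  have ha0 : (a : ℂ) ≠ 0 := ofReal_ne_zero.2 ha.ne'
  refine ⟨bessel_one (mul_ne_zero ha0 hE0) (level_one ha hq0 hJB hTd hE hT), ?_⟩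
  have h0b : (0 : ℂ) ∈ ball (0 : ℂ) (Real.exp (Λ / q)) := mem_ball_self (Real.exp_pos _)
  have hfd : DifferentiableOn ℂ (fun t => E t - E (zet q * t)) (ball 0 (Real.exp (Λ / q))) :=
    hE.sub (hE.comp (fun t _ => (differentiableAt_id.const_mul _).differentiableWithinAt)
      fun t ht => zmul_mem' ht)
  have hfa : AnalyticAt ℂ (fun t => E t - E (zet q * t)) 0 :=
    hfd.analyticAt (isOpen_ball.mem_nhds h0b)
  obtain ⟨n, D, hDa, hD0, hev⟩ := hfa.exists_eventuallyEq_pow_smul_nonzero_iff.2 hnz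
  have hev' : ∀ᶠ t in 𝓝 (0 : ℂ), E t - E (zet q * t) = t ^ n * D t := by
    filter_upwards [hev] with t ht
    rw [ht, sub_zero, smul_eq_mul]
  obtain ⟨ε, hε, hb⟩ := Metric.eventually_nhds_iff_ball.1 (hev'.and hDa.eventually_analyticAt)
  obtain ⟨Λ', hΛ'1, hΛ'2⟩ := shrink hq0 Λ hε
  have hb1 : ball (0 : ℂ) (Real.exp (Λ' / q)) ⊆ ball 0 (Real.exp (Λ / q)) :=
    ball_subset_ball (Real.exp_le_exp.2 (by gcongr))
  have hb2 : ball (0 : ℂ) (Real.exp (Λ' / q)) ⊆ ball 0 ε := ball_subset_ball hΛ'2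
  have hnd := not_dvd (E := E) hq hε hDa.continuousAt hD0 fun t ht => (hb t ht).1
  refine ⟨n, D, hnd, hDa, hD0, hev', ?_⟩
  have h2 := level_two (Λ := Λ') ha hq0 (fun σ1 h => hJB σ1 (h.trans_le hΛ'1))
    (hTd.mono fun s hs => lt_of_lt_of_le hs hΛ'1) (hE.mono hb1)
    (fun σ hσ => hT σ (hσ.trans_le hΛ'1)) (D := D) (n := n)
    (fun t ht => (hb t (hb2 ht)).2.differentiableAt.differentiableWithinAt) hD0
    (fun t ht => (hb t (hb2 ht)).1)
  have hn0 : 0 < n := by
    rcases Nat.eq_zero_or_pos n with h | h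
    · exact absurd (h ▸ dvd_zero q) hnd
    · exact h
  refine bessel_of_Hk (div_pos (Nat.cast_pos.2 hn0) hq') (fun m hm => hnd ?_) h2
  have h3 : (n : ℝ) = m * q := by rw [← hm]; field_simp
  have h4 : (n : ℤ) = m * q := by exact_mod_cast h3
  exact Int.natCast_dvd_natCast.1 ⟨m, by rw [h4, mul_comm]⟩

end Pool.Agent.Helper6.SF
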