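import Pool.Agent.Helper6.SF.Glob
import Pool.Agent.Helper6.SF.Der

/-!
# The theorems for the function, its derivatives and the Schwarzian derivative
-/

set_option autoImplicit false

open Complex MeasureTheory Metric Set Filter Topology ComplexConjugate

namespace Pool.Agent.Helper6.SF

open Pool.Agent.Results.MP_83fd13_an.BranchSingularities
open Pool.Agent.Y245.UC (Rf VG)
open Pool.Agent.E8helper32.SL
open Pool.Agent.E8helper32.SQ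

variable {φ : ℂ → ℂ} {r : ℝ} {U : Set ℂ} {d : ℕ} {c : ℕ → ℂ → ℂ}

/-- a connected open set minus a countable closed set -/
theorem pre_inter (hCONN : S_CONN) {S : Set ℂ} (hSo : IsOpen S) (hSc : IsPreconnected S)
    (hA : (S \ U).Countable) : IsPreconnected (S ∩ U) := by
  intro u v hu hv huv ⟨x, ⟨hxS, hxU⟩, hxu⟩ ⟨y, ⟨hyS, hyU⟩, hyv⟩
  by_contra hcon
  have hdis : ∀ w, w ∈ S → w ∈ U → w ∈ u → w ∉ v := fun w h1 h2 h3 h4 =>
    hcon ⟨w, ⟨h1, h2⟩, h3, h4⟩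
  have h1 := clopen hSc (P := fun x => ∀ᶠ w in 𝓝 x, w ∈ U → w ∈ u) (by
    intro x hx
    obtain ⟨t, ht, hts⟩ := Metric.isOpen_iff.1 hSo x hx
    refine ⟨t, ht, hts, fun y hy hPy z hz => ?_⟩
    have hAb : (ball x t \ U).Countable := hA.mono (sdiff_subset_sdiff_left hts)
    have hWc : IsPreconnected (ball x t ∩ U) := by
      have h1 := hCONN x t _ hAb
      rwa [Set.sdiff_sdiff_right_self] at h1
    obtain ⟨ε, hε, hεs⟩ := Metric.eventually_nhds_iff_ball.1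
      (hPy.and (isOpen_ball.mem_nhds hy))
    obtain ⟨y1, hy1, hy1n⟩ : ∃ y1 ∈ ball y ε, y1 ∉ ball x t \ U := by
      obtain ⟨z2, h2, h3⟩ := (hAb.dense_compl ℝ).inter_open_nonempty (ball y ε) isOpen_ball
        ⟨y, mem_ball_self hε⟩
      exact ⟨z2, h2, h3⟩
    have hy1x : y1 ∈ ball x t := (hεs y1 hy1).2
    have hy1U : y1 ∈ U := by
      by_contra h1
      exact hy1n ⟨hy1x, h1⟩
    have hall : ∀ w ∈ ball x t, w ∈ U → w ∈ u := by
      intro w hw hwU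
      by_contra hwu
      have hwv : w ∈ v := (huv ⟨hts hw, hwU⟩).resolve_left hwu
      obtain ⟨w', ⟨h2, h3⟩, h4, h5⟩ := hWc u v hu hv (fun a ha => huv ⟨hts ha.1, ha.2⟩)
        ⟨y1, ⟨hy1x, hy1U⟩, (hεs y1 hy1).1 hy1U⟩ ⟨w, ⟨hw, hwU⟩, hwv⟩
      exact hdis w' (hts h2) h3 h4 h5
    filter_upwards [isOpen_ball.mem_nhds hz] with a ha
    exact hall a ha) hxS (by
    filter_upwards [hu.mem_nhds hxu] with w hw _
    exact hw) y hyS
  exact hdis y hyS hyU (h1.self_of_nhds hyU) hyv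

/-- from a relation for one of the four functions to a relation for the Schwarzian derivative -/
theorem to_R (hCONN : S_CONN) (hCNT : S_CNT) {B : Set ℂ} (hBo : IsOpen B)
    (hBc : IsPreconnected B) (hU : IsOpen U) (hA : (B \ U).Countable)
    (hc : ∀ k ≤ d, DifferentiableOn ℂ (c k) (B ∩ U)) (hcd : ∃ w ∈ B ∩ U, c d w ≠ 0) (i : Fin 4)
    {z : ℂ} (hz : z ∈ B) {g : ℂ → ℂ} (hgd : ∀ᶠ w in 𝓝 z, DifferentiableAt ℂ g w)
    (hgn : ∃ᶠ w in 𝓝 z, deriv g w ≠ 0)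
    (hrel : ∀ᶠ w in 𝓝 z, w ∈ U → deriv g w ≠ 0 → Ev d c w (![g w, deriv g w,
      deriv (deriv g) w / deriv g w, deriv (deriv (deriv g)) w / deriv g w -
        3 / 2 * (deriv (deriv g) w / deriv g w) ^ 2] i) = 0) :
    ∃ (d' : ℕ) (c' : ℕ → ℂ → ℂ), d' ≤ d ∧ (∀ k, DifferentiableOn ℂ (c' k) (B ∩ U)) ∧
      (∃ w ∈ B ∩ U, c' d' w ≠ 0) ∧ Rl U d' c' z g := by
  obtain ⟨ε, hε, hεs⟩ := Metric.eventually_nhds_iff_ball.1
    ((hgd.and hrel).and (hBo.mem_nhds hz))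
  have hgd' : DifferentiableOn ℂ g (ball z ε) := fun w hw =>
    (hεs w hw).1.1.differentiableWithinAt
  have hdg : DifferentiableOn ℂ (deriv g) (ball z ε) := hgd'.deriv isOpen_ball
  have hεb : ball z ε ⊆ B := fun w hw => (hεs w hw).2
  obtain ⟨z1, hz1n, hz1⟩ := (hgn.and_eventually
    (isOpen_ball.mem_nhds (mem_ball_self hε))).exists
  have hZ := hCNT z ε (deriv g) hdg ⟨z1, hz1, hz1n⟩
  obtain ⟨z2, hz2, hz2n⟩ : ∃ z2 ∈ ball z ε,
      z2 ∉ (B \ U) ∪ {w | w ∈ ball z ε ∧ deriv g w = 0} := by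
    obtain ⟨z2, h2, h3⟩ := ((hA.union hZ).dense_compl ℝ).inter_open_nonempty (ball z ε)
      isOpen_ball ⟨z, mem_ball_self hε⟩
    exact ⟨z2, h2, h3⟩
  rw [mem_union, not_or] at hz2n
  have hz2U : z2 ∈ U := by
    by_contra h3
    exact hz2n.1 ⟨hεb hz2, h3⟩
  have hz2d : deriv g z2 ≠ 0 := fun h3 => hz2n.2 ⟨hz2, h3⟩
  have hne2 : ∀ᶠ v in 𝓝 z2, deriv g v ≠ 0 :=
    (hdg.differentiableAt (isOpen_ball.mem_nhds hz2)).continuousAt.eventually_ne hz2d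
  obtain ⟨δ, hδ, hδs⟩ := Metric.eventually_nhds_iff_ball.1
    ((hne2.and (isOpen_ball.mem_nhds hz2)).and (hU.mem_nhds hz2U))
  have hVW : ball z2 δ ⊆ B ∩ U := fun w hw => ⟨hεb (hδs w hw).1.2, (hδs w hw).2⟩
  have hWc : IsPreconnected (B ∩ U) := pre_inter hCONN hBo hBc hA
  have hWo : IsOpen (B ∩ U) := hBo.inter hU
  obtain ⟨d', c', hdd, hc', hcd', hrel'⟩ := alg_close hWo hWc isOpen_ball
    (convex_ball z2 δ).isPreconnected hVW ⟨z2, mem_ball_self hδ⟩ hc hcd (i := i)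
    (f := g) (hgd'.mono fun w hw => (hδs w hw).1.2) (fun w hw => (hδs w hw).1.1)
    (fun w hw => (hεs w (hδs w hw).1.2).1.2 (hδs w hw).2 (hδs w hw).1.1)
  refine ⟨d', c', hdd, hc', hcd', hgd, hgn, ?_⟩
  have hAε : (ball z ε \ U).Countable := hA.mono (sdiff_subset_sdiff_left hεb)
  have h1 := prop0 hCONN hCNT hU hAε (d := d') (c := c')
    (fun k _ => (hc' k).mono (inter_subset_inter_left _ hεb)) hgd' hz2 hz2U hz2d (by
      filter_upwards [isOpen_ball.mem_nhds (mem_ball_self hδ)] with w hw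
      exact hrel' w hw)
  filter_upwards [isOpen_ball.mem_nhds (mem_ball_self hε)] with w hw h2 h3
  exact h1 w hw h2 h3

/-- **The local theorem for the four functions.** -/
theorem loc_four (hISO : S_ISO) (hCONN : S_CONN) (hCNT : S_CNT) (hMOB : S_MOB) (hODE : S_ODE)
    (hLIM : S_LIM) (hFAN : S_FAN) (hSTR : S_STRIP) (hELL : S_ELL) (hD : D0 φ r) {lam : ℝ}
    (hlam : 0 < lam) (hBU : BranchesBlowUp φ r lam) (hNF : NoFiniteIsolatedSingularity φ r)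
    (hVG : ∀ (z : ℂ) (f : ℂ → ℂ), Branch φ r z f → ∀ b,
      VG (lam / 4) φ b (1 / conj z) (Rf f)) {c0 : ℂ} {ρ : ℝ}
    (hNC : ¬ BCusp φ r lam d (ball c0 ρ))
    (hB : ∀ w ∈ ball c0 ρ, 1 < ‖w‖) (hU : IsOpen U) (hA : (ball c0 ρ \ U).Countable)
    (hc : ∀ k ≤ d, DifferentiableOn ℂ (c k) (ball c0 ρ ∩ U))
    (hcd : ∃ w ∈ ball c0 ρ ∩ U, c d w ≠ 0) (i : Fin 4)
    {z : ℂ} (hz : z ∈ ball c0 ρ) {g : ℂ → ℂ} (hg : Branch φ r z g)
    (hgd : ∀ᶠ w in 𝓝 z, DifferentiableAt ℂ g w) (hgn : ∃ᶠ w in 𝓝 z, deriv g w ≠ 0)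
    (hrel : ∀ᶠ w in 𝓝 z, w ∈ U → deriv g w ≠ 0 → Ev d c w (![g w, deriv g w,
      deriv (deriv g) w / deriv g w, deriv (deriv (deriv g)) w / deriv g w -
        3 / 2 * (deriv (deriv g) w / deriv g w) ^ 2] i) = 0) :
    ∃ E : ℂ → ℂ, DifferentiableOn ℂ E (ball c0 ρ) ∧ E =ᶠ[𝓝 z] g := by
  obtain ⟨d', c', hdd, hc', hcd', hR⟩ := to_R hCONN hCNT isOpen_ball
    (convex_ball c0 ρ).isPreconnected hU hA hc hcd i hz hgd hgn hrel
  exact loc_A hISO hCONN hCNT hMOB hODE hLIM hFAN hSTR hELL hD hlam hBU hNF hVG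
    (fun h => hNC (h.mono hdd Subset.rfl)) hB hU hA (fun k _ => hc' k) hcd' hz hg hR

/-- **The global theorem for the four functions.** -/
theorem glob_four (hISO : S_ISO) (hCONN : S_CONN) (hCNT : S_CNT) (hMOB : S_MOB) (hODE : S_ODE)
    (hLIM : S_LIM) (hFAN : S_FAN) (hSTR : S_STRIP) (hELL : S_ELL) (hD : D0 φ r) {lam : ℝ}
    (hlam : 0 < lam) (hBU : BranchesBlowUp φ r lam) (hNF : NoFiniteIsolatedSingularity φ r)
    (hVG : ∀ (z : ℂ) (f : ℂ → ℂ), Branch φ r z f → ∀ b,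
      VG (lam / 4) φ b (1 / conj z) (Rf f)) (hNC : ¬ BCusp φ r lam d {w : ℂ | 1 < ‖w‖})
    (hU : IsOpen U) (hA : ({w : ℂ | 1 < ‖w‖} \ U).Countable)
    (hc : ∀ k ≤ d, DifferentiableOn ℂ (c k) ({w : ℂ | 1 < ‖w‖} ∩ U))
    (hcd : ∃ w : ℂ, 1 < ‖w‖ ∧ w ∈ U ∧ c d w ≠ 0) (i : Fin 4)
    (hrel : ∀ w : ℂ, 1 < ‖w‖ → ‖w‖ < r → w ∈ U → Ev d c w (![φ w, deriv φ w,
      deriv (deriv φ) w / deriv φ w, deriv (deriv (deriv φ)) w / deriv φ w -
        3 / 2 * (deriv (deriv φ) w / deriv φ w) ^ 2] i) = 0) :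
    ∃ Φ : ℂ → ℂ, Differentiable ℂ Φ ∧ EqOn Φ φ (ball 0 r) := by
  have hr := hD.hr
  set z0 : ℂ := (((1 + r) / 2 : ℝ) : ℂ) with hz0
  have hn : ‖z0‖ = (1 + r) / 2 := by
    rw [hz0, norm_real, Real.norm_of_nonneg (by linarith)]
  have h1 : 1 < ‖z0‖ := by rw [hn]; linarith
  have h2 : ‖z0‖ < r := by rw [hn]; linarith
  have hex : IsOpen {w : ℂ | 1 < ‖w‖} := isOpen_lt continuous_const continuous_norm
  have hzb : z0 ∈ ball (0 : ℂ) r := mem_ball_zero_iff.2 h2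
  obtain ⟨w0, hw1, hw2, hw3⟩ := hcd
  obtain ⟨d', c', hdd, hc', ⟨w', hw', hw''⟩, hR⟩ := to_R hCONN hCNT hex ext_pre hU hA hc
    ⟨w0, ⟨hw1, hw2⟩, hw3⟩ i (z := z0) h1 (g := φ) (by
      filter_upwards [isOpen_ball.mem_nhds hzb] with w hw
      exact hD.hφ.differentiableAt (isOpen_ball.mem_nhds hw)) (Eventually.frequently (by
      filter_upwards [isOpen_ball.mem_nhds hzb] with w hw
      exact dne hD hw)) (by
      filter_upwards [isOpen_ball.mem_nhds hzb, hex.mem_nhds h1] with w hw hw4 hw5 _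
      exact hrel w hw4 (mem_ball_zero_iff.1 hw) hw5)
  exact glob_A hISO hCONN hCNT hMOB hODE hLIM hFAN hSTR hELL hD hlam hBU hNF hVG
    (fun h => hNC (h.mono hdd Subset.rfl)) hU hA (fun k _ => hc' k) ⟨w', hw'.1, hw'.2, hw''⟩ h1 h2 hR

end Pool.Agent.Helper6.SF
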