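import Pool.Agent.Helper6.SF.Rl

/-!
# Isolated points; the local and the global theorem
-/

set_option autoImplicit false

open Complex MeasureTheory Metric Set Filter Topology ComplexConjugate

namespace Pool.Agent.Helper6.SF

open Pool.Agent.Results.MP_83fd13_an.BranchSingularities
open Pool.Agent.Y245.UC (Rf VG)
open Pool.Agent.E8helper32.SA (per per_re exp_add_per eqOn_convex branch_ball branch_congr)
open Pool.Agent.E8helper32.SL
open Pool.Agent.E8helper32.SP (entire_of_ext)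
open Pool.Agent.E8helper32.SQ

variable {φ : ℂ → ℂ} {r : ℝ} {U : Set ℂ} {d : ℕ} {c : ℕ → ℂ → ℂ}

/-- isolated points -/
theorem iso_ptR (hCONN : S_CONN) (hCNT : S_CNT) (hMOB : S_MOB) (hLIM : S_LIM) (hFAN : S_FAN)
    (hSTR : S_STRIP) (hELL : S_ELL) (hD : D0 φ r) {lam : ℝ} (hlam : 0 < lam)
    (hBU : BranchesBlowUp φ r lam) (hNF : NoFiniteIsolatedSingularity φ r)
    (hVG : ∀ (z : ℂ) (f : ℂ → ℂ), Branch φ r z f → ∀ b,
      VG (lam / 4) φ b (1 / conj z) (Rf f)) {B : Set ℂ} (hNC : ¬ BCusp φ r lam d B) (hBo : IsOpen B)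
    (hB : ∀ w ∈ B, 1 < ‖w‖) (hU : IsOpen U) (hA : (B \ U).Countable)
    (hc : ∀ k ≤ d, DifferentiableOn ℂ (c k) (B ∩ U)) (hcd : ∀ w ∈ B ∩ U, c d w ≠ 0)
    {x : ℂ} (hx : x ∈ B) {ε0 : ℝ} (hε0 : 0 < ε0)
    (hgood : ∀ w ∈ ball x ε0, w ≠ x → w ∈ B → GoodR φ r B U d c w) : GoodR φ r B U d c x := by
  classical
  have hprop : ∀ (y : ℂ) (ρ : ℝ), ball y ρ ⊆ B → ∀ E g : ℂ → ℂ, DifferentiableOn ℂ E (ball y ρ) →
      ∀ z ∈ ball y ρ, E =ᶠ[𝓝 z] g → Rl U d c z g → ∀ z' ∈ ball y ρ, Rl U d c z' E := by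
    intro y ρ hs E g hE z hz hEg hS z' hz'
    exact hS.prop hCONN hCNT hU (hA.mono (sdiff_subset_sdiff_left hs))
      (fun k hk => (hc k hk).mono (inter_subset_inter_left _ hs)) hE hz hEg hz'
  obtain ⟨δ2, hδ2, hs2⟩ := Metric.isOpen_iff.1 hBo x hx
  set δ : ℝ := min ε0 δ2 with hδdef
  have hδ : 0 < δ := lt_min hε0 hδ2
  have hδB : ball x δ ⊆ B := (ball_subset_ball (min_le_right _ _)).trans hs2
  have hx1 : 1 < ‖x‖ := hB x hx
  refine ⟨δ, hδ, hδB, fun z hz g hg hS => ?_⟩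
  obtain ⟨ε, hε, hεs⟩ := Metric.eventually_nhds_iff_ball.1
    (hS.hd.and (isOpen_ball.mem_nhds hz))
  have hgd : DifferentiableOn ℂ g (ball z ε) := fun w hw => (hεs w hw).1.differentiableWithinAt
  have hεδ : ball z ε ⊆ ball x δ := fun w hw => (hεs w hw).2
  -- the point `z1`
  obtain ⟨z1, hz1, hz1x⟩ : ∃ z1 ∈ ball z ε, z1 ≠ x := by
    by_cases hzx : z = x
    · refine ⟨z + ((ε / 2 : ℝ) : ℂ), ?_, ?_⟩
      · rw [mem_ball, dist_eq_norm, add_sub_cancel_left, norm_real,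
          Real.norm_of_nonneg (by positivity)]
        linarith
      · rw [hzx, ne_eq, add_eq_left, ofReal_eq_zero]
        positivity
    · exact ⟨z, mem_ball_self hε, hzx⟩
  have hz1δ := hεδ hz1
  have hbr1 : Branch φ r z1 g := branch_ball hg (fun w hw => hB w (hδB (hεδ hw))) hgd
    (mem_ball_self hε) hz1
  have hS1 : Rl U d c z1 g := hprop z ε (hεδ.trans hδB) g g hgd z (mem_ball_self hε)
    (EventuallyEq.refl _ _) hS z1 hz1
  have hfin : ∀ E : ℂ → ℂ, DifferentiableOn ℂ E (ball x δ) → E =ᶠ[𝓝 z1] g → E =ᶠ[𝓝 z] g := by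
    intro E hE hEg
    have h4 := eqOn_convex (convex_ball z ε) isOpen_ball (hE.mono hεδ) hgd hz1 hEg
    filter_upwards [isOpen_ball.mem_nhds (mem_ball_self (x := z) hε)] with w hw
    exact h4 hw
  -- the coordinate
  set L : ℝ := Real.log δ with hLdef
  have hexpL : Real.exp L = δ := Real.exp_log hδ
  have hzw : z1 - x ≠ 0 := sub_ne_zero.2 hz1x
  set τ0 : ℂ := log (z1 - x) with hτ0def
  have hexp0 : exp τ0 = z1 - x := exp_log hzw
  have hz0 : x + exp τ0 = z1 := by rw [hexp0, add_sub_cancel]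
  have hτ0 : τ0 ∈ HP L := by
    show τ0.re < L
    rw [hτ0def, log_re, hLdef]
    refine Real.log_lt_log (norm_pos_iff.2 hzw) ?_
    rwa [mem_ball, dist_eq_norm] at hz1δ
  have hmem : ∀ τ ∈ HP L, x + exp τ ∈ ball x δ ∧ x + exp τ ≠ x := by
    intro τ hτ
    constructor
    · rw [mem_ball, dist_eq_norm, add_sub_cancel_left, norm_exp, ← hexpL]
      exact Real.exp_lt_exp.2 hτ
    · intro h
      exact exp_ne_zero τ (by simp at h)
  have hexpd : ∀ t : ℂ, DifferentiableAt ℂ (fun t => x + exp t) t := fun t =>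
    (differentiableAt_const _).add differentiableAt_exp
  set P : ℂ → (ℂ → ℂ) → Prop := fun τ F => ∃ g' : ℂ → ℂ, Branch φ r (x + exp τ) g' ∧
    Rl U d c (x + exp τ) g' ∧ F =ᶠ[𝓝 τ] fun t => g' (x + exp t) with hP
  obtain ⟨G, hGd, hGg, hGP⟩ := cont (HP_conv L) (HP_open L) hτ0 P (by
    rintro τ F F' ⟨g', h1, h2, h3⟩ hFF'
    exact ⟨g', h1, h2, hFF'.symm.trans h3⟩) (by
    intro y hy
    obtain ⟨hy1, hy2⟩ := hmem y hy
    obtain ⟨δ', hδ', hsub, hext⟩ := hgood (x + exp y) (ball_subset_ball (min_le_left _ _) hy1)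
      hy2 (hδB hy1)
    obtain ⟨s, hs, hss⟩ := Metric.eventually_nhds_iff_ball.1
      ((hexpd y).continuousAt.eventually (isOpen_ball.mem_nhds (mem_ball_self hδ')))
    refine ⟨s, hs, ?_⟩
    rintro t ht - F ⟨g', h1, h2, h3⟩
    obtain ⟨E0, hE0, hE0g⟩ := hext _ (hss t ht) g' h1 h2
    refine ⟨fun u => E0 (x + exp u), fun u hu => ?_, ?_, fun u hu _ => ?_⟩
    · have h4 : DifferentiableAt ℂ E0 (x + exp u) :=
        hE0.differentiableAt (isOpen_ball.mem_nhds (hss u hu))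
      exact (DifferentiableAt.comp (g := E0) (f := fun t => x + exp t) u h4
        (hexpd u)).differentiableWithinAt
    · have h4 : (fun u => E0 (x + exp u)) =ᶠ[𝓝 t] fun u => g' (x + exp u) :=
        (hexpd t).continuousAt.tendsto.eventually hE0g
      exact h4.trans h3.symm
    · refine ⟨E0, ?_, ?_, EventuallyEq.refl _ _⟩
      · exact branch_ball (branch_congr hD.hφ h1 hE0g.symm) (fun w hw => hB w (hsub hw)) hE0
          (hss t ht) (hss u hu)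
      · exact hprop _ _ hsub E0 g' hE0 _ (hss t ht) hE0g h2 _ (hss u hu))
    (f := fun t => g (x + exp t)) ⟨g, by rw [hz0]; exact hbr1, by rw [hz0]; exact hS1,
      EventuallyEq.refl _ _⟩
  have hP0 : P0 φ r x L G := by
    refine ⟨hD, hx1, hGd, fun τ hτ => ?_⟩
    obtain ⟨g', h1, -, h3⟩ := hGP τ hτ
    exact ⟨g', h1, h3⟩
  -- the values after `j` turns
  have hex : ∀ j : ℕ, ∃ gj : ℂ → ℂ, Rl U d c z1 gj ∧
      ∀ᶠ t in 𝓝 τ0, G (t + per j) = gj (x + exp t) := by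
    intro j
    obtain ⟨g2, -, hS2, hGg2⟩ := hGP (τ0 + per j) (HP_per hτ0 j)
    rw [exp_add_per, hz0] at hS2
    refine ⟨g2, hS2, ?_⟩
    have h1 : Tendsto (fun t : ℂ => t + per j) (𝓝 τ0) (𝓝 (τ0 + per j)) :=
      (continuous_id.add continuous_const).tendsto τ0
    filter_upwards [h1.eventually hGg2] with t ht
    rw [ht, exp_add_per]
  choose gs hgsR hgsG using hex
  have hlm : Tendsto (lm x τ0) (𝓝 z1) (𝓝 τ0) := by
    have h1 : DifferentiableAt ℂ (lm x τ0) (x + exp τ0) := lm_diff (κ := 1) le_rfl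
      (mem_ball_self (by rw [one_mul]; exact norm_pos_iff.2 (exp_ne_zero _)))
    have h2 := h1.continuousAt.tendsto
    rwa [lm_self, hz0] at h2
  have hlme : ∀ᶠ w in 𝓝 z1, x + exp (lm x τ0 w) = w := by
    have h1 : ball (x + exp τ0) (1 * ‖exp τ0‖) ∈ 𝓝 z1 := by
      rw [hz0, one_mul]
      exact isOpen_ball.mem_nhds (mem_ball_self (norm_pos_iff.2 (exp_ne_zero _)))
    filter_upwards [h1] with w hw
    rw [lm_exp le_rfl hw, add_sub_cancel]
  have hall1 : ∀ᶠ w in 𝓝 z1, ∀ j ∈ Finset.range (d + 1), (w ≠ z1 → deriv (gs j) w ≠ 0) ∧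
      DifferentiableAt ℂ (gs j) w ∧ (w ∈ U → deriv (gs j) w ≠ 0 → Ev d c w (Sw (gs j) w) = 0) ∧
      ∀ᶠ t in 𝓝 (lm x τ0 w), G (t + per j) = gs j (x + exp t) := by
    rw [Filter.eventually_all_finset]
    intro j _
    have hd1 : ∀ᶠ w in 𝓝[≠] z1, deriv (gs j) w ≠ 0 := by
      rcases (hgsR j).an.deriv.eventually_eq_zero_or_eventually_ne_zero with h1 | h1
      · exact absurd h1 (fun h2 => (hgsR j).hn (h2.mono fun w hw => not_not.2 hw))
      · exact h1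
    rw [eventually_nhdsWithin_iff] at hd1
    filter_upwards [hd1, (hgsR j).hd, (hgsR j).hs,
      hlm.eventually (eventually_eventually_nhds.2 (hgsG j))] with w h1 h3 h5 h9
    exact ⟨h1, h3, h5, h9⟩
  have hall : ∀ᶠ w in 𝓝 z1, (∀ j ∈ Finset.range (d + 1), (w ≠ z1 → deriv (gs j) w ≠ 0) ∧
      DifferentiableAt ℂ (gs j) w ∧ (w ∈ U → deriv (gs j) w ≠ 0 → Ev d c w (Sw (gs j) w) = 0) ∧
      ∀ᶠ t in 𝓝 (lm x τ0 w), G (t + per j) = gs j (x + exp t)) ∧
      w ∈ B ∧ x + exp (lm x τ0 w) = w ∧ lm x τ0 w ∈ HP L := by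
    filter_upwards [hall1, hBo.mem_nhds (hδB hz1δ), hlme,
      hlm.eventually ((HP_open L).mem_nhds hτ0)] with w h1 h2 h3 h4
    exact ⟨h1, h2, h3, h4⟩
  obtain ⟨η, hη, hηs⟩ := Metric.eventually_nhds_iff_ball.1 hall
  obtain ⟨z2, hz2b, hz2⟩ : ∃ z2 ∈ ball z1 η, z2 ∉ (B \ U) ∪ {z1} := by
    obtain ⟨z2, h2, h3⟩ := ((hA.union (countable_singleton z1)).dense_compl ℝ).inter_open_nonempty
      (ball z1 η) isOpen_ball ⟨z1, mem_ball_self hη⟩
    exact ⟨z2, h2, h3⟩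
  rw [mem_union, not_or, mem_singleton_iff] at hz2
  have hz2U : z2 ∈ U := by
    by_contra h1
    exact hz2.1 ⟨(hηs z2 hz2b).2.1, h1⟩
  have hga : ∀ j ∈ Finset.range (d + 1), AnalyticAt ℂ (gs j) z2 := by
    intro j hj
    rw [analyticAt_iff_eventually_differentiableAt]
    filter_upwards [isOpen_ball.mem_nhds hz2b] with w hw
    exact ((hηs w hw).1 j hj).2.1
  have hgn : ∀ j ∈ Finset.range (d + 1), deriv (gs j) z2 ≠ 0 := fun j hj =>
    ((hηs z2 hz2b).1 j hj).1 hz2.2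
  -- two values agree
  obtain ⟨⟨i, j⟩, hij, hije⟩ := pigeon
    (((Finset.range (d + 1)) ×ˢ (Finset.range (d + 1))).filter fun p => p.1 < p.2)
    (f := fun p w => Sw (gs p.2) w - Sw (gs p.1) w) (z := z2) (by
      rintro ⟨i, j⟩ hp
      rw [Finset.mem_filter, Finset.mem_product] at hp
      exact (Sw_an (hga j hp.1.2) (hgn j hp.1.2)).sub (Sw_an (hga i hp.1.1) (hgn i hp.1.1))) (by
      filter_upwards [isOpen_ball.mem_nhds hz2b, isOpen_ne.mem_nhds hz2.2, hU.mem_nhds hz2U]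
        with w h1 h2 h3
      obtain ⟨h4, h5, -⟩ := hηs w h1
      by_contra hcon
      push Not at hcon
      have hinj : Set.InjOn (fun j => Sw (gs j) w) (Finset.range (d + 1)) := by
        intro i hi j hj hij
        have hij' : Sw (gs i) w = Sw (gs j) w := hij
        rcases lt_trichotomy i j with h6 | h6 | h6
        · exact absurd (sub_eq_zero.2 hij'.symm) (hcon (i, j) (by
            rw [Finset.mem_filter, Finset.mem_product]; exact ⟨⟨hi, hj⟩, h6⟩))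
        · exact h6
        · exact absurd (sub_eq_zero.2 hij') (hcon (j, i) (by
            rw [Finset.mem_filter, Finset.mem_product]; exact ⟨⟨hj, hi⟩, h6⟩))
      have h7 := card_le (hcd w ⟨h5, h3⟩) ((Finset.range (d + 1)).image fun j => Sw (gs j) w) (by
        intro y hy
        rw [Finset.mem_image] at hy
        obtain ⟨j, hj, rfl⟩ := hy
        exact (h4 j hj).2.2.1 h3 ((h4 j hj).1 h2))
      rw [Finset.card_image_of_injOn hinj, Finset.card_range] at h7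
      omega)
  rw [Finset.mem_filter, Finset.mem_product] at hij
  obtain ⟨⟨hi, hj⟩, hlt⟩ := hij
  simp only at hi hj hlt hije
  have hSw : Sw (gs i) =ᶠ[𝓝 z2] Sw (gs j) := by
    filter_upwards [hije] with w hw
    exact (sub_eq_zero.1 hw).symm
  obtain ⟨a, b, c', d', hdet, hev⟩ := hMOB (gs i) (gs j) z2 (hga i hi) (hga j hj) (hgn i hi)
    (hgn j hj) hSw
  obtain ⟨hz2s, -, hz2e, ht2L⟩ := hηs z2 hz2b
  set t2 : ℂ := lm x τ0 z2 with ht2
  have hmon0 : ∀ τ : ℂ, τ.re < L →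
      G (τ + per j) * (c' * G (τ + per i) + d') = a * G (τ + per i) + b := by
    have hGs : ∀ k : ℕ, DifferentiableOn ℂ (fun τ => G (τ + per k)) (HP L) := fun k =>
      hGd.comp (differentiableOn_id.add_const _) fun τ hτ => HP_per hτ k
    have h1 := eqOn_convex (HP_conv L) (HP_open L)
      (f := fun τ => G (τ + per j) * (c' * G (τ + per i) + d'))
      (g := fun τ => a * G (τ + per i) + b)
      ((hGs j).mul (((hGs i).const_mul c').add_const d')) (((hGs i).const_mul a).add_const b)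
      ht2L (by
        have h2 : Tendsto (fun t => x + exp t) (𝓝 t2) (𝓝 z2) := by
          have := (hexpd t2).continuousAt.tendsto
          rwa [hz2e] at this
        filter_upwards [(hz2s i hi).2.2.2, (hz2s j hj).2.2.2, h2.eventually hev] with t h3 h5 h4
        rw [h3, h5]
        exact h4.2)
    exact fun τ hτ => h1 hτ
  have hmon : ∀ τ : ℂ, τ.re < L → G (τ + per (j - i)) * (c' * G τ + d') = a * G τ + b := by
    intro τ hτ
    have h1 := hmon0 (τ - per i) (by rw [sub_re, per_re, sub_zero]; exact hτ)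
    have e : τ - per i + per j = τ + per (j - i) := by
      unfold per
      push_cast [Nat.cast_sub hlt.le]
      ring
    rwa [e, sub_add_cancel] at h1
  obtain ⟨E, hE, hGE⟩ := (loc_q hLIM hFAN hSTR hELL hP0 hlam hBU hNF hVG (fun w hw =>
    hB w (hδB (by rwa [hexpL] at hw))) hx (Nat.sub_pos_of_lt hlt) (dd := d)
    (by have := Finset.mem_range.1 hj; omega) hdet hmon).resolve_right hNC
  rw [hexpL] at hE
  refine ⟨E, hE, hfin E hE ?_⟩
  filter_upwards [hlme, hlm.eventually hGg, hlm.eventually ((HP_open L).mem_nhds hτ0)]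
    with w h1 h2 h3
  rw [hGE _ h3, h1] at h2
  exact h2

/-- **The local theorem, separable relations.** -/
theorem loc_R (hISO : S_ISO) (hCONN : S_CONN) (hCNT : S_CNT) (hMOB : S_MOB) (hODE : S_ODE)
    (hLIM : S_LIM) (hFAN : S_FAN) (hSTR : S_STRIP) (hELL : S_ELL) (hD : D0 φ r) {lam : ℝ}
    (hlam : 0 < lam) (hBU : BranchesBlowUp φ r lam) (hNF : NoFiniteIsolatedSingularity φ r)
    (hVG : ∀ (z : ℂ) (f : ℂ → ℂ), Branch φ r z f → ∀ b,
      VG (lam / 4) φ b (1 / conj z) (Rf f)) {c0 : ℂ} {ρ : ℝ}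
    (hNC : ¬ BCusp φ r lam d (ball c0 ρ))
    (hB : ∀ w ∈ ball c0 ρ, 1 < ‖w‖) (hU : IsOpen U) (hA : (ball c0 ρ \ U).Countable)
    (hc : ∀ k ≤ d, DifferentiableOn ℂ (c k) (ball c0 ρ ∩ U))
    (hcd : ∀ w ∈ ball c0 ρ ∩ U, c d w ≠ 0)
    (hsep : ∀ w ∈ ball c0 ρ ∩ U, ∀ x, Ev d c w x = 0 → Ev' d c w x ≠ 0)
    {z : ℂ} (hz : z ∈ ball c0 ρ) {g : ℂ → ℂ}
    (hg : Branch φ r z g) (hS : Rl U d c z g) :
    ∃ E : ℂ → ℂ, DifferentiableOn ℂ E (ball c0 ρ) ∧ E =ᶠ[𝓝 z] g := by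
  have hprop : ∀ (y : ℂ) (ρ' : ℝ), ball y ρ' ⊆ ball c0 ρ → ∀ E g : ℂ → ℂ,
      DifferentiableOn ℂ E (ball y ρ') →
      ∀ z ∈ ball y ρ', E =ᶠ[𝓝 z] g → Rl U d c z g → ∀ z' ∈ ball y ρ', Rl U d c z' E := by
    intro y ρ' hs E g hE z hz hEg hS z' hz'
    exact hS.prop hCONN hCNT hU (hA.mono (sdiff_subset_sdiff_left hs))
      (fun k hk => (hc k hk).mono (inter_subset_inter_left _ hs)) hE hz hEg hz'
  -- all points are good
  have hall : ∀ y ∈ ball c0 ρ, GoodR φ r (ball c0 ρ) U d c y := by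
    by_contra hcon
    push Not at hcon
    obtain ⟨y0, hy0, hy0g⟩ := hcon
    set A : Set ℂ := {y | y ∈ ball c0 ρ ∧ ¬ GoodR φ r (ball c0 ρ) U d c y} with hAdef
    have hAs : A ⊆ ball c0 ρ \ U := by
      rintro y ⟨h1, h2⟩
      refine ⟨h1, fun h3 => h2 ?_⟩
      exact reg_ptR hCONN hCNT hODE hMOB hD.hφ hNF isOpen_ball hB hU hc h1 h3 (hcd y ⟨h1, h3⟩)
        (hsep y ⟨h1, h3⟩)
    have hAo : IsOpen (ball c0 ρ \ A) := by
      rw [isOpen_iff_mem_nhds]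
      rintro y ⟨h1, h2⟩
      have h3 : GoodR φ r (ball c0 ρ) U d c y := by
        by_contra h3
        exact h2 ⟨h1, h3⟩
      filter_upwards [isOpen_ball.mem_nhds h1, h3.open] with w h4 h5
      exact ⟨h4, fun h6 => h6.2 h5⟩
    obtain ⟨x, hxA, ε, hε, hiso⟩ := hISO (ball c0 ρ) A isOpen_ball (fun y hy => hy.1) hAo
      (hA.mono hAs) ⟨y0, hy0, hy0g⟩
    refine hxA.2 (iso_ptR hCONN hCNT hMOB hLIM hFAN hSTR hELL hD hlam hBU hNF hVG hNC isOpen_ball
      hB hU hA hc hcd hxA.1 hε fun w hw hne hwB => ?_)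
    by_contra h1
    exact hne (hiso w hw ⟨hwB, h1⟩)
  obtain ⟨G, hG, hGg, -⟩ := cont (convex_ball c0 ρ) isOpen_ball hz
    (fun y F => Branch φ r y F ∧ Rl U d c y F) (by
    rintro y F F' ⟨h1, h2⟩ hFF'
    exact ⟨branch_congr hD.hφ h1 hFF', h2.congr hFF'⟩) (by
    intro y hy
    obtain ⟨δ, hδ, hs, h1⟩ := hall y hy
    refine ⟨δ, hδ, ?_⟩
    rintro t ht - F ⟨h2, h3⟩
    obtain ⟨E, hE, hEF⟩ := h1 t ht F h2 h3
    refine ⟨E, hE, hEF, fun u hu _ => ⟨?_, ?_⟩⟩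
    · exact branch_ball (branch_congr hD.hφ h2 hEF.symm) (fun w hw => hB w (hs hw)) hE ht hu
    · exact hprop _ _ hs E F hE _ ht hEF h3 _ hu) (f := g) ⟨hg, hS⟩
  exact ⟨G, hG, hGg⟩

/-- **The local theorem.** -/
theorem loc_A (hISO : S_ISO) (hCONN : S_CONN) (hCNT : S_CNT) (hMOB : S_MOB) (hODE : S_ODE)
    (hLIM : S_LIM) (hFAN : S_FAN) (hSTR : S_STRIP) (hELL : S_ELL) (hD : D0 φ r) {lam : ℝ}
    (hlam : 0 < lam) (hBU : BranchesBlowUp φ r lam) (hNF : NoFiniteIsolatedSingularity φ r)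
    (hVG : ∀ (z : ℂ) (f : ℂ → ℂ), Branch φ r z f → ∀ b,
      VG (lam / 4) φ b (1 / conj z) (Rf f)) {c0 : ℂ} {ρ : ℝ}
    (hNC : ¬ BCusp φ r lam d (ball c0 ρ))
    (hB : ∀ w ∈ ball c0 ρ, 1 < ‖w‖) (hU : IsOpen U) (hA : (ball c0 ρ \ U).Countable)
    (hc : ∀ k ≤ d, DifferentiableOn ℂ (c k) (ball c0 ρ ∩ U))
    (hcd : ∃ w ∈ ball c0 ρ ∩ U, c d w ≠ 0)
    {z : ℂ} (hz : z ∈ ball c0 ρ) {g : ℂ → ℂ}
    (hg : Branch φ r z g) (hS : Rl U d c z g) :
    ∃ E : ℂ → ℂ, DifferentiableOn ℂ E (ball c0 ρ) ∧ E =ᶠ[𝓝 z] g := by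
  -- a small disc
  obtain ⟨ε, hε, hεs⟩ := Metric.eventually_nhds_iff_ball.1
    ((hS.hd.and hS.hs).and (isOpen_ball.mem_nhds hz))
  have hgd : DifferentiableOn ℂ g (ball z ε) := fun w hw =>
    (hεs w hw).1.1.differentiableWithinAt
  have hdg : DifferentiableOn ℂ (deriv g) (ball z ε) := hgd.deriv isOpen_ball
  have hεb : ball z ε ⊆ ball c0 ρ := fun w hw => (hεs w hw).2
  obtain ⟨z1, hz1n, hz1⟩ := (hS.hn.and_eventually
    (isOpen_ball.mem_nhds (mem_ball_self hε))).exists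
  have hZ := hCNT z ε (deriv g) hdg ⟨z1, hz1, hz1n⟩
  obtain ⟨z2, hz2, hz2n⟩ : ∃ z2 ∈ ball z ε,
      z2 ∉ (ball c0 ρ \ U) ∪ {w | w ∈ ball z ε ∧ deriv g w = 0} := by
    obtain ⟨z2, h2, h3⟩ := ((hA.union hZ).dense_compl ℝ).inter_open_nonempty (ball z ε)
      isOpen_ball ⟨z, mem_ball_self hε⟩
    exact ⟨z2, h2, h3⟩
  rw [mem_union, not_or] at hz2n
  have hz2U : z2 ∈ U := by
    by_contra h3
    exact hz2n.1 ⟨hεb hz2, h3⟩
  have hz2d : deriv g z2 ≠ 0 := fun h3 => hz2n.2 ⟨hz2, h3⟩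
  have hne2 : ∀ᶠ v in 𝓝 z2, deriv g v ≠ 0 :=
    (hdg.differentiableAt (isOpen_ball.mem_nhds hz2)).continuousAt.eventually_ne hz2d
  obtain ⟨δ, hδ, hδs⟩ := Metric.eventually_nhds_iff_ball.1
    ((hne2.and (isOpen_ball.mem_nhds hz2)).and (hU.mem_nhds hz2U))
  have hVW : ball z2 δ ⊆ ball c0 ρ ∩ U := fun w hw =>
    ⟨hεb (hδs w hw).1.2, (hδs w hw).2⟩
  have hSw : DifferentiableOn ℂ (Sw g) (ball z2 δ) := fun w hw =>
    (Sw_an (hgd.analyticAt (isOpen_ball.mem_nhds (hδs w hw).1.2))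
      (hδs w hw).1.1).differentiableAt.differentiableWithinAt
  have hWc : IsPreconnected (ball c0 ρ ∩ U) := by
    have h1 := hCONN c0 ρ _ hA
    rwa [sdiff_sdiff_right_self] at h1
  have hWo : IsOpen (ball c0 ρ ∩ U) := isOpen_ball.inter hU
  obtain ⟨d', c', ρ', hdd, hc', hρ', hcd', hρn, hrel', hsep'⟩ := sep_an hWo hWc isOpen_ball
    (convex_ball z2 δ).isPreconnected hVW ⟨z2, mem_ball_self hδ⟩ hc hcd hSw
    (fun w hw => (hεs w (hδs w hw).1.2).1.2 (hδs w hw).2 (hδs w hw).1.1)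
  -- the new set
  set U' : Set ℂ := {w | w ∈ ball c0 ρ ∩ U ∧ c' d' w ≠ 0 ∧ ρ' w ≠ 0} with hU'
  have hU'o : IsOpen U' := by
    rw [isOpen_iff_mem_nhds]
    rintro w ⟨h1, h2, h3⟩
    have c1 : ContinuousAt (c' d') w := ((hc' d').differentiableAt (hWo.mem_nhds h1)).continuousAt
    have c2 : ContinuousAt ρ' w := (hρ'.differentiableAt (hWo.mem_nhds h1)).continuousAt
    filter_upwards [hWo.mem_nhds h1, c1.eventually_ne h2, c2.eventually_ne h3] with v h4 h5 h6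
    exact ⟨h4, h5, h6⟩
  have hA' : (ball c0 ρ \ U').Countable := by
    refine ((hA.union (zeros_countable hWo hWc (hc' d') hcd')).union
      (zeros_countable hWo hWc hρ' hρn)).mono ?_
    rintro w ⟨h1, h2⟩
    by_cases h3 : w ∈ U
    · by_cases h4 : c' d' w = 0
      · exact Or.inl (Or.inr ⟨⟨h1, h3⟩, h4⟩)
      · by_cases h5 : ρ' w = 0
        · exact Or.inr ⟨⟨h1, h3⟩, h5⟩
        · exact absurd ⟨⟨h1, h3⟩, h4, h5⟩ h2
    · exact Or.inl (Or.inl ⟨h1, h3⟩)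
  have hU's : ball c0 ρ ∩ U' ⊆ ball c0 ρ ∩ U := fun w hw => hw.2.1
  have hR' : Rl U' d' c' z g := by
    refine ⟨hS.hd, hS.hn, ?_⟩
    have hAε : (ball z ε \ U).Countable := hA.mono (sdiff_subset_sdiff_left hεb)
    have h1 := prop0 hCONN hCNT hU hAε (d := d') (c := c')
      (fun k _ => (hc' k).mono (inter_subset_inter_left _ hεb)) hgd hz2 hz2U hz2d (by
        filter_upwards [isOpen_ball.mem_nhds (mem_ball_self hδ)] with w hw
        exact hrel' w hw)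
    filter_upwards [isOpen_ball.mem_nhds (mem_ball_self hε)] with w hw h2 h3
    exact h1 w hw h2.1.2 h3
  exact loc_R hISO hCONN hCNT hMOB hODE hLIM hFAN hSTR hELL hD hlam hBU hNF hVG
    (fun h => hNC (h.mono hdd Subset.rfl)) hB hU'o hA'
    (fun k _ => (hc' k).mono hU's) (fun w hw => hw.2.2.1)
    (fun w hw => hsep' w hw.2.1 hw.2.2.2) hz hg hR'

/-- propagation in open connected sets -/
theorem clopen {S : Set ℂ} (hSc : IsPreconnected S) {P : ℂ → Prop}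
    (h : ∀ x ∈ S, ∃ s : ℝ, 0 < s ∧ ball x s ⊆ S ∧ ∀ y ∈ ball x s, P y → ∀ z ∈ ball x s, P z)
    {x0 : ℂ} (hx0 : x0 ∈ S) (h0 : P x0) : ∀ x ∈ S, P x := by
  intro x hx
  by_contra hPx
  have hu : IsOpen {x | x ∈ S ∧ P x} := by
    rw [isOpen_iff_mem_nhds]
    rintro y ⟨hy, hPy⟩
    obtain ⟨s, hs, hsub, h1⟩ := h y hy
    filter_upwards [isOpen_ball.mem_nhds (mem_ball_self hs)] with w hw
    exact ⟨hsub hw, h1 y (mem_ball_self hs) hPy w hw⟩
  have hv : IsOpen {x | x ∈ S ∧ ¬ P x} := by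
    rw [isOpen_iff_mem_nhds]
    rintro y ⟨hy, hPy⟩
    obtain ⟨s, hs, hsub, h1⟩ := h y hy
    filter_upwards [isOpen_ball.mem_nhds (mem_ball_self hs)] with w hw
    exact ⟨hsub hw, fun h2 => hPy (h1 w hw h2 y (mem_ball_self hs))⟩
  obtain ⟨y, -, h1, h2⟩ := hSc _ _ hu hv (fun y hy => by
    by_cases h3 : P y
    · exact Or.inl ⟨hy, h3⟩
    · exact Or.inr ⟨hy, h3⟩) ⟨x0, hx0, hx0, h0⟩ ⟨x, hx, hx, hPx⟩
  exact h2.2 h1.2

theorem ext_pre : IsPreconnected {w : ℂ | 1 < ‖w‖} := by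
  have h1 : {w : ℂ | 1 < ‖w‖} = exp '' {z : ℂ | 0 < z.re} := by
    ext w
    constructor
    · intro hw
      have hw' : (1 : ℝ) < ‖w‖ := hw
      refine ⟨log w, ?_, exp_log (norm_pos_iff.1 (by linarith))⟩
      show 0 < (log w).re
      rw [log_re]
      exact Real.log_pos hw'
    · rintro ⟨z, hz, rfl⟩
      show 1 < ‖exp z‖
      rw [norm_exp]
      exact Real.one_lt_exp_iff.2 hz
  rw [h1]
  exact ((convex_halfSpace_re_gt 0).isPreconnected).image _ continuous_exp.continuousOn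

theorem ann_pre {r : ℝ} (hr0 : 0 < r) : IsPreconnected {w : ℂ | 1 < ‖w‖ ∧ ‖w‖ < r} := by
  have h1 : {w : ℂ | 1 < ‖w‖ ∧ ‖w‖ < r} =
      exp '' ({z : ℂ | 0 < z.re} ∩ {z : ℂ | z.re < Real.log r}) := by
    ext w
    constructor
    · rintro ⟨hw, hwr⟩
      have hw0 : 0 < ‖w‖ := by linarith
      refine ⟨log w, ⟨?_, ?_⟩, exp_log (norm_pos_iff.1 hw0)⟩
      · show 0 < (log w).re
        rw [log_re]
        exact Real.log_pos hw
      · show (log w).re < Real.log r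
        rw [log_re]
        exact Real.log_lt_log hw0 hwr
    · rintro ⟨z, ⟨hz, hz2⟩, rfl⟩
      have hz' : 0 < z.re := hz
      have hz2' : z.re < Real.log r := hz2
      refine ⟨?_, ?_⟩
      · show 1 < ‖exp z‖
        rw [norm_exp]
        exact Real.one_lt_exp_iff.2 hz
      · show ‖exp z‖ < r
        rw [norm_exp, ← Real.lt_log_iff_exp_lt hr0]
        exact hz2'
  rw [h1]
  exact (((convex_halfSpace_re_gt 0).inter (convex_halfSpace_re_lt _)).isPreconnected).image _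
    continuous_exp.continuousOn

/-- **The global theorem.** -/
theorem glob_A (hISO : S_ISO) (hCONN : S_CONN) (hCNT : S_CNT) (hMOB : S_MOB) (hODE : S_ODE)
    (hLIM : S_LIM) (hFAN : S_FAN) (hSTR : S_STRIP) (hELL : S_ELL) (hD : D0 φ r) {lam : ℝ}
    (hlam : 0 < lam) (hBU : BranchesBlowUp φ r lam) (hNF : NoFiniteIsolatedSingularity φ r)
    (hVG : ∀ (z : ℂ) (f : ℂ → ℂ), Branch φ r z f → ∀ b,
      VG (lam / 4) φ b (1 / conj z) (Rf f)) (hNC : ¬ BCusp φ r lam d {w : ℂ | 1 < ‖w‖})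
    (hU : IsOpen U) (hA : ({w : ℂ | 1 < ‖w‖} \ U).Countable)
    (hc : ∀ k ≤ d, DifferentiableOn ℂ (c k) ({w : ℂ | 1 < ‖w‖} ∩ U))
    (hcd : ∃ w : ℂ, 1 < ‖w‖ ∧ w ∈ U ∧ c d w ≠ 0) {z0 : ℂ} (hz01 : 1 < ‖z0‖) (hz0r : ‖z0‖ < r)
    (hR : Rl U d c z0 φ) :
    ∃ Φ : ℂ → ℂ, Differentiable ℂ Φ ∧ EqOn Φ φ (ball 0 r) := by
  have hr := hD.hr
  have hr0 : 0 < r := by linarith
  have hcb : ∀ B : Set ℂ, (∀ w ∈ B, 1 < ‖w‖) → (B \ U).Countable := fun B hB =>
    hA.mono (sdiff_subset_sdiff_left hB)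
  have hcB : ∀ B : Set ℂ, (∀ w ∈ B, 1 < ‖w‖) → ∀ k ≤ d, DifferentiableOn ℂ (c k) (B ∩ U) :=
    fun B hB k hk => (hc k hk).mono fun w hw => ⟨hB w hw.1, hw.2⟩
  have hex : IsOpen {w : ℂ | 1 < ‖w‖} := isOpen_lt continuous_const continuous_norm
  -- the leading coefficient does not vanish near any point
  have hcdB : ∀ (x : ℂ) (s : ℝ), 1 < ‖x‖ → 0 < s → ∃ w ∈ ball x s ∩ U, c d w ≠ 0 := by
    intro x s hx hs
    by_contra hcon
    push Not at hcon
    obtain ⟨w, hw1, hwU, hw2⟩ := hcd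
    have hcl := clopen ext_pre (P := fun x => ∀ᶠ w in 𝓝 x, w ∈ U → c d w = 0) (by
      intro x hx
      obtain ⟨t, ht, hts⟩ := Metric.isOpen_iff.1 hex x hx
      refine ⟨t, ht, hts, fun y hy hPy z hz => ?_⟩
      have hWc : IsPreconnected (ball x t ∩ U) := by
        have h1 := hCONN x t _ (hcb _ fun w hw => hts hw)
        rwa [Set.sdiff_sdiff_right_self] at h1
      obtain ⟨ε, hε, hεs⟩ := Metric.eventually_nhds_iff_ball.1
        (hPy.and (isOpen_ball.mem_nhds hy))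
      obtain ⟨y1, hy1, hy1n⟩ : ∃ y1 ∈ ball y ε, y1 ∉ ball x t \ U := by
        obtain ⟨z2, h2, h3⟩ := ((hcb (ball x t) fun w hw => hts hw).dense_compl
          ℝ).inter_open_nonempty (ball y ε) isOpen_ball ⟨y, mem_ball_self hε⟩
        exact ⟨z2, h2, h3⟩
      have hy1x : y1 ∈ ball x t := (hεs y1 hy1).2
      have hy1U : y1 ∈ U := by
        by_contra h1
        exact hy1n ⟨hy1x, h1⟩
      have h2 := hol_zero (isOpen_ball.inter hU) hWc (hcB _ (fun w hw => hts hw) d le_rfl)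
        ⟨hy1x, hy1U⟩ (by
          filter_upwards [isOpen_ball.mem_nhds hy1, hU.mem_nhds hy1U] with v h3 h4
          exact (hεs v h3).1 h4)
      filter_upwards [isOpen_ball.mem_nhds hz] with v h3 h4
      exact h2 v ⟨h3, h4⟩) hx (by
      filter_upwards [isOpen_ball.mem_nhds (mem_ball_self hs)] with v h4 h5
      exact hcon v ⟨h4, h5⟩)
    exact hw2 ((hcl w hw1).self_of_nhds hwU)
  refine entire_of_ext hr0 hD.hφ fun ρ hρ h hh hhφ x hx => ?_
  have hρ1 : 1 < ρ := lt_of_lt_of_le hr hρ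
  have hρ0 : 0 < ρ := by linarith
  rw [mem_sphere_zero_iff_norm] at hx
  have hann : IsOpen {w : ℂ | 1 < ‖w‖ ∧ ‖w‖ < ρ} :=
    (isOpen_lt continuous_const continuous_norm).inter
      (isOpen_lt continuous_norm continuous_const)
  have hSh : ∀ z ∈ {w : ℂ | 1 < ‖w‖ ∧ ‖w‖ < ρ}, Rl U d c z h :=
    clopen (ann_pre hρ0) (by
      intro x hx
      obtain ⟨t, ht, hts⟩ := Metric.isOpen_iff.1 hann x hx
      have h1 : ∀ w ∈ ball x t, 1 < ‖w‖ := fun w hw => (hts hw).1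
      refine ⟨t, ht, hts, fun y hy hPy z hz => ?_⟩
      exact hPy.prop hCONN hCNT hU (hcb _ h1) (hcB _ h1)
        (hh.mono fun w hw => by rw [mem_ball_zero_iff]; exact (hts hw).2) hy
        (EventuallyEq.refl _ _) hz) (x0 := z0) ⟨hz01, hz0r.trans_le hρ⟩ (hR.congr (by
        filter_upwards [isOpen_ball.mem_nhds (mem_ball_zero_iff.2 hz0r)] with w hw
        exact (hhφ hw).symm))
  have hB : ∀ w ∈ ball x (ρ - 1), 1 < ‖w‖ := by
    intro w hw
    rw [mem_ball, dist_eq_norm] at hw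
    have h2 : ‖x‖ ≤ ‖w‖ + ‖w - x‖ := by
      have := norm_sub_le w (w - x)
      rwa [sub_sub_cancel] at this
    linarith
  -- the point `z`
  set s : ℝ := (ρ + 1) / (2 * ρ) with hs
  have hs0 : 0 < s := by positivity
  have hsρ : s * ρ = (ρ + 1) / 2 := by rw [hs]; field_simp
  have hs1 : s < 1 := by
    rw [hs, div_lt_one (by positivity)]; linarith
  have hzn : ‖(s : ℂ) * x‖ = (ρ + 1) / 2 := by
    rw [norm_mul, norm_real, Real.norm_of_nonneg hs0.le, hx, hsρ]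
  have hzx : (s : ℂ) * x ∈ ball x (ρ - 1) := by
    have e : (s : ℂ) * x - x = ((s - 1 : ℝ) : ℂ) * x := by push_cast; ring
    rw [mem_ball, dist_eq_norm, e, norm_mul, norm_real, hx, Real.norm_eq_abs,
      abs_of_neg (by linarith)]
    have : -(s - 1) * ρ = ρ - (ρ + 1) / 2 := by rw [← hsρ]; ring
    rw [this]
    linarith
  have hz0 : (s : ℂ) * x ∈ ball (0 : ℂ) ρ := by rw [mem_ball_zero_iff, hzn]; linarith
  obtain ⟨E, hE, hEh⟩ := loc_A hISO hCONN hCNT hMOB hODE hLIM hFAN hSTR hELL hD hlam hBU hNF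
    hVG (fun h => hNC (h.mono le_rfl hB)) hB hU (hcb _ hB) (hcB _ hB)
    (hcdB x (ρ - 1) (by rw [hx]; exact hρ1) (by linarith)) hzx
    (branch_radial hD hρ hh hhφ hz0 (by rw [hzn]; linarith)) (hSh _ (by
      refine ⟨?_, ?_⟩
      · rw [hzn]; linarith
      · rw [hzn]; linarith))
  exact ⟨ρ - 1, E, _, by linarith, hE, ⟨hzx, hz0⟩, hEh⟩

end Pool.Agent.Helper6.SF
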