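import Pool.Graph.R_pool_sql_team_seeded_b677cdb8.E8helper32.SQ.Loc

/-!
# Moebius monodromy of infinite order, for several turns
-/

set_option autoImplicit false

open Complex MeasureTheory Metric Set Filter Topology ComplexConjugate

namespace Pool.Agent.Helper6.SF

open Pool.Agent.E8helper32.SA (eqOn_convex per per_re exp_add_per kers)
open Pool.Agent.E8helper32.SP (OP turns exp_turns two_pi_re mom_zero)
open Pool.Agent.E8helper32.SQ
open Pool.Agent.Y245.SC (seg)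

variable {a Λ : ℝ} {T : ℂ → ℂ} {b0 b1 b2 κ c0 : ℂ} {q : ℕ}

theorem qmem (hq : 0 < q) {s : ℂ} (hs : s ∈ HP (Λ / q)) : (q : ℂ) * s ∈ HP Λ := by
  have hq' : (0 : ℝ) < q := by exact_mod_cast hq
  show ((q : ℂ) * s).re < Λ
  have h1 : s.re < Λ / q := hs
  rw [Pool.Agent.E8helper32.SA.nat_mul_re]
  rwa [lt_div_iff₀' hq'] at h1

theorem qmem' (hq : 0 < q) {σ : ℂ} (hσ : σ ∈ HP Λ) : σ / q ∈ HP (Λ / q) := by
  have hq' : (0 : ℝ) < q := by exact_mod_cast hq
  show (σ / q).re < Λ / q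
  have h1 : σ.re < Λ := hσ
  rw [← ofReal_natCast, div_ofReal_re, div_lt_div_iff_of_pos_right hq']
  exact h1

theorem HP_per {L : ℝ} {σ : ℂ} (hσ : σ ∈ HP L) (q : ℕ) : σ + per q ∈ HP L := by
  show (σ + per q).re < L
  rw [add_re, per_re, add_zero]
  exact hσ

theorem qdiff (hq : 0 < q) (hTd : DifferentiableOn ℂ T (HP Λ)) :
    DifferentiableOn ℂ (fun s => T (q * s)) (HP (Λ / q)) :=
  hTd.comp ((differentiable_id.const_mul (q : ℂ)).differentiableOn) fun _ hs => qmem hq hs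

theorem strip_q (hSTR : S_STRIP) (hq : 0 < q) (hTd : DifferentiableOn ℂ T (HP Λ)) {b : ℂ}
    (h : ∀ σ ∈ HP Λ, T (σ + per q) = b ↔ T σ = b) (hne : ∃ σ ∈ HP Λ, T σ ≠ b) :
    ∃ x1 x2 : ℝ, x1 < x2 ∧ x2 ≤ Λ ∧ ∀ σ : ℂ, x1 < σ.re → σ.re < x2 → T σ ≠ b := by
  have hq' : (0 : ℝ) < q := by exact_mod_cast hq
  have hqc : (q : ℂ) ≠ 0 := by exact_mod_cast hq.ne'
  obtain ⟨x1, x2, hx, hx2, hs⟩ := hSTR (Λ / q) (fun s => T (q * s)) b (qdiff hq hTd)
    (fun s hs => by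
      have e : (q : ℂ) * (s + 2 * Real.pi * I) = q * s + per q := by unfold per; ring
      try simp only
      rw [e]
      exact h _ (qmem hq hs)) (by
      obtain ⟨σ, hσ, h1⟩ := hne
      refine ⟨σ / q, qmem' hq hσ, ?_⟩
      try simp only
      rwa [mul_div_cancel₀ _ hqc])
  refine ⟨q * x1, q * x2, by gcongr, by rwa [le_div_iff₀' hq'] at hx2, fun σ h1 h2 => ?_⟩
  have h3 := hs (σ / q) (by
    rw [← ofReal_natCast, div_ofReal_re, lt_div_iff₀' hq']; exact h1) (by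
    rw [← ofReal_natCast, div_ofReal_re, div_lt_iff₀' hq']; exact h2)
  try simp only at h3
  rwa [mul_div_cancel₀ _ hqc] at h3

/-- iterating periodicity in a strip -/
theorem iter_per {Y : ℂ → ℂ} {x1 x2 : ℝ}
    (h : ∀ σ : ℂ, x1 < σ.re → σ.re < x2 → Y (σ + 2 * Real.pi * I) = Y σ) (n : ℕ) :
    ∀ σ : ℂ, x1 < σ.re → σ.re < x2 → Y (σ + per n) = Y σ := by
  induction n with
  | zero => intro σ _ _; unfold per; simp
  | succ n ih =>
    intro σ h1 h2
    have e : σ + per (n + 1) = σ + per n + 2 * Real.pi * I := by unfold per; push_cast; ring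
    have h3 : (σ + per n).re = σ.re := by rw [add_re, per_re, add_zero]
    rw [e, h _ (by rw [h3]; exact h1) (by rw [h3]; exact h2)]
    exact ih σ h1 h2

/-- the monodromy of `q` turns in terms of two fixed points -/
def FLq (Λ : ℝ) (q : ℕ) (T : ℂ → ℂ) (b1 b2 κ : ℂ) : Prop := ∀ σ ∈ HP Λ,
  (T (σ + per q) - b1) * (T σ - b2) = κ * ((T σ - b1) * (T (σ + per q) - b2))

theorem FLq.fl (h : FLq Λ q T b1 b2 κ) (hq : 0 < q) :
    FL (Λ / q) (fun s => T (q * s)) b1 b2 κ := by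
  intro s hs
  have e : (q : ℂ) * (s + 2 * Real.pi * I) = q * s + per q := by unfold per; ring
  try simp only
  rw [e]
  exact h _ (qmem hq hs)

theorem FLq.two (h : FLq Λ q T b1 b2 κ) (hb : b1 ≠ b2) (hκ : κ ≠ 0) {σ : ℂ} (hσ : σ ∈ HP Λ) :
    T (σ + per q) = b2 ↔ T σ = b2 := by
  have h1 := h σ hσ
  constructor
  · intro h2
    rw [h2, sub_self, mul_zero, mul_zero] at h1
    exact sub_eq_zero.1 ((mul_eq_zero.1 h1).resolve_left (sub_ne_zero.2 hb.symm))
  · intro h2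
    rw [h2, sub_self, mul_zero] at h1
    have h3 := (mul_eq_zero.1 h1.symm).resolve_left hκ
    exact sub_eq_zero.1 ((mul_eq_zero.1 h3).resolve_left (sub_ne_zero.2 hb.symm))

theorem FLq.swap (h : FLq Λ q T b1 b2 κ) (hκ : κ ≠ 0) : FLq Λ q T b2 b1 κ⁻¹ := by
  intro σ hσ
  have h1 := h σ hσ
  have h2 : κ⁻¹ * κ = 1 := inv_mul_cancel₀ hκ
  linear_combination (-κ⁻¹) * h1 + (T σ - b1) * (T (σ + per q) - b2) * (-h2)

theorem turn_eq (hq : 0 < q) (m : ℕ) (σ : ℂ) :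
    (q : ℂ) * (σ / q + m * (2 * Real.pi * I)) = σ + ((q * m : ℕ) : ℂ) * (2 * Real.pi * I) := by
  have hqc : (q : ℂ) ≠ 0 := by exact_mod_cast hq.ne'
  push_cast
  field_simp

theorem FLq.val (h : FLq Λ q T b1 b2 κ) (hq : 0 < q) (hb : b1 ≠ b2) (hκ : κ ≠ 0) (m : ℕ) {σ : ℂ}
    (hσ : σ ∈ HP Λ) (h2 : T σ ≠ b2) :
    T (σ + ((q * m : ℕ) : ℂ) * (2 * Real.pi * I)) - b1 =
        (b1 - b2) * (κ ^ m * ((T σ - b1) / (T σ - b2))) /
          (1 - κ ^ m * ((T σ - b1) / (T σ - b2))) := by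
  have hqc : (q : ℂ) ≠ 0 := by exact_mod_cast hq.ne'
  have h1 := ((h.fl hq).val hb hκ m (σ := σ / q) (qmem' hq hσ) (by
    try simp only
    rwa [mul_div_cancel₀ _ hqc])).2
  try simp only at h1
  rw [turn_eq hq, mul_div_cancel₀ _ hqc] at h1
  exact h1

theorem FLq.per (h : FLq Λ q T b1 b2 κ) (hq : 0 < q) (hb : b1 ≠ b2) (hκ : κ ≠ 0) {m : ℕ}
    (hm : κ ^ m = 1) {σ : ℂ} (hσ : σ ∈ HP Λ) : T (σ + per (q * m)) = T σ := by
  have hqc : (q : ℂ) ≠ 0 := by exact_mod_cast hq.ne'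
  have h1 := (h.fl hq).periodic hb hκ hm (σ := σ / q) (qmem' hq hσ)
  try simp only at h1
  rw [turn_eq hq, mul_div_cancel₀ _ hqc] at h1
  exact h1

/-- the conclusion from the periodicity of `Y` -/
theorem fl_fin (h : FLq Λ q T b1 b2 κ) (hb : b1 ≠ b2) (hκ0 : κ ≠ 0) (hκ1 : κ ≠ 1)
    (hTd : DifferentiableOn ℂ T (HP Λ)) {x1 x2 : ℝ} (hx : x1 < x2) (hx2 : x2 ≤ Λ)
    (hne : ∀ σ : ℂ, x1 < σ.re → σ.re < x2 → T σ ≠ b2)
    (hper : ∀ σ : ℂ, x1 < σ.re → σ.re < x2 → (T (σ + 2 * Real.pi * I) - b1) /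
      (T (σ + 2 * Real.pi * I) - b2) = (T σ - b1) / (T σ - b2)) :
    ∃ b, ∀ σ ∈ HP Λ, T σ = b := by
  have hmem : ∀ σ : ℂ, σ.re < x2 → σ ∈ HP Λ := fun σ hσ => lt_of_lt_of_le hσ hx2
  refine ⟨b1, fin_strip hTd hx hx2 fun σ h1 h2 => ?_⟩
  have h3 := iter_per (Y := fun σ => (T σ - b1) / (T σ - b2)) hper q σ h1 h2
  have h4 := h σ (hmem σ h2)
  have h5 : T σ - b2 ≠ 0 := sub_ne_zero.2 (hne σ h1 h2)
  have h6 : T (σ + Pool.Agent.E8helper32.SA.per q) - b2 ≠ 0 := sub_ne_zero.2 fun h7 =>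
    hne σ h1 h2 ((h.two hb hκ0 (hmem σ h2)).1 h7)
  try simp only at h3
  rw [div_eq_div_iff h6 h5, h4] at h3
  have h8 : (κ - 1) * ((T σ - b1) * (T (σ + Pool.Agent.E8helper32.SA.per q) - b2)) = 0 := by
    linear_combination h3
  have h9 := (mul_eq_zero.1 h8).resolve_left (sub_ne_zero.2 hκ1)
  exact sub_eq_zero.1 ((mul_eq_zero.1 h9).resolve_right h6)

theorem lox_q (hLIM : S_LIM) (hSTR : S_STRIP) (ha : 0 < a) (hq : 0 < q) (hOP : OP a Λ T)
    (hTd : DifferentiableOn ℂ T (HP Λ)) (h : FLq Λ q T b1 b2 κ) (hb : b1 ≠ b2) (hκ0 : κ ≠ 0)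
    (hκ : ‖κ‖ < 1) : ∃ b, ∀ σ ∈ HP Λ, T σ = b := by
  by_cases hc : ∀ σ ∈ HP Λ, T σ = b2
  · exact ⟨b2, hc⟩
  push Not at hc
  obtain ⟨x1, x2, hx, hx2, hne⟩ := strip_q hSTR hq hTd (fun σ hσ => h.two hb hκ0 hσ) hc
  set Yf : ℂ → ℂ := fun σ => (T σ - b1) / (T σ - b2) with hYf
  have hmem : ∀ σ : ℂ, σ.re < x2 → σ ∈ HP Λ := fun σ hσ => lt_of_lt_of_le hσ hx2
  have hYd : DifferentiableOn ℂ Yf {σ : ℂ | x1 < σ.re ∧ σ.re < x2} := by
    intro σ hσ
    have h1 : DifferentiableAt ℂ T σ := hTd.differentiableAt ((HP_open Λ).mem_nhds (hmem σ hσ.2))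
    exact ((h1.sub_const b1).div (h1.sub_const b2)
      (sub_ne_zero.2 (hne σ hσ.1 hσ.2))).differentiableWithinAt
  have hpow : Tendsto (fun k : ℕ => κ ^ k) atTop (𝓝 0) :=
    tendsto_pow_atTop_nhds_zero_of_norm_lt_one hκ
  have hκ1 : κ ≠ 1 := by
    rintro rfl
    rw [norm_one] at hκ
    exact lt_irrefl _ hκ
  refine fl_fin h hb hκ0 hκ1 hTd hx hx2 hne (prim_strip hYd fun σ1 h1 h2 => ?_)
  have hσ1 := hmem σ1 h2
  refine mom_lim hLIM ha hOP hTd hσ1 (Yf := Yf) ?_ (fun k => κ ^ k)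
    (fun k => (b1 - b2) * κ ^ k) (fun _ => b1) (fun k => q * k) hpow ?_ (fun k =>
      mul_ne_zero (sub_ne_zero.2 hb) (pow_ne_zero _ hκ0)) fun k t => ?_
  · refine hYd.continuousOn.comp_continuous
      (continuous_const.add (continuous_ofReal.mul continuous_const)) fun t => ?_
    show x1 < (σ1 + t * (2 * Real.pi * I)).re ∧ (σ1 + t * (2 * Real.pi * I)).re < x2
    rw [line_re]
    exact ⟨h1, h2⟩
  · have := hpow.const_mul (b1 - b2)
    rwa [mul_zero] at this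
  · have h3 := h.val hq hb hκ0 k (line_mem hσ1 t) (hne _ (by rw [line_re]; exact h1)
      (by rw [line_re]; exact h2))
    try simp only
    rw [h3, hYf]
    try simp only
    ring

/-- the elliptic case, `|T - b1| < |T - b2|` -/
theorem ell1_q (hFAN : S_FAN) (ha : 0 < a) (hq : 0 < q) (hOP : OP a Λ T)
    (hTd : DifferentiableOn ℂ T (HP Λ)) (h : FLq Λ q T b1 b2 κ) (hb : b1 ≠ b2)
    (hκ : ‖κ‖ = 1) (hκn : ∀ n : ℕ, 0 < n → κ ^ n ≠ 1)
    (hlt : ∀ σ ∈ HP Λ, ‖T σ - b1‖ < ‖T σ - b2‖) : ∃ b, ∀ σ ∈ HP Λ, T σ = b := by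
  have hκ0 : κ ≠ 0 := by
    intro h0
    rw [h0, norm_zero] at hκ
    exact zero_ne_one hκ
  have hκ1 : κ ≠ 1 := by
    have := hκn 1 one_pos
    rwa [pow_one] at this
  have hne : ∀ σ ∈ HP Λ, T σ ≠ b2 := by
    intro σ hσ h1
    have := hlt σ hσ
    rw [h1, sub_self, norm_zero] at this
    exact absurd this (not_lt.2 (norm_nonneg _))
  set Yf : ℂ → ℂ := fun σ => (T σ - b1) / (T σ - b2) with hYf
  have hYd : DifferentiableOn ℂ Yf (HP Λ) := by
    intro σ hσ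
    have h1 : DifferentiableAt ℂ T σ := hTd.differentiableAt ((HP_open Λ).mem_nhds hσ)
    exact ((h1.sub_const b1).div (h1.sub_const b2)
      (sub_ne_zero.2 (hne σ hσ))).differentiableWithinAt
  have hY1 : ∀ σ ∈ HP Λ, ‖Yf σ‖ < 1 := by
    intro σ hσ
    rw [hYf]
    try simp only
    rw [norm_div, div_lt_one (norm_pos_iff.2 (sub_ne_zero.2 (hne σ hσ)))]
    exact hlt σ hσ
  refine fl_fin h hb hκ0 hκ1 hTd (x1 := Λ - 1) (x2 := Λ) (by linarith) le_rfl
    (fun σ _ h2 => hne σ h2) (prim_strip (hYd.mono fun σ hσ => hσ.2) fun σ1 h1 h2 => ?_)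
  have hσ1 : σ1 ∈ HP Λ := h2
  have hs : Continuous fun t : ℝ => σ1 + t * (2 * Real.pi * I) :=
    continuous_const.add (continuous_ofReal.mul continuous_const)
  have hYc : Continuous fun t : ℝ => Yf (σ1 + t * (2 * Real.pi * I)) :=
    hYd.continuousOn.comp_continuous hs fun t => line_mem hσ1 t
  have hE : Continuous fun t : ℝ => exp (σ1 + t * (2 * Real.pi * I)) := hs.cexp
  obtain ⟨t0, -, ht0⟩ := isCompact_Icc.exists_isMaxOn (s := Icc (0 : ℝ) 1) ⟨0, by simp⟩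
    hYc.norm.continuousOn
  refine hFAN a ha (fun t => exp (σ1 + t * (2 * Real.pi * I)) - exp σ1)
    (fun t => exp (σ1 + t * (2 * Real.pi * I)) * (2 * Real.pi * I))
    (fun t => Yf (σ1 + t * (2 * Real.pi * I))) ‖Yf (σ1 + t0 * (2 * Real.pi * I))‖
    (b1 - b2) κ (hE.sub continuous_const) (hE.mul continuous_const) hYc.continuousOn
    (hY1 _ (line_mem hσ1 t0)) (fun s hs => ht0 hs) (intW σ1) (sub_ne_zero.2 hb) hκ hκn
    fun k => ?_
  have h3 := kop ha hOP hTd hσ1 ((q * k : ℕ) : ℤ) b1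
  rw [Int.cast_natCast] at h3
  rw [← h3]
  refine intervalIntegral.integral_congr fun t _ => ?_
  try simp only
  rw [h.val hq hb hκ0 k (line_mem hσ1 t) (hne _ (line_mem hσ1 t))]

/-- **Two fixed points, infinite order.** -/
theorem inf_two_q (hLIM : S_LIM) (hFAN : S_FAN) (hSTR : S_STRIP) (hELL : S_ELL) (ha : 0 < a)
    (hq : 0 < q) (hOP : OP a Λ T) (hTd : DifferentiableOn ℂ T (HP Λ))
    (h : FLq Λ q T b1 b2 κ) (hb : b1 ≠ b2)
    (hκ0 : κ ≠ 0) (hκn : ∀ n : ℕ, 0 < n → κ ^ n ≠ 1) : ∃ b, ∀ σ ∈ HP Λ, T σ = b := by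
  have hqc : (q : ℂ) ≠ 0 := by exact_mod_cast hq.ne'
  rcases lt_trichotomy ‖κ‖ 1 with hκ | hκ | hκ
  · exact lox_q hLIM hSTR ha hq hOP hTd h hb hκ0 hκ
  · have hback : ∀ σ ∈ HP Λ, T (q * (σ / q)) = T σ := by
      intro σ _
      rw [mul_div_cancel₀ _ hqc]
    rcases hELL (Λ / q) (fun s => T (q * s)) b1 b2 κ hb hκ hκn (qdiff hq hTd) (h.fl hq)
      with ⟨b, h1⟩ | h1 | h1
    · exact ⟨b, fun σ hσ => by rw [← hback σ hσ]; exact h1 _ (qmem' hq hσ)⟩
    · refine ell1_q hFAN ha hq hOP hTd h hb hκ hκn fun σ hσ => ?_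
      have := h1 _ (qmem' hq hσ)
      rwa [hback σ hσ] at this
    · refine ell1_q hFAN ha hq hOP hTd (h.swap hκ0) hb.symm (by rw [norm_inv, hκ, inv_one])
        (fun n hn h2 => hκn n hn ?_) fun σ hσ => ?_
      · rw [inv_pow, inv_eq_one] at h2
        exact h2
      · have := h1 _ (qmem' hq hσ)
        rwa [hback σ hσ] at this
  · refine lox_q hLIM hSTR ha hq hOP hTd (h.swap hκ0) hb.symm (inv_ne_zero hκ0) ?_
    rw [norm_inv]
    exact inv_lt_one_of_one_lt₀ hκ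

/-- the monodromy in terms of one fixed point -/
def FPq (Λ : ℝ) (q : ℕ) (T : ℂ → ℂ) (b0 c0 : ℂ) : Prop := ∀ σ ∈ HP Λ,
  (T (σ + per q) - b0) * (1 + c0 * (T σ - b0)) = T σ - b0

theorem FPq.fp (h : FPq Λ q T b0 c0) (hq : 0 < q) : FP (Λ / q) (fun s => T (q * s)) b0 c0 := by
  intro s hs
  have e : (q : ℂ) * (s + 2 * Real.pi * I) = q * s + per q := by unfold per; ring
  try simp only
  rw [e]
  exact h _ (qmem hq hs)

theorem FPq.iter (h : FPq Λ q T b0 c0) (hq : 0 < q) (m : ℕ) {σ : ℂ} (hσ : σ ∈ HP Λ)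
    (h2 : T σ ≠ b0) :
    T (σ + ((q * m : ℕ) : ℂ) * (2 * Real.pi * I)) ≠ b0 ∧
      1 / (T (σ + ((q * m : ℕ) : ℂ) * (2 * Real.pi * I)) - b0) = 1 / (T σ - b0) + m * c0 := by
  have hqc : (q : ℂ) ≠ 0 := by exact_mod_cast hq.ne'
  have h1 := (h.fp hq).iter m (σ := σ / q) (qmem' hq hσ) (by
    try simp only
    rwa [mul_div_cancel₀ _ hqc])
  try simp only at h1
  rw [turn_eq hq, mul_div_cancel₀ _ hqc] at h1
  exact h1

/-- **One fixed point.** -/
theorem inf_one_q (hLIM : S_LIM) (hSTR : S_STRIP) (ha : 0 < a) (hq : 0 < q) (hOP : OP a Λ T)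
    (hTd : DifferentiableOn ℂ T (HP Λ)) (h : FPq Λ q T b0 c0) (hc0 : c0 ≠ 0) :
    ∃ b, ∀ σ ∈ HP Λ, T σ = b := by
  have hone : ∀ σ ∈ HP Λ, T (σ + per q) = b0 ↔ T σ = b0 := by
    intro σ hσ
    have h1 := h σ hσ
    constructor
    · intro h2
      rw [h2, sub_self, zero_mul] at h1
      exact sub_eq_zero.1 h1.symm
    · intro h2
      rw [h2, sub_self, mul_zero, add_zero, mul_one] at h1
      exact sub_eq_zero.1 h1
  by_cases hc : ∀ σ ∈ HP Λ, T σ = b0
  · exact ⟨b0, hc⟩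
  push Not at hc
  exfalso
  obtain ⟨x1, x2, hx, hx2, hne⟩ := strip_q hSTR hq hTd hone hc
  set Yf : ℂ → ℂ := fun σ => 1 / (T σ - b0) with hYf
  have hmem : ∀ σ : ℂ, σ.re < x2 → σ ∈ HP Λ := fun σ hσ => lt_of_lt_of_le hσ hx2
  have hYd : DifferentiableOn ℂ Yf {σ : ℂ | x1 < σ.re ∧ σ.re < x2} := by
    intro σ hσ
    have h1 : DifferentiableAt ℂ T σ := hTd.differentiableAt ((HP_open Λ).mem_nhds (hmem σ hσ.2))
    exact ((differentiableAt_const _).div (h1.sub_const b0)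
      (sub_ne_zero.2 (hne σ hσ.1 hσ.2))).differentiableWithinAt
  have hk1 : ∀ k : ℕ, ((k : ℂ) + 1) * c0 ≠ 0 := fun k =>
    mul_ne_zero (by exact_mod_cast k.succ_ne_zero) hc0
  have hz : Tendsto (fun k : ℕ => -(1 / (((k : ℂ) + 1) * c0))) atTop (𝓝 0) := by
    have h1 : Tendsto (fun k : ℕ => 1 / ((k : ℂ) + 1)) atTop (𝓝 0) :=
      tendsto_one_div_add_atTop_nhds_zero_nat
    have h2 := (h1.mul_const (c0⁻¹)).neg
    rw [zero_mul, neg_zero] at h2
    refine h2.congr fun k => ?_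
    rw [one_div, one_div, mul_inv]
  have hε : Tendsto (fun k : ℕ => -(1 / (((k : ℂ) + 1) * c0)) ^ 2) atTop (𝓝 0) := by
    have h1 := (hz.pow 2).neg
    rw [zero_pow two_ne_zero, neg_zero] at h1
    refine h1.congr fun k => ?_
    rw [neg_sq]
  have hper := prim_strip hYd (fun σ1 h1 h2 => by
    have hσ1 := hmem σ1 h2
    refine mom_lim hLIM ha hOP hTd hσ1 (Yf := Yf) ?_ (fun k => -(1 / (((k : ℂ) + 1) * c0)))
      (fun k => -(1 / (((k : ℂ) + 1) * c0)) ^ 2) (fun k => b0 + 1 / (((k : ℂ) + 1) * c0))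
      (fun k => q * (k + 1)) hz hε
      (fun k => neg_ne_zero.2 (pow_ne_zero _ (one_div_ne_zero (hk1 k))))
      fun k t => ?_
    · refine hYd.continuousOn.comp_continuous
        (continuous_const.add (continuous_ofReal.mul continuous_const)) fun t => ?_
      show x1 < (σ1 + t * (2 * Real.pi * I)).re ∧ (σ1 + t * (2 * Real.pi * I)).re < x2
      rw [line_re]
      exact ⟨h1, h2⟩
    · obtain ⟨h3, h4⟩ := h.iter hq (k + 1) (line_mem hσ1 t) (hne _ (by rw [line_re]; exact h1)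
        (by rw [line_re]; exact h2))
      have h5 : T (σ1 + t * (2 * Real.pi * I) + ((q * (k + 1) : ℕ) : ℂ) * (2 * Real.pi * I)) -
          b0 ≠ 0 := sub_ne_zero.2 h3
      rw [hYf]
      try simp only
      set A := T (σ1 + t * (2 * Real.pi * I) + ((q * (k + 1) : ℕ) : ℂ) * (2 * Real.pi * I)) with hA
      set y := 1 / (T (σ1 + t * (2 * Real.pi * I)) - b0) with hy
      set K := ((k : ℂ) + 1) * c0 with hK
      have hKy : 1 / (A - b0) = y + K := by rw [h4, hK]; push_cast; rfl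
      have hK0 : K ≠ 0 := hk1 k
      have hyK : y + K ≠ 0 := by rw [← hKy]; exact one_div_ne_zero h5
      have hA0 : A - b0 = 1 / (y + K) := by rw [← hKy, one_div_one_div]
      have e1 : A - (b0 + 1 / K) = 1 / (y + K) - 1 / K := by rw [← hA0]; ring
      rw [e1]
      have e2 : 1 - -(1 / K) * y = (y + K) / K := by field_simp; ring
      rw [e2]
      field_simp
      ring)
  set σ : ℂ := (((x1 + x2) / 2 : ℝ) : ℂ) with hσ
  have h1 : x1 < σ.re := by rw [hσ, ofReal_re]; linarith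
  have h2 : σ.re < x2 := by rw [hσ, ofReal_re]; linarith
  have h3 := iter_per hper q σ h1 h2
  have h4 := (h.iter hq 1 (hmem σ h2) (hne σ h1 h2)).2
  rw [Nat.mul_one, Nat.cast_one, one_mul] at h4
  simp only [hYf] at h3
  unfold per at h3
  rw [h3] at h4
  exact hc0 (by linear_combination -h4)

/-- multiplicative monodromy of infinite order -/
theorem irr_q (ha : 0 < a) (hq : 0 < q) (hOP : OP a Λ T) (hTd : DifferentiableOn ℂ T (HP Λ))
    (hκ0 : κ ≠ 0) (hκ : ∀ n : ℕ, 0 < n → κ ^ n ≠ 1)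
    (hT : ∀ σ ∈ HP Λ, T (σ + per q) - b0 = κ * (T σ - b0)) :
    ∀ σ ∈ HP Λ, T σ = b0 := by
  have hqc : (q : ℂ) ≠ 0 := by exact_mod_cast hq.ne'
  have hκ1 : κ ≠ 1 := by
    have := hκ 1 one_pos
    rwa [pow_one] at this
  -- the monodromy of several turns
  have htu : ∀ (k : ℤ) {σ : ℂ}, σ ∈ HP Λ →
      T (σ + ((k * q : ℤ) : ℂ) * (2 * Real.pi * I)) - b0 = κ ^ k * (T σ - b0) := by
    intro k σ hσ
    have h1 := turns (Λ := Λ / q) (T := fun s => T (q * s)) hκ0 (b0 := b0) (fun s hs => by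
      have e : (q : ℂ) * (s + 2 * Real.pi * I) = q * s + per q := by unfold per; ring
      try simp only
      rw [e]
      exact hT _ (qmem hq hs)) k (σ := σ / q) (qmem' hq hσ)
    try simp only at h1
    have e : (q : ℂ) * (σ / q + k * (2 * Real.pi * I)) =
        σ + ((k * q : ℤ) : ℂ) * (2 * Real.pi * I) := by
      push_cast
      field_simp
    rw [e, mul_div_cancel₀ _ hqc] at h1
    exact h1
  -- the infinite bounded set
  obtain ⟨ε, hZ, hZb⟩ : ∃ ε : ℤ, (range fun k : ℕ => κ ^ (ε * (k : ℤ))).Infinite ∧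
      (range fun k : ℕ => κ ^ (ε * (k : ℤ))) ⊆ closedBall (0 : ℂ) 1 := by
    have hinj : ∀ i j : ℤ, κ ^ i = κ ^ j → i = j := by
      have hlt : ∀ i j : ℤ, i < j → κ ^ i ≠ κ ^ j := by
        intro i j hij h1
        have h2 : κ ^ (j - i) = 1 := by
          rw [zpow_sub₀ hκ0, ← h1, div_self (zpow_ne_zero _ hκ0)]
        obtain ⟨n, hn⟩ : ∃ n : ℕ, (n : ℤ) = j - i := ⟨(j - i).toNat, by omega⟩
        rw [← hn, zpow_natCast] at h2
        exact hκ n (by omega) h2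
      intro i j h1
      rcases lt_trichotomy i j with h2 | h2 | h2
      · exact (hlt i j h2 h1).elim
      · exact h2
      · exact (hlt j i h2 h1.symm).elim
    rcases le_total ‖κ‖ 1 with h1 | h1
    · refine ⟨1, infinite_range_of_injective fun i j hij => ?_, ?_⟩
      · have := hinj _ _ hij
        omega
      · rintro _ ⟨k, rfl⟩
        rw [mem_closedBall_zero_iff]
        try simp only
        rw [one_mul, zpow_natCast, norm_pow]
        exact pow_le_one₀ (norm_nonneg _) h1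
    · refine ⟨-1, infinite_range_of_injective fun i j hij => ?_, ?_⟩
      · have := hinj _ _ hij
        omega
      · rintro _ ⟨k, rfl⟩
        rw [mem_closedBall_zero_iff]
        try simp only
        rw [neg_one_mul, zpow_neg, zpow_natCast, norm_inv, norm_pow]
        exact inv_le_one_of_one_le₀ (one_le_pow₀ h1)
  have hper := prim_strip (x1 := Λ - 1) (x2 := Λ) (Y := fun σ => T σ - b0)
    ((hTd.sub_const b0).mono fun σ hσ => hσ.2) (fun σ1 h1 h2 => by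
    have hσ1 : σ1 ∈ HP Λ := h2
    have hs : Continuous fun t : ℝ => σ1 + t * (2 * Real.pi * I) :=
      continuous_const.add (continuous_ofReal.mul continuous_const)
    have hTc : Continuous fun t : ℝ => T (σ1 + t * (2 * Real.pi * I)) - b0 :=
      (hTd.continuousOn.comp_continuous hs fun t => line_mem hσ1 t).sub continuous_const
    have hE : Continuous fun t : ℝ => exp (σ1 + t * (2 * Real.pi * I)) := hs.cexp
    have h1 := mom_zero ha (x := fun t => exp (σ1 + t * (2 * Real.pi * I)) - exp σ1)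
      (X := fun t => T (σ1 + t * (2 * Real.pi * I)) - b0)
      (W := fun t => exp (σ1 + t * (2 * Real.pi * I)) * (2 * Real.pi * I))
      (hE.sub continuous_const) hTc (hE.mul continuous_const) hZ hZb
      (Δ := fun z => z * (T (σ1 + 2 * Real.pi * I) - T σ1)) (by
        rintro _ ⟨k, rfl⟩ b
        try simp only
        set m : ℤ := ε * (k : ℤ) with hm
        have hσm : (σ1 + ((m * q : ℤ) : ℂ) * (2 * Real.pi * I)).re < Λ := by
          rw [two_pi_re]; exact hσ1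
        have h2 := hOP _ hσm (b0 + b)
        have e1 : T (σ1 + ((m * q : ℤ) : ℂ) * (2 * Real.pi * I) + 2 * Real.pi * I) -
            T (σ1 + ((m * q : ℤ) : ℂ) * (2 * Real.pi * I)) =
            κ ^ m * (T (σ1 + 2 * Real.pi * I) - T σ1) := by
          have h3 := htu m hσ1
          have h4 := htu m (HP_one hσ1)
          have e : σ1 + ((m * q : ℤ) : ℂ) * (2 * Real.pi * I) + 2 * Real.pi * I =
              σ1 + 2 * Real.pi * I + ((m * q : ℤ) : ℂ) * (2 * Real.pi * I) := by ring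
          rw [e]
          linear_combination h4 - h3
        rw [← e1, h2]
        unfold seg kers
        refine intervalIntegral.integral_congr fun t _ => ?_
        have e2 : σ1 + ((m * q : ℤ) : ℂ) * (2 * Real.pi * I) + 2 * Real.pi * I -
            (σ1 + ((m * q : ℤ) : ℂ) * (2 * Real.pi * I)) = 2 * Real.pi * I := by ring
        have e3 : σ1 + ((m * q : ℤ) : ℂ) * (2 * Real.pi * I) + t * (2 * Real.pi * I) =
            σ1 + t * (2 * Real.pi * I) + ((m * q : ℤ) : ℂ) * (2 * Real.pi * I) := by ring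
        try simp only
        rw [e2, e3, exp_turns, exp_turns]
        have h3 := htu m (line_mem hσ1 t)
        have e4 : T (σ1 + t * (2 * Real.pi * I) + ((m * q : ℤ) : ℂ) * (2 * Real.pi * I)) -
            (b0 + b) = κ ^ m * (T (σ1 + t * (2 * Real.pi * I)) - b0) - b := by
          rw [← h3]; ring
        rw [e4]
        ring)
    rw [← h1]
    refine intervalIntegral.integral_congr fun t _ => ?_
    try simp only
    ring)
  refine fin_strip hTd (x1 := Λ - 1) (by linarith) le_rfl fun σ h1 h2 => ?_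
  have h3 := iter_per (Y := fun σ => T σ - b0) hper q σ h1 h2
  try simp only at h3
  rw [hT σ h2] at h3
  have h4 : (κ - 1) * (T σ - b0) = 0 := by linear_combination h3
  exact sub_eq_zero.1 ((mul_eq_zero.1 h4).resolve_left (sub_ne_zero.2 hκ1))

end Pool.Agent.Helper6.SF
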