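import Pool.Graph.R_pool_sql_team_seeded_b677cdb8.E8helper32.SA.Df

/-!
# Equal orders: the two levels, with a general factor
-/

set_option autoImplicit false

open Complex MeasureTheory Metric Set Filter Topology ComplexConjugate

namespace Pool.Agent.Helper6.SF

open Pool.Agent.Y245.SC (seg t_SEG)
open Pool.Agent.E8helper32.SA

variable {a Λ : ℝ} {T W D : ℂ → ℂ} {w0 d0 : ℂ} {B B' : ℝ}

/-- bounded in half-strips, with a limit -/
structure WD (Λ : ℝ) (W : ℂ → ℂ) (B : ℝ) (w0 : ℂ) : Prop where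
  hb : ∀ σ : ℂ, σ.re ≤ Λ - 1 → |σ.im| ≤ 3 * Real.pi → ‖W σ‖ ≤ B
  hl : ∀ y : ℂ, Tendsto (fun x : ℝ => W (y - x)) atTop (𝓝 w0)

theorem WD.B0 (h : WD Λ W B w0) : 0 ≤ B := by
  have h1 := h.hb ((Λ - 1 : ℝ) : ℂ) (by rw [ofReal_re]) (by
    rw [ofReal_im, abs_zero]
    have := Real.pi_pos
    positivity)
  exact (norm_nonneg _).trans h1

/-- the shifted point -/
noncomputable def sj (j : ℕ) (τ : ℝ) (y : ℂ) : ℂ := y + (-(Real.log τ : ℂ) + j * (2 * Real.pi * I))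

theorem sj_re (j : ℕ) (τ : ℝ) (y : ℂ) : (sj j τ y).re = y.re - Real.log τ := sh_re j τ y

theorem sj_im (j : ℕ) (τ : ℝ) (y : ℂ) : (sj j τ y).im = y.im + j * (2 * Real.pi) := by
  unfold sj
  have h1 : ((j : ℂ) * (2 * Real.pi * I)).im = j * (2 * Real.pi) := by
    have : ((j : ℂ) * (2 * Real.pi * I)) = ((j * (2 * Real.pi) : ℝ) : ℂ) * I := by
      push_cast; ring
    rw [this, im_ofReal_mul, I_im, mul_one]
  rw [add_im, add_im, h1, neg_im, ofReal_im]
  ring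

theorem sj_one (τ : ℝ) (y : ℂ) : sj 1 τ y = sj 0 τ y + 2 * Real.pi * I := by
  unfold sj
  push_cast
  ring

theorem WD.bd (h : WD Λ W B w0) {j : ℕ} (hj : j ≤ 1) {τ : ℝ} {y : ℂ}
    (hy : y.re ≤ Λ - 1 + Real.log τ) (him : |y.im| ≤ Real.pi) : ‖W (sj j τ y)‖ ≤ B := by
  refine h.hb _ (by rw [sj_re]; linarith) ?_
  rw [sj_im]
  have hp := Real.pi_pos
  have hj' : (j : ℝ) ≤ 1 := by exact_mod_cast hj
  have hj0 : (0 : ℝ) ≤ j := Nat.cast_nonneg j
  have h1 := abs_le.1 him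
  rw [abs_le]
  constructor <;> nlinarith [h1.1, h1.2]

theorem WD.lim (h : WD Λ W B w0) (j : ℕ) (y : ℂ) :
    Tendsto (fun τ => W (sj j τ y)) atTop (𝓝 w0) := by
  have h1 := (h.hl (y + j * (2 * Real.pi * I))).comp Real.tendsto_log_atTop
  refine h1.congr fun τ => ?_
  simp only [Function.comp_apply]
  unfold sj
  congr 1
  ring

theorem KjW (hT : ∀ σ : ℂ, σ.re < Λ → T σ = W σ * exp (-σ)) (j : ℕ) {τ : ℝ}
    (hτ : 0 < τ) {y : ℂ} (hy : y.re < Λ + Real.log τ) :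
    Kj a T j τ y = exp (exp y + -(a * W (sj j τ y) * exp (-y))) * exp y := by
  have h1 := sh_re j τ y
  have hτc : (τ : ℂ) ≠ 0 := ofReal_ne_zero.2 hτ.ne'
  unfold Kj Ji
  rw [hT _ (by rw [h1]; linarith), exp_neg, sh_exp j hτ]
  have e1 : (τ : ℂ) * (exp y / τ) = exp y := by field_simp
  have e2 : (a : ℂ) / τ * (W (y + (-(Real.log τ : ℂ) + j * (2 * Real.pi * I))) *
      (exp y / τ)⁻¹) = a * W (sj j τ y) * exp (-y) := by
    unfold sj
    rw [exp_neg]
    field_simp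
  rw [e2, mul_left_comm, e1, sub_eq_add_neg]

theorem pi_im : (Real.pi * I : ℂ).im = Real.pi := by simp

theorem pi_im' : (-(Real.pi * I) : ℂ).im = -Real.pi := by simp

/-- **The first level.** -/
theorem levW_one (ha : 0 < a) (hJB : JB a Λ T)
    (hTd : DifferentiableOn ℂ T (re ⁻¹' Iio Λ)) (hW : WD Λ W B w0)
    (hT : ∀ σ : ℂ, σ.re < Λ → T σ = W σ * exp (-σ)) : Hk 1 (a * w0) = 0 := by
  have hΛ1 : Λ - 1 < Λ := by linarith
  have hB0 := hW.B0
  have hM : Tendsto (fun τ : ℝ => Λ - 1 + Real.log τ) atTop atTop :=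
    tendsto_atTop_add_const_left _ _ Real.tendsto_log_atTop
  have hlog := Real.tendsto_log_atTop.eventually_gt_atTop (|Λ| + 1)
  refine hankel (K := fun τ => Kj a T 0 τ) (K0 := hF 1 (a * w0)) (M := fun τ => Λ - 1 + Real.log τ)
    (g := fun ρ => Real.exp (a * B) * gs 1 ρ) (C := Real.exp 1 * Real.exp (a * B)) hM
    ((gs_int 1).const_mul _) ?_ ?_ ?_ ?_ ?_
  · refine Eventually.of_forall fun τ => ?_
    have h1 := Kj_diff (a := a) hTd 0 τ
    have e : Λ - 1 + Real.log τ + 1 = Λ + Real.log τ := by ring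
    rw [e]
    exact h1
  · intro y
    have h1 : Tendsto (fun τ => exp (exp y + -(a * W (sj 0 τ y) * exp (-y))) * exp y) atTop
        (𝓝 (exp (exp y + -(a * w0 * exp (-y))) * exp y)) :=
      ((continuous_exp.tendsto _).comp
        (tendsto_const_nhds.add (((hW.lim 0 y).const_mul _).mul_const _).neg)).mul_const _
    have h2 : exp (exp y + -(a * w0 * exp (-y))) * exp y = hF 1 (a * w0) y := by
      unfold hF
      rw [← exp_add]
      congr 1
      push_cast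
      ring
    rw [h2] at h1
    refine h1.congr' ?_
    filter_upwards [Real.tendsto_log_atTop.eventually_gt_atTop (y.re - Λ),
      eventually_gt_atTop 0] with τ h3 h4
    exact (KjW hT 0 h4 (by linarith)).symm
  · filter_upwards [hlog, eventually_gt_atTop 0] with τ h3 h4 θ hθ
    have h5 : (θ * I : ℂ).re ≤ Λ - 1 + Real.log τ := by
      rw [theta_re]
      have := neg_abs_le Λ
      linarith
    have him : |(θ * I : ℂ).im| ≤ Real.pi := by
      rw [im_ofReal_mul, I_im, mul_one]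
      exact abs_le.2 ⟨hθ.1, hθ.2⟩
    rw [KjW hT 0 h4 (by linarith)]
    have h6 := exp_bd ha.le (hW.bd (Nat.zero_le 1) h5 him) (e := exp (-(θ * I))) (by
      rw [norm_exp, neg_re, theta_re, neg_zero, Real.exp_zero])
    rw [exp_add, norm_mul, norm_mul, norm_exp_ofReal_mul_I, mul_one]
    refine mul_le_mul ?_ h6 (norm_nonneg _) (Real.exp_pos _).le
    rw [norm_exp]
    refine Real.exp_le_exp.2 ((re_le_norm _).trans ?_)
    rw [norm_exp_ofReal_mul_I]
  · have key : ∀ c : ℂ, c.re = 0 → |c.im| ≤ Real.pi →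
        (∀ ρ : ℝ, exp (ρ + c) = ((-Real.exp ρ : ℝ) : ℂ)) →
        ∀ τ : ℝ, 0 < τ → ∀ ρ ∈ Ioc 0 (Λ - 1 + Real.log τ),
        ‖Kj a T 0 τ (ρ + c)‖ ≤ Real.exp (a * B) * gs 1 ρ := by
      intro c hc hci hce τ h4 ρ hρ
      have h5 : (ρ + c : ℂ).re ≤ Λ - 1 + Real.log τ := by
        rw [ray_re hc]; exact hρ.2
      have him : |(ρ + c : ℂ).im| ≤ Real.pi := by rwa [add_im, ofReal_im, zero_add]
      rw [KjW hT 0 h4 (by linarith)]
      have h6 := exp_bd ha.le (hW.bd (Nat.zero_le 1) h5 him) (enorm_ray hc hρ.1.le)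
      rw [exp_add, norm_mul, norm_mul, hce, norm_exp, ofReal_re, norm_real,
        norm_neg, Real.norm_of_nonneg (Real.exp_pos _).le]
      unfold gs
      have h7 : Real.exp (1 * ρ - Real.exp ρ) = Real.exp (-Real.exp ρ) * Real.exp ρ := by
        rw [← Real.exp_add]; congr 1; ring
      rw [h7]
      calc Real.exp (-Real.exp ρ) * ‖exp (-(a * W (sj 0 τ (ρ + c)) * exp (-(ρ + c))))‖ *
            Real.exp ρ ≤ Real.exp (-Real.exp ρ) * Real.exp (a * B) * Real.exp ρ := by gcongr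
        _ = _ := by ring
    filter_upwards [eventually_gt_atTop 0] with τ h4 ρ hρ
    exact ⟨key _ pi_re (by rw [pi_im, abs_of_pos Real.pi_pos]) exp_pi τ h4 ρ hρ,
      key _ pi_re' (by rw [pi_im', abs_neg, abs_of_pos Real.pi_pos]) exp_pi' τ h4 ρ hρ⟩
  · have h1 := Kj_far hJB hΛ1 0 0
    simp only [Real.rpow_zero, ofReal_one, one_mul] at h1
    exact h1

theorem sj_pow (ν : ℝ) {τ : ℝ} (hτ : 0 < τ) (y : ℂ) :
    ((τ ^ ν : ℝ) : ℂ) * exp ((ν : ℂ) * sj 0 τ y) = exp ((ν : ℂ) * y) := by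
  unfold sj
  rw [Real.rpow_def_of_pos hτ, ofReal_exp, ← exp_add]
  congr 1
  push_cast
  ring

/-- the factorisation -/
theorem KjW_sub (hT : ∀ σ : ℂ, σ.re < Λ → T σ = W σ * exp (-σ)) {ν : ℝ}
    (hWD : ∀ σ : ℂ, σ.re < Λ → W σ - W (σ + 2 * Real.pi * I) = exp ((ν : ℂ) * σ) * D σ)
    {τ : ℝ} (hτ : 0 < τ) {y : ℂ} (hy : y.re < Λ + Real.log τ) :
    Kj a T 0 τ y - Kj a T 1 τ y = exp (exp y + -(a * W (sj 1 τ y) * exp (-y))) * exp y *
      (exp (-(a * (exp ((ν : ℂ) * sj 0 τ y) * D (sj 0 τ y)) * exp (-y))) - 1) := by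
  rw [KjW hT 0 hτ hy, KjW hT 1 hτ hy]
  rw [← hWD _ (by rw [sj_re]; linarith), ← sj_one]
  have h1 : exp (exp y + -(a * W (sj 0 τ y) * exp (-y))) =
      exp (exp y + -(a * W (sj 1 τ y) * exp (-y))) *
        exp (-(a * (W (sj 0 τ y) - W (sj 1 τ y)) * exp (-y))) := by
    rw [← exp_add]
    congr 1
    ring
  rw [h1]
  ring

/-- **The second level.** -/
theorem levW_two (ha : 0 < a) (hJB : JB a Λ T)
    (hTd : DifferentiableOn ℂ T (re ⁻¹' Iio Λ)) (hW : WD Λ W B w0)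
    (hT : ∀ σ : ℂ, σ.re < Λ → T σ = W σ * exp (-σ)) {ν : ℝ} (hD : WD Λ D B' d0) (hd0 : d0 ≠ 0)
    (hWD : ∀ σ : ℂ, σ.re < Λ → W σ - W (σ + 2 * Real.pi * I) = exp ((ν : ℂ) * σ) * D σ) :
    Hk ν (a * w0) = 0 := by
  have hΛ1 : Λ - 1 < Λ := by linarith
  have hB0 := hW.B0
  have hB'0 := hD.B0
  have hM : Tendsto (fun τ : ℝ => Λ - 1 + Real.log τ) atTop atTop :=
    tendsto_atTop_add_const_left _ _ Real.tendsto_log_atTop
  have hlog := Real.tendsto_log_atTop.eventually_gt_atTop (|Λ| + 1)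
  -- the bound of the last factor
  have hz : ∀ τ : ℝ, 0 < τ → ∀ y : ℂ, y.re ≤ Λ - 1 + Real.log τ → |y.im| ≤ Real.pi →
      ‖exp (-y)‖ ≤ 1 →
      ‖((τ ^ ν : ℝ) : ℂ) * (exp (-(a * (exp ((ν : ℂ) * sj 0 τ y) * D (sj 0 τ y)) *
        exp (-y))) - 1)‖ ≤
        a * Real.exp (ν * y.re) * B' * ‖exp (-y)‖ * Real.exp (a * (2 * B)) := by
    intro τ hτ y hy him he
    set z := -(a * (exp ((ν : ℂ) * sj 0 τ y) * D (sj 0 τ y)) * exp (-y)) with hzdef
    have hm := hW.bd (Nat.zero_le 1) hy him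
    have hm1 := hW.bd (le_refl 1) hy him
    have h1 : ‖z‖ ≤ a * (2 * B) := by
      rw [hzdef, norm_neg, norm_mul, norm_mul, norm_real, Real.norm_of_nonneg ha.le,
        ← hWD _ (by rw [sj_re]; linarith), ← sj_one]
      have h2 : ‖W (sj 0 τ y) - W (sj 1 τ y)‖ ≤ 2 * B := by
        refine (norm_sub_le _ _).trans ?_
        linarith
      calc a * ‖W (sj 0 τ y) - W (sj 1 τ y)‖ * ‖exp (-y)‖ ≤ a * (2 * B) * 1 := by gcongr
        _ = _ := mul_one _
    have h2 : ‖((τ ^ ν : ℝ) : ℂ) * z‖ ≤ a * Real.exp (ν * y.re) * B' * ‖exp (-y)‖ := by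
      have e : ((τ ^ ν : ℝ) : ℂ) * z = -(a * exp ((ν : ℂ) * y) * D (sj 0 τ y) * exp (-y)) := by
        rw [hzdef, ← sj_pow ν hτ y]
        ring
      rw [e, norm_neg, norm_mul, norm_mul, norm_mul, norm_real, Real.norm_of_nonneg ha.le,
        norm_exp ((ν : ℂ) * y), re_ofReal_mul]
      have := hD.bd (Nat.zero_le 1) hy him
      gcongr
    rw [norm_mul] at h2 ⊢
    calc ‖((τ ^ ν : ℝ) : ℂ)‖ * ‖exp z - 1‖ ≤ ‖((τ ^ ν : ℝ) : ℂ)‖ * (‖z‖ * Real.exp ‖z‖) := by
          gcongr; exact exp_one_bd z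
      _ = (‖((τ ^ ν : ℝ) : ℂ)‖ * ‖z‖) * Real.exp ‖z‖ := by ring
      _ ≤ _ := by gcongr
  have hmain := hankel (K := fun τ y => ((τ ^ ν : ℝ) : ℂ) * (Kj a T 0 τ y - Kj a T 1 τ y))
    (K0 := fun y => -(a * d0) * hF ν (a * w0) y) (M := fun τ => Λ - 1 + Real.log τ)
    (g := fun ρ => a * B' * Real.exp (a * (2 * B)) * Real.exp (a * B) * gs ν ρ)
    (C := a * B' * Real.exp (a * (2 * B)) * Real.exp (a * B) * Real.exp 1) hM
    ((gs_int ν).const_mul _) ?_ ?_ ?_ ?_ ?_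
  · have e : (∫ θ in (-Real.pi)..Real.pi, -(a * d0) * hF ν (a * w0) (θ * I) * I) +
        (∫ ρ in Ioi (0 : ℝ), -(a * d0) * hF ν (a * w0) (ρ + Real.pi * I)) -
        (∫ ρ in Ioi (0 : ℝ), -(a * d0) * hF ν (a * w0) (ρ + -(Real.pi * I))) =
        -(a * d0) * Hk ν (a * w0) := by
      unfold Hk
      rw [integral_const_mul, integral_const_mul]
      simp only [mul_assoc]
      rw [intervalIntegral.integral_const_mul]
      ring
    have h1 : -((a : ℂ) * d0) * Hk ν (a * w0) = 0 := by rw [← e]; exact hmain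
    refine (mul_eq_zero.1 h1).resolve_left ?_
    exact neg_ne_zero.2 (mul_ne_zero (ofReal_ne_zero.2 ha.ne') hd0)
  · refine Eventually.of_forall fun τ => ?_
    have e : Λ - 1 + Real.log τ + 1 = Λ + Real.log τ := by ring
    rw [e]
    exact ((Kj_diff (a := a) hTd 0 τ).sub (Kj_diff (a := a) hTd 1 τ)).const_mul _
  · intro y
    have hev : ∀ᶠ τ : ℝ in atTop, ((τ ^ ν : ℝ) : ℂ) * (Kj a T 0 τ y - Kj a T 1 τ y) =
        exp (exp y + -(a * W (sj 1 τ y) * exp (-y))) * exp y *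
        (((τ ^ ν : ℝ) : ℂ) *
          (exp (-(a * (exp ((ν : ℂ) * sj 0 τ y) * D (sj 0 τ y)) * exp (-y))) - 1)) := by
      filter_upwards [Real.tendsto_log_atTop.eventually_gt_atTop (y.re - Λ),
        eventually_gt_atTop 0] with τ h3 h4
      rw [KjW_sub hT hWD h4 (by linarith)]
      ring
    refine Tendsto.congr' (hev.mono fun τ h => h.symm) ?_
    have l1 : Tendsto (fun τ => exp (exp y + -(a * W (sj 1 τ y) * exp (-y))) * exp y) atTop
        (𝓝 (exp (exp y + -(a * w0 * exp (-y))) * exp y)) :=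
      ((continuous_exp.tendsto _).comp
        (tendsto_const_nhds.add (((hW.lim 1 y).const_mul _).mul_const _).neg)).mul_const _
    have lD := hD.lim 0 y
    have l2 : Tendsto (fun τ => ((τ ^ ν : ℝ) : ℂ) *
        -(a * (exp ((ν : ℂ) * sj 0 τ y) * D (sj 0 τ y)) * exp (-y))) atTop
        (𝓝 (-(a * exp ((ν : ℂ) * y) * d0 * exp (-y)))) := by
      have h2 : Tendsto (fun τ => -(a * exp ((ν : ℂ) * y) * D (sj 0 τ y) * exp (-y))) atTop
          (𝓝 (-(a * exp ((ν : ℂ) * y) * d0 * exp (-y)))) :=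
        ((lD.const_mul _).mul_const _).neg
      refine h2.congr' ?_
      filter_upwards [eventually_gt_atTop 0] with τ hτ
      rw [← sj_pow ν hτ y]
      ring
    have l3 : Tendsto (fun τ => -(a * (exp ((ν : ℂ) * sj 0 τ y) * D (sj 0 τ y)) *
        exp (-y))) atTop (𝓝 0) := by
      have h2 : Tendsto (fun τ => -(a * (W (sj 0 τ y) - W (sj 1 τ y)) * exp (-y))) atTop
          (𝓝 (-(a * (w0 - w0) * exp (-y)))) :=
        ((((hW.lim 0 y).sub (hW.lim 1 y)).const_mul _).mul_const _).neg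
      rw [sub_self, mul_zero, zero_mul, neg_zero] at h2
      refine h2.congr' ?_
      filter_upwards [Real.tendsto_log_atTop.eventually_ge_atTop (y.re - (Λ - 1))] with τ h3
      rw [← hWD _ (by rw [sj_re]; linarith), ← sj_one]
    have l4 : Tendsto (fun τ => ((τ ^ ν : ℝ) : ℂ) *
        (exp (-(a * (exp ((ν : ℂ) * sj 0 τ y) * D (sj 0 τ y)) * exp (-y))) - 1)) atTop
        (𝓝 (-(a * exp ((ν : ℂ) * y) * d0 * exp (-y)))) := by
      have h5 : Tendsto (fun τ => ((τ ^ ν : ℝ) : ℂ) *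
          (exp (-(a * (exp ((ν : ℂ) * sj 0 τ y) * D (sj 0 τ y)) * exp (-y))) - 1 -
          -(a * (exp ((ν : ℂ) * sj 0 τ y) * D (sj 0 τ y)) * exp (-y)))) atTop (𝓝 0) := by
        have h6 := (l2.norm.mul (l3.norm.mul ((Real.continuous_exp.tendsto _).comp l3.norm)))
        rw [norm_zero, zero_mul, mul_zero] at h6
        refine squeeze_zero_norm (fun τ => ?_) h6
        simp only [Function.comp_apply]
        rw [norm_mul, norm_mul]
        have h7 := exp_two_bd (-(a * (exp ((ν : ℂ) * sj 0 τ y) * D (sj 0 τ y)) * exp (-y)))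
        generalize -(a * (exp ((ν : ℂ) * sj 0 τ y) * D (sj 0 τ y)) * exp (-y)) = z at h7 ⊢
        calc ‖((τ ^ ν : ℝ) : ℂ)‖ * ‖exp z - 1 - z‖
            ≤ ‖((τ ^ ν : ℝ) : ℂ)‖ * (‖z‖ ^ 2 * Real.exp ‖z‖) := by gcongr
          _ = _ := by ring
      have h6 := h5.add l2
      rw [zero_add] at h6
      refine h6.congr fun τ => ?_
      ring
    have l5 := l1.mul l4
    have e : exp (exp y + -(a * w0 * exp (-y))) * exp y *
        -(a * exp ((ν : ℂ) * y) * d0 * exp (-y)) = -(a * d0) * hF ν (a * w0) y := by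
      unfold hF
      have e1 : exp (exp y - a * w0 * exp (-y) + (ν : ℂ) * y) =
          exp (exp y + -(a * w0 * exp (-y))) * exp ((ν : ℂ) * y) := by
        rw [← exp_add]
        congr 1
      have e2 : exp y * exp (-y) = 1 := by rw [← exp_add, add_neg_cancel, exp_zero]
      rw [e1]
      linear_combination -(exp (exp y + -(a * w0 * exp (-y))) * (a * exp ((ν : ℂ) * y) * d0)) * e2
    rw [e] at l5
    exact l5
  · filter_upwards [hlog, eventually_gt_atTop 0] with τ h3 h4 θ hθ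
    have h5 : (θ * I : ℂ).re ≤ Λ - 1 + Real.log τ := by
      rw [theta_re]
      have := neg_abs_le Λ
      linarith
    have him : |(θ * I : ℂ).im| ≤ Real.pi := by
      rw [im_ofReal_mul, I_im, mul_one]
      exact abs_le.2 ⟨hθ.1, hθ.2⟩
    have he : ‖exp (-(θ * I) : ℂ)‖ = 1 := by
      rw [norm_exp, neg_re, theta_re, neg_zero, Real.exp_zero]
    have h6 := exp_bd ha.le (hW.bd (le_refl 1) h5 him) he.le
    have h7 := hz τ h4 _ h5 him he.le
    rw [he, theta_re, mul_zero, Real.exp_zero, mul_one, mul_one] at h7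
    rw [KjW_sub hT hWD h4 (by linarith), mul_left_comm, norm_mul, norm_mul,
      norm_exp_ofReal_mul_I, mul_one, exp_add, norm_mul]
    have h8 : ‖exp (exp (θ * I))‖ ≤ Real.exp 1 := by
      rw [norm_exp]
      refine Real.exp_le_exp.2 ((re_le_norm _).trans ?_)
      rw [norm_exp_ofReal_mul_I]
    calc ‖exp (exp (θ * I))‖ * ‖exp (-(a * W (sj 1 τ (θ * I)) * exp (-(θ * I))))‖ *
          ‖((τ ^ ν : ℝ) : ℂ) * (exp (-(a * (exp ((ν : ℂ) * sj 0 τ (θ * I)) *
            D (sj 0 τ (θ * I))) * exp (-(θ * I)))) - 1)‖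
        ≤ Real.exp 1 * Real.exp (a * B) * (a * B' * Real.exp (a * (2 * B))) := by gcongr
      _ = _ := by ring
  · have key : ∀ c : ℂ, c.re = 0 → |c.im| ≤ Real.pi →
        (∀ ρ : ℝ, exp (ρ + c) = ((-Real.exp ρ : ℝ) : ℂ)) →
        ∀ τ : ℝ, 0 < τ → ∀ ρ ∈ Ioc 0 (Λ - 1 + Real.log τ),
        ‖((τ ^ ν : ℝ) : ℂ) * (Kj a T 0 τ (ρ + c) - Kj a T 1 τ (ρ + c))‖ ≤
        a * B' * Real.exp (a * (2 * B)) * Real.exp (a * B) * gs ν ρ := by
      intro c hc hci hce τ h4 ρ hρ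
      have h5 : (ρ + c : ℂ).re ≤ Λ - 1 + Real.log τ := by
        rw [ray_re hc]; exact hρ.2
      have him : |(ρ + c : ℂ).im| ≤ Real.pi := by rwa [add_im, ofReal_im, zero_add]
      have he := enorm_ray hc hρ.1.le
      have h6 := exp_bd ha.le (hW.bd (le_refl 1) h5 him) he
      have h7 := hz τ h4 _ h5 him he
      rw [ray_re hc, norm_exp (-(ρ + c : ℂ)), neg_re, ray_re hc] at h7
      rw [KjW_sub hT hWD h4 (by linarith), mul_left_comm, norm_mul, norm_mul, exp_add, norm_mul,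
        hce, norm_real, norm_neg, Real.norm_of_nonneg (Real.exp_pos _).le, norm_exp, ofReal_re]
      calc Real.exp (-Real.exp ρ) * ‖exp (-(a * W (sj 1 τ (ρ + c)) * exp (-(ρ + c))))‖ *
            Real.exp ρ * ‖((τ ^ ν : ℝ) : ℂ) * (exp (-(a * (exp ((ν : ℂ) * sj 0 τ (ρ + c)) *
              D (sj 0 τ (ρ + c))) * exp (-(ρ + c)))) - 1)‖
          ≤ Real.exp (-Real.exp ρ) * Real.exp (a * B) * Real.exp ρ *
            (a * Real.exp (ν * ρ) * B' * Real.exp (-ρ) * Real.exp (a * (2 * B))) := by gcongr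
        _ = (a * B' * Real.exp (a * (2 * B)) * Real.exp (a * B)) *
            (Real.exp (-Real.exp ρ) * Real.exp ρ * Real.exp (ν * ρ) * Real.exp (-ρ)) := by ring
        _ = _ := by
          unfold gs
          rw [← Real.exp_add, ← Real.exp_add, ← Real.exp_add]
          congr 2
          ring
    filter_upwards [eventually_gt_atTop 0] with τ h4 ρ hρ
    exact ⟨key _ pi_re (by rw [pi_im, abs_of_pos Real.pi_pos]) exp_pi τ h4 ρ hρ,
      key _ pi_re' (by rw [pi_im', abs_neg, abs_of_pos Real.pi_pos]) exp_pi' τ h4 ρ hρ⟩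
  · have h1 := (Kj_far hJB hΛ1 0 ν).sub (Kj_far hJB hΛ1 1 ν)
    rw [sub_zero] at h1
    refine h1.congr fun τ => ?_
    rw [← mul_sub]
    have hV : Convex ℝ (re ⁻¹' Iio (Λ + Real.log τ) : Set ℂ) := convex_halfSpace_re_lt _
    refine (seg_lin hV (Kj_diff (a := a) hTd 0 τ) (Kj_diff (a := a) hTd 1 τ) _ ?_ ?_).symm
    · rw [mem_preimage, ray_re pi_re', mem_Iio]
      linarith
    · rw [mem_preimage, ray_re pi_re, mem_Iio]
      linarith

end Pool.Agent.Helper6.SF
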