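import Pool.Agent.Helper6.SF.Inf
import Pool.Agent.Helper6.SF.Eqo

/-!
# The local theorem for virtually Moebius monodromy
-/

set_option autoImplicit false

open Complex MeasureTheory Metric Set Filter Topology ComplexConjugate

namespace Pool.Agent.Helper6.SF

open Pool.Agent.Results.MP_83fd13_an.BranchSingularities
open Pool.Agent.Y245.SC (seg t_SEG Ess)
open Pool.Agent.Y245.UC (Rf VG)
open Pool.Agent.E8helper32.SA (per per_re exp_add_per log_lift log_eq eqOn_convex branch_norm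
  branch_diff branch_congr branch_ball ext_of_slow convex_cont exp_sub_lt Fz_mem Ji JB zet F01
  F01_one F01_poch)
open Pool.Agent.E8helper32.SL
open Pool.Agent.E8helper32.SP
open Pool.Agent.E8helper32.SQ

variable {φ : ℂ → ℂ} {r : ℝ} {w1 : ℂ} {L : ℝ} {G : ℂ → ℂ} {Λ : ℝ} {ℓ : ℂ → ℂ}
  {T : ℂ → ℂ} {a b c d b1 b2 κ : ℂ} {q : ℕ}

/-- a branch of the Schwarz function with a cusp at infinity and a coincidence of zeros of Bessel
functions -/
def BCusp (φ : ℂ → ℂ) (r lam : ℝ) (N : ℕ) (B : Set ℂ) : Prop :=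
  ∃ (z0 : ℂ) (q n : ℕ) (δ : ℝ) (E D : ℂ → ℂ), (∃ w ∈ B, z0 = φ (1 / conj w)) ∧ 2 ≤ q ∧ q ≤ N ∧
    ¬ q ∣ n ∧ 2 * q < n ∧
    0 < δ ∧ DifferentiableOn ℂ E (ball 0 δ) ∧ DifferentiableOn ℂ D (ball 0 δ) ∧ E 0 ≠ 0 ∧
    D 0 ≠ 0 ∧ (∀ t ∈ ball (0 : ℂ) δ, z0 + t ^ q ∈ φ '' ball 0 1) ∧
    (∀ t ∈ ball (0 : ℂ) δ, t ≠ 0 → ∃ (u : ℂ) (g : ℂ → ℂ), u ∈ ball (0 : ℂ) 1 ∧ u ≠ 0 ∧
      φ u = z0 + t ^ q ∧ Branch φ r (1 / conj u) g ∧
      ∀ᶠ s in 𝓝 t, ∀ v ∈ ball (0 : ℂ) 1, φ v = z0 + s ^ q → E s / s ^ q = conj (g (1 / conj v))) ∧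
    (∀ t ∈ ball (0 : ℂ) δ, ∀ t' ∈ ball (0 : ℂ) δ, t ≠ 0 → t' ≠ 0 →
      t ^ q = t' ^ q → E t / t ^ q = E t' / t' ^ q → t = t') ∧
    (∀ t ∈ ball (0 : ℂ) δ, E t - E (exp (2 * Real.pi * I / q) * t) = t ^ n * D t) ∧
    F01 1 (lam / 4 * E 0) = 0 ∧ F01 (-(n / q)) (lam / 4 * E 0) = 0

theorem BCusp.mono {lam : ℝ} {N N' : ℕ} {B B' : Set ℂ} (h : BCusp φ r lam N B) (hN : N ≤ N')
    (hB : B ⊆ B') : BCusp φ r lam N' B' := by
  obtain ⟨z0, q, n, δ, E, D, ⟨w, hw, hz⟩, h2, h3, h4⟩ := h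
  exact ⟨z0, q, n, δ, E, D, ⟨w, hB hw, hz⟩, h2, h3.trans hN, h4⟩

theorem conj_perq (q : ℕ) : conj (per q) = -per q := by
  unfold per
  rw [map_mul, map_mul, map_mul, conj_I, conj_ofReal, Complex.conj_ofNat, map_natCast]
  ring

theorem per_ne' (hq : 0 < q) : per q ≠ 0 := by
  have hqc : (q : ℂ) ≠ 0 := by exact_mod_cast hq.ne'
  unfold per
  exact mul_ne_zero hqc two_pi_I_ne_zero

theorem hper1 (σ : ℂ) : σ + 2 * Real.pi * I = σ + per 1 := by rw [per_one]

/-- the monodromy of `T` from the one of `G` -/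
theorem Ts_MRq (hC : Co φ r w1 L Λ ℓ)
    (hG : ∀ τ : ℂ, τ.re < L → G (τ + per q) * (c * G τ + d) = a * G τ + b) {σ : ℂ}
    (hσ : σ ∈ HP Λ) : Ts G ℓ (σ + per q) * (conj c * Ts G ℓ σ + -conj a) =
      -conj d * Ts G ℓ σ + conj b := by
  have hσ' : σ.re < Λ := hσ
  unfold Ts
  rw [exp_add_per]
  have h1 : conj (σ + per q + ℓ (exp σ)) = conj (σ + ℓ (exp σ)) - per q := by
    rw [map_add, map_add, conj_perq, map_add]
    ring
  have h2 := hG (conj (σ + ℓ (exp σ)) - per q) (by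
    rw [sub_re, per_re, sub_zero, conj_re]
    exact hC.re_lt hσ')
  rw [sub_add_cancel] at h2
  rw [h1]
  generalize conj (σ + ℓ (exp σ)) = u at h2 ⊢
  have h3 := congrArg conj h2
  rw [map_mul, map_add, map_mul, map_add, map_mul] at h3
  linear_combination h3

/-- the points near `w1`, with bounds -/
theorem inv_co2 (hD : D0 φ r) (hw1 : 1 < ‖w1‖) (hC : Co φ r w1 L Λ ℓ) :
    ∃ (δ B : ℝ), 0 < δ ∧ 0 ≤ B ∧ ∀ τ : ℂ, ‖exp τ‖ < δ → ∃ σ : ℂ, σ.re < Λ ∧
      σ + ℓ (exp σ) = conj τ ∧ ‖exp σ‖ ≤ Real.exp Λ / 2 ∧ τ.re - B ≤ σ.re ∧ ‖σ‖ ≤ ‖τ‖ + B := by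
  obtain ⟨δ, B1, hδ, h⟩ := inv_co hD hw1 hC
  obtain ⟨B, hB⟩ := (isCompact_closedBall (0 : ℂ) (Real.exp Λ / 2)).exists_bound_of_continuousOn
    (hC.hℓ.continuousOn.mono (closedBall_subset_ball (half_lt_self (Real.exp_pos Λ))))
  refine ⟨δ, |B| + |B1|, hδ, by positivity, fun τ hτ => ?_⟩
  obtain ⟨σ, h1, h2, h3, h4'⟩ := h (conj τ) (by rw [exp_conj, norm_conj]; exact hτ)
  refine ⟨σ, h1, h2, h3, ?_, ?_⟩
  · have h4 := hB (exp σ) (mem_closedBall_zero_iff.2 h3)
    have h5 := congrArg re h2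
    rw [add_re, conj_re] at h5
    have h6 := (abs_re_le_norm (ℓ (exp σ))).trans h4
    have := le_abs_self B
    have := abs_nonneg B1
    linarith [(abs_le.1 h6).2]
  · rw [norm_conj] at h4'
    have := le_abs_self B1
    have := abs_nonneg B
    linarith

/-- periodicity of `T` -/
theorem g_per (hG : P0 φ r w1 L G) {lam : ℝ} (hlam : 0 < lam)
    (hBU : BranchesBlowUp φ r lam) (hNF : NoFiniteIsolatedSingularity φ r)
    (hVG : ∀ (z : ℂ) (f : ℂ → ℂ), Branch φ r z f → ∀ b,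
      VG (lam / 4) φ b (1 / conj z) (Rf f))
    (hB : ∀ w ∈ ball w1 (Real.exp L), 1 < ‖w‖) (hC : Co φ r w1 L Λ ℓ)
    (hT : ∀ σ : ℂ, σ.re < Λ → Ts G ℓ (σ + per 1) = Ts G ℓ σ) :
    ∃ E : ℂ → ℂ, DifferentiableOn ℂ E (ball w1 (Real.exp L)) ∧
      ∀ τ : ℂ, τ.re < L → G τ = E (w1 + exp τ) := by
  obtain ⟨δ, B, hδ, -, hinv⟩ := inv_co2 hG.hD hG.hw1 hC
  refine loc_of_per hG hlam hBU hNF hVG hB (x0 := Real.log δ) fun τ hτ hτ2 => ?_
  have h0 : ‖exp (τ + per 1)‖ < δ := by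
    rw [exp_add_per, norm_exp, ← Real.lt_log_iff_exp_lt hδ]; exact hτ2
  obtain ⟨σ, h1, h2, -, -, -⟩ := hinv _ h0
  have h3 := hT σ h1
  unfold Ts at h3
  rw [exp_add_per] at h3
  have e1 : conj (σ + per 1 + ℓ (exp σ)) = τ := by
    have : σ + per 1 + ℓ (exp σ) = conj (τ + per 1) + per 1 := by rw [← h2]; ring
    rw [this, map_add, map_add, map_add, conj_conj, conj_conj, conj_perq]
    ring
  rw [e1, h2, conj_conj] at h3
  have := congrArg conj h3
  rw [conj_conj, conj_conj] at this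
  exact this.symm

/-- slow growth, with a logarithm -/
theorem slow_case (hG : P0 φ r w1 L G) {lam : ℝ} (hlam : 0 < lam)
    (hBU : BranchesBlowUp φ r lam) (hNF : NoFiniteIsolatedSingularity φ r)
    (hVG : ∀ (z : ℂ) (f : ℂ → ℂ), Branch φ r z f → ∀ b,
      VG (lam / 4) φ b (1 / conj z) (Rf f))
    (hB : ∀ w ∈ ball w1 (Real.exp L), 1 < ‖w‖) (hC : Co φ r w1 L Λ ℓ) (hq : 0 < q) {m : ℕ}
    (hm : m < q) {E : ℂ → ℂ} {cc : ℂ} (hE : DifferentiableOn ℂ E (ball 0 (Real.exp (Λ / q))))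
    (hTE : ∀ σ : ℂ, σ.re < Λ → Ts G ℓ σ = E (exp (σ / q)) / exp (σ / q) ^ m + cc * σ) :
    ∃ E : ℂ → ℂ, DifferentiableOn ℂ E (ball w1 (Real.exp L)) ∧
      ∀ τ : ℂ, τ.re < L → G τ = E (w1 + exp τ) := by
  have hq' : (0 : ℝ) < q := by exact_mod_cast hq
  obtain ⟨δ, B, hδ, hB0, hinv⟩ := inv_co2 hG.hD hG.hw1 hC
  set R2 : ℝ := Real.exp ((Λ - Real.log 2) / q) with hR2
  have hl2 : 0 < Real.log 2 := Real.log_pos (by norm_num)
  have hR2' : R2 < Real.exp (Λ / q) := by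
    rw [hR2]
    refine Real.exp_lt_exp.2 ?_
    rw [div_lt_div_iff_of_pos_right hq']
    linarith
  obtain ⟨Mx, hMx⟩ := (isCompact_closedBall (0 : ℂ) R2).exists_bound_of_continuousOn
    (hE.continuousOn.mono (closedBall_subset_ball hR2'))
  have hMx0 : 0 ≤ Mx := (norm_nonneg _).trans (hMx 0 (mem_closedBall_self (Real.exp_pos _).le))
  have hgr : ∀ τ : ℂ, ‖exp τ‖ < δ → |τ.im| ≤ Real.pi → ‖G τ‖ ≤
      Mx * (Real.exp (m / q * B) * Real.exp (-(m / q * τ.re))) + ‖cc‖ * (|τ.re| + 4 + B) := by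
    intro τ hτ him
    obtain ⟨σ, h1, h2, h3, h4, h4'⟩ := hinv τ hτ
    have h5 : σ.re ≤ Λ - Real.log 2 := by
      rw [norm_exp] at h3
      have h6 := Real.log_le_log (Real.exp_pos _) h3
      rwa [Real.log_exp, Real.log_div (Real.exp_pos _).ne' (by norm_num), Real.log_exp] at h6
    have h6 : ‖G τ‖ = ‖Ts G ℓ σ‖ := by
      unfold Ts
      rw [h2, conj_conj, norm_conj]
    rw [h6, hTE σ h1]
    refine (norm_add_le _ _).trans ?_
    rw [norm_div, norm_pow, norm_exp, ← Real.exp_nat_mul, norm_mul]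
    have h8 : (σ / q : ℂ).re = σ.re / q := by rw [← ofReal_natCast, div_ofReal_re]
    rw [h8]
    have h9 : ‖E (exp (σ / q))‖ ≤ Mx := by
      refine hMx _ ?_
      rw [mem_closedBall_zero_iff, norm_exp, h8, hR2]
      exact Real.exp_le_exp.2 (by gcongr)
    have h10 : 1 / Real.exp (m * (σ.re / q)) ≤
        Real.exp (m / q * B) * Real.exp (-(m / q * τ.re)) := by
      rw [one_div, ← Real.exp_neg, ← Real.exp_add]
      refine Real.exp_le_exp.2 ?_
      have h11 : (m : ℝ) / q * (τ.re - B) ≤ m / q * σ.re := by gcongr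
      have e : (m : ℝ) * (σ.re / q) = m / q * σ.re := by ring
      rw [e]
      linarith
    have h12 : ‖σ‖ ≤ |τ.re| + 4 + B := by
      have h9 := norm_le_abs_re_add_abs_im τ
      linarith [Real.pi_lt_four]
    calc ‖E (exp (σ / q))‖ / Real.exp (m * (σ.re / q)) + ‖cc‖ * ‖σ‖
        = ‖E (exp (σ / q))‖ * (1 / Real.exp (m * (σ.re / q))) + ‖cc‖ * ‖σ‖ := by ring
      _ ≤ _ := by gcongr
  have hmq1 : (m : ℝ) / q < 1 := by
    rw [div_lt_one hq']
    exact_mod_cast hm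
  have hlim : Tendsto (fun x : ℝ => Real.exp x * (
      Mx * (Real.exp (m / q * B) * Real.exp (-(m / q * x))) + ‖cc‖ * (|x| + 4 + B)))
      atBot (𝓝 0) := by
    have h1 : Tendsto (fun x : ℝ => Real.exp x) atBot (𝓝 0) := Real.tendsto_exp_atBot
    have h2 : Tendsto (fun x : ℝ => Real.exp ((1 - m / q) * x)) atBot (𝓝 0) :=
      Real.tendsto_exp_atBot.comp (tendsto_id.const_mul_atBot (by linarith))
    have h2' : Tendsto (fun x : ℝ => x * Real.exp x) atBot (𝓝 0) := by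
      have h3 := (Real.tendsto_pow_mul_exp_neg_atTop_nhds_zero 1).comp tendsto_neg_atBot_atTop
      have h4 := h3.neg
      rw [neg_zero] at h4
      refine h4.congr fun x => ?_
      simp only [Function.comp_apply, neg_neg, pow_one]
      ring
    have h3 := ((h2.const_mul (Mx * Real.exp (m / q * B))).add
      (h1.const_mul (‖cc‖ * (4 + B)))).add (h2'.const_mul (-‖cc‖))
    rw [mul_zero, mul_zero, mul_zero, add_zero, add_zero] at h3
    refine h3.congr' ?_
    filter_upwards [eventually_le_atBot 0] with x hx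
    have e : Real.exp ((1 - m / q) * x) = Real.exp x * Real.exp (-(m / q * x)) := by
      rw [← Real.exp_add]; congr 1; ring
    rw [e, abs_of_nonpos hx]
    ring
  obtain ⟨ε, E', hε, -, hGE⟩ := slow_ext hG hlam hBU (by
    intro η hη
    have h1 := hlim.eventually (ge_mem_nhds hη)
    obtain ⟨x0, hx0⟩ := Filter.eventually_atBot.1 h1
    refine ⟨min δ (Real.exp x0), lt_min hδ (Real.exp_pos _), fun τ hτ him _ => ?_⟩
    have h2 := hgr τ (hτ.trans_le (min_le_left _ _)) him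
    have h3 : τ.re ≤ x0 := by
      have h4 := hτ.trans_le (min_le_right _ _)
      rw [norm_exp] at h4
      exact (Real.exp_lt_exp.1 h4).le
    rw [norm_exp]
    calc Real.exp τ.re * ‖G τ‖ ≤ Real.exp τ.re * (
          Mx * (Real.exp (m / q * B) * Real.exp (-(m / q * τ.re))) +
            ‖cc‖ * (|τ.re| + 4 + B)) := by gcongr
      _ ≤ η := hx0 _ h3)
  refine loc_of_per hG hlam hBU hNF hVG hB (x0 := Real.log ε) fun τ hτ hτ2 => ?_
  rw [hGE τ hτ hτ2, hGE (τ + per 1) (by rw [add_re, per_re, add_zero]; exact hτ)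
    (by rw [add_re, per_re, add_zero]; exact hτ2), exp_add_per]

/-- **The alternatives.** -/
theorem four (hG : P0 φ r w1 L G) {lam : ℝ} (hlam : 0 < lam)
    (hBU : BranchesBlowUp φ r lam) (hNF : NoFiniteIsolatedSingularity φ r)
    (hVG : ∀ (z : ℂ) (f : ℂ → ℂ), Branch φ r z f → ∀ b,
      VG (lam / 4) φ b (1 / conj z) (Rf f))
    (hB : ∀ w ∈ ball w1 (Real.exp L), 1 < ‖w‖) (hC : Co φ r w1 L Λ ℓ) (hq : 2 ≤ q) {Δ : ℂ}
    (hT : ∀ σ : ℂ, σ.re < Λ → Ts G ℓ (σ + per q) = Ts G ℓ σ + Δ) :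
    (∃ E : ℂ → ℂ, DifferentiableOn ℂ E (ball w1 (Real.exp L)) ∧
      ∀ τ : ℂ, τ.re < L → G τ = E (w1 + exp τ)) ∨
    (Δ = 0 ∧ ∃ E : ℂ → ℂ, DifferentiableOn ℂ E (ball 0 (Real.exp (Λ / q))) ∧ E 0 ≠ 0 ∧
      ∀ σ : ℂ, σ.re < Λ → Ts G ℓ σ = E (exp (σ / q)) * exp (-σ)) := by
  have ha : 0 < lam / 4 := by positivity
  have hq0 : 0 < q := by omega
  have hq' : (0 : ℝ) < q := by exact_mod_cast hq0
  have hqc : (q : ℂ) ≠ 0 := by exact_mod_cast hq0.ne'
  have hJU := jboundU hG hC ha hVG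
  have hTd := Ts_diff hC hG.hG
  set cc : ℂ := Δ / per q with hcc
  have hccp : cc * per q = Δ := div_mul_cancel₀ _ (per_ne' hq0)
  have hT1d : DifferentiableOn ℂ (fun σ => Ts G ℓ σ - cc * σ) (re ⁻¹' Iio Λ) :=
    hTd.sub (differentiable_id.const_mul cc).differentiableOn
  obtain ⟨V, hVd, hTV⟩ := repq hq0 hT1d (fun σ hσ => by
    try simp only
    rw [hT σ hσ]
    linear_combination -hccp)
  have hTV' : ∀ σ : ℂ, σ.re < Λ → Ts G ℓ σ = V (exp (σ / q)) + cc * σ := fun σ hσ => by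
    rw [← hTV σ hσ]
    ring
  rcases Pool.Agent.Y953.ES.tri 0 (Real.exp (Λ / q)) V (Real.exp_pos _) hVd with
    hess | ⟨m, E, hE, hm, hVE⟩
  · exact (partEq (cc := cc) hq ha hJU hTd hess hTV').elim
  have hTE : ∀ σ : ℂ, σ.re < Λ → Ts G ℓ σ = E (exp (σ / q)) / exp (σ / q) ^ m + cc * σ := by
    intro σ hσ
    rw [hTV' σ hσ, hVE _ (emem hq0 hσ) (exp_ne_zero _), sub_zero]
  rcases lt_trichotomy m q with hlt | heq | hgt
  · exact Or.inl (slow_case hG hlam hBU hNF hVG hB hC hq0 hlt hE hTE)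
  · subst heq
    have hE0 : E 0 ≠ 0 := hm.resolve_left hq0.ne'
    have hT' : ∀ σ : ℂ, σ.re < Λ → Ts G ℓ σ = E (exp (σ / m)) * exp (-σ) + cc * σ := by
      intro σ hσ
      rw [hTE σ hσ, ← exp_nat_mul, mul_div_cancel₀ _ hqc, exp_neg, div_eq_mul_inv]
    have h0 := no_cc ha hq0 hJU.jb hTd hE hE0 hT'
    right
    refine ⟨by rw [← hccp, h0, zero_mul], E, hE, hE0, fun σ hσ => ?_⟩
    rw [hT' σ hσ, h0, zero_mul, add_zero]
  · exfalso
    have hm0 : m ≠ 0 := by omega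
    refine partCL (q := q) (μ := (m : ℝ) / q) (E := E) (cc := cc) ha hq0
      ((one_lt_div hq').2 (by exact_mod_cast hgt)) hJU.jb hTd hE (hm.resolve_left hm0)
      fun σ hσ => ?_
    rw [hTE σ hσ, div_eq_mul_inv, exp_neg, ← exp_nat_mul]
    congr 4
    push_cast
    field_simp

/-- **The periodic case.** -/
theorem per_case (hG : P0 φ r w1 L G) {lam : ℝ} (hlam : 0 < lam)
    (hBU : BranchesBlowUp φ r lam) (hNF : NoFiniteIsolatedSingularity φ r)
    (hVG : ∀ (z : ℂ) (f : ℂ → ℂ), Branch φ r z f → ∀ b,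
      VG (lam / 4) φ b (1 / conj z) (Rf f))
    (hB : ∀ w ∈ ball w1 (Real.exp L), 1 < ‖w‖) (hC : Co φ r w1 L Λ ℓ) (hq : 0 < q)
    (hT : ∀ σ : ℂ, σ.re < Λ → Ts G ℓ (σ + per q) = Ts G ℓ σ) {B : Set ℂ} (hwB : w1 ∈ B)
    {N dd : ℕ} (hN : 0 < N)
    (hNdd : N ≤ dd) (hdet : a * d - b * c ≠ 0)
    (hMR : ∀ σ : ℂ, σ.re < Λ → Ts G ℓ (σ + per N) * (c * Ts G ℓ σ + d) = a * Ts G ℓ σ + b) :
    (∃ E : ℂ → ℂ, DifferentiableOn ℂ E (ball w1 (Real.exp L)) ∧
      ∀ τ : ℂ, τ.re < L → G τ = E (w1 + exp τ)) ∨ BCusp φ r lam dd B := by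
  classical
  have ha : 0 < lam / 4 := by positivity
  have hD := hG.hD
  have hTd := Ts_diff hC hG.hG
  have hJU := jboundU hG hC ha hVG
  -- the minimal period
  have hex : ∃ q : ℕ, 0 < q ∧ ∀ σ : ℂ, σ.re < Λ → Ts G ℓ (σ + per q) = Ts G ℓ σ := ⟨q, hq, hT⟩
  have hsp := Nat.find_spec hex
  have hmin : ∀ m : ℕ, 0 < m → m < Nat.find hex →
      ¬ ∀ σ : ℂ, σ.re < Λ → Ts G ℓ (σ + per m) = Ts G ℓ σ :=
    fun m hm0 hm hper => Nat.find_min hex hm ⟨hm0, hper⟩
  generalize Nat.find hex = q at hsp hmin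
  obtain ⟨hq0, hT⟩ := hsp
  rcases Nat.lt_or_ge q 2 with h1 | hq2
  · have hq1 : q = 1 := by omega
    subst hq1
    exact Or.inl (g_per hG hlam hBU hNF hVG hB hC hT)
  rcases four hG hlam hBU hNF hVG hB hC hq2 (Δ := 0) (fun σ hσ => by rw [add_zero]; exact hT σ hσ)
    with h | ⟨-, E, hE, hE0, hTE⟩
  · exact Or.inl h
  right
  have hq' : (0 : ℝ) < q := Nat.cast_pos.2 hq0
  have hqc : (q : ℂ) ≠ 0 := Nat.cast_ne_zero.2 hq0.ne'
  have h0b : (0 : ℂ) ∈ ball (0 : ℂ) (Real.exp (Λ / q)) := mem_ball_self (Real.exp_pos _)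
  have hzn : ∀ j : ℕ, ∀ t ∈ ball (0 : ℂ) (Real.exp (Λ / q)),
      zet q ^ j * t ∈ ball (0 : ℂ) (Real.exp (Λ / q)) := fun j t ht =>
    Pool.Agent.E8helper32.SA.zmul_mem ht j
  have hlog : ∀ t ∈ ball (0 : ℂ) (Real.exp (Λ / q)), t ≠ 0 → ((q : ℂ) * log t).re < Λ := by
    intro t ht ht0
    rw [mem_ball_zero_iff] at ht
    rw [Pool.Agent.E8helper32.SA.nat_mul_re, log_re]
    have h4 : Real.log ‖t‖ < Λ / q := by
      rw [← Real.log_exp (Λ / q)]
      exact Real.log_lt_log (norm_pos_iff.2 ht0) ht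
    rw [lt_div_iff₀ hq'] at h4
    linarith
  -- no smaller period
  have hpert : ∀ (j : ℕ) (σ : ℂ), exp ((σ + per j) / q) = zet q ^ j * exp (σ / q) := by
    intro j σ
    unfold zet per
    rw [← exp_nat_mul, ← exp_add]
    congr 1
    field_simp
    ring
  have eper : ∀ j : ℕ, exp (-per j) = 1 := by
    intro j
    have := exp_add_per (-per j) j
    rw [neg_add_cancel, exp_zero] at this
    exact this.symm
  -- the bound of the period
  have hqN : q ≤ N := by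
    by_contra hcon
    push Not at hcon
    refine hmin N hN hcon ?_
    obtain ⟨x0, hx0⟩ : ∃ x0 : ℝ, x0 < Λ := exists_lt Λ
    have hex : Tendsto (fun x : ℝ => exp ((x : ℂ))) atBot (𝓝 0) := by
      rw [tendsto_zero_iff_norm_tendsto_zero]
      refine Real.tendsto_exp_atBot.congr fun x => ?_
      rw [norm_exp, ofReal_re]
    have hexq : Tendsto (fun x : ℝ => exp ((x : ℂ) / q)) atBot (𝓝 0) := by
      rw [tendsto_zero_iff_norm_tendsto_zero]
      refine (Real.tendsto_exp_atBot.comp (tendsto_id.atBot_div_const hq')).congr fun x => ?_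
      rw [norm_exp, ← ofReal_natCast, ← ofReal_div, ofReal_re]
      rfl
    have hEc : ContinuousAt E 0 := (hE.differentiableAt (isOpen_ball.mem_nhds h0b)).continuousAt
    have hl1 : Tendsto (fun x : ℝ => E (exp ((x : ℂ) / q))) atBot (𝓝 (E 0)) :=
      hEc.tendsto.comp hexq
    have hl2 : Tendsto (fun x : ℝ => E (zet q ^ N * exp ((x : ℂ) / q))) atBot (𝓝 (E 0)) := by
      refine hEc.tendsto.comp ?_
      have := hexq.const_mul (zet q ^ N)
      rwa [mul_zero] at this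
    have hval1 : ∀ x : ℝ, x < Λ → Ts G ℓ x * exp x = E (exp ((x : ℂ) / q)) := by
      intro x hx
      rw [hTE x (by rwa [ofReal_re]), mul_assoc, ← exp_add, neg_add_cancel, exp_zero, mul_one]
    have hval2 : ∀ x : ℝ, x < Λ → Ts G ℓ (x + per N) * exp x =
        E (zet q ^ N * exp ((x : ℂ) / q)) := by
      intro x hx
      rw [hTE (x + per N) (by rw [add_re, per_re, add_zero, ofReal_re]; exact hx), hpert, neg_add,
        exp_add, eper, mul_one, mul_assoc, ← exp_add, neg_add_cancel, exp_zero, mul_one]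
    have hc0 : c = 0 := by
      have h1 : Tendsto (fun x : ℝ => E (zet q ^ N * exp ((x : ℂ) / q)) *
          (c * E (exp ((x : ℂ) / q)) + d * exp (x : ℂ)) - (a * E (exp ((x : ℂ) / q)) * exp (x : ℂ) +
          b * exp (x : ℂ) * exp (x : ℂ))) atBot (𝓝 (E 0 * (c * E 0 + d * 0) -
          (a * E 0 * 0 + b * 0 * 0))) :=
        (hl2.mul ((hl1.const_mul c).add (hex.const_mul d))).sub
          (((hl1.const_mul a).mul hex).add ((hex.const_mul b).mul hex))
      have h2 : E 0 * (c * E 0 + d * 0) - (a * E 0 * 0 + b * 0 * 0) = 0 := by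
        refine tendsto_nhds_unique (h1.congr' ?_) tendsto_const_nhds
        filter_upwards [eventually_lt_atBot Λ] with x hx
        rw [← hval1 x hx, ← hval2 x hx]
        have h3 := hMR x (by rwa [ofReal_re])
        linear_combination (exp (x : ℂ) * exp (x : ℂ)) * h3
      have h3 : E 0 * E 0 * c = 0 := by linear_combination h2
      exact (mul_eq_zero.1 h3).resolve_left (mul_ne_zero hE0 hE0)
    subst hc0
    have had : a = d := by
      have h1 : Tendsto (fun x : ℝ => E (zet q ^ N * exp ((x : ℂ) / q)) * d -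
          (a * E (exp ((x : ℂ) / q)) + b * exp (x : ℂ))) atBot (𝓝 (E 0 * d - (a * E 0 + b * 0))) :=
        (hl2.mul_const d).sub ((hl1.const_mul a).add (hex.const_mul b))
      have h2 : E 0 * d - (a * E 0 + b * 0) = 0 := by
        refine tendsto_nhds_unique (h1.congr' ?_) tendsto_const_nhds
        filter_upwards [eventually_lt_atBot Λ] with x hx
        rw [← hval1 x hx, ← hval2 x hx]
        have h3 := hMR x (by rwa [ofReal_re])
        linear_combination exp (x : ℂ) * h3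
      have h3 : E 0 * (d - a) = 0 := by linear_combination h2
      exact (sub_eq_zero.1 ((mul_eq_zero.1 h3).resolve_left hE0)).symm
    subst had
    have ha0 : a ≠ 0 := by
      rintro rfl
      exact hdet (by ring)
    obtain ⟨Δ, hΔ⟩ : ∃ Δ, Δ = b / a := ⟨_, rfl⟩
    have hTN : ∀ σ : ℂ, σ.re < Λ → Ts G ℓ (σ + per N) = Ts G ℓ σ + Δ := by
      intro σ hσ
      have h3 := hMR σ hσ
      rw [hΔ]
      field_simp
      linear_combination h3
    have hshift : ∀ (σ : ℂ) (j : ℕ), σ.re < Λ → (σ + per j).re < Λ := by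
      intro σ j hσ
      rw [add_re, per_re, add_zero]
      exact hσ
    have hit1 : ∀ k : ℕ, ∀ σ : ℂ, σ.re < Λ → Ts G ℓ (σ + per (N * k)) = Ts G ℓ σ + k * Δ := by
      intro k
      induction k with
      | zero =>
        intro σ _
        unfold per
        simp
      | succ k ih =>
        intro σ hσ
        have e : σ + per (N * (k + 1)) = σ + per (N * k) + per N := by
          unfold per; push_cast; ring
        rw [e, hTN _ (hshift σ _ hσ), ih σ hσ]
        push_cast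
        ring
    have hit2 : ∀ k : ℕ, ∀ σ : ℂ, σ.re < Λ → Ts G ℓ (σ + per (q * k)) = Ts G ℓ σ := by
      intro k
      induction k with
      | zero =>
        intro σ _
        unfold per
        simp
      | succ k ih =>
        intro σ hσ
        have e : σ + per (q * (k + 1)) = σ + per (q * k) + per q := by
          unfold per; push_cast; ring
        rw [e, hT _ (hshift σ _ hσ), ih σ hσ]
    have hΔ0 : Δ = 0 := by
      have h1 := hit1 q x0 (by rwa [ofReal_re])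
      have h2 := hit2 N x0 (by rwa [ofReal_re])
      rw [Nat.mul_comm N q, h2] at h1
      have h3 : (q : ℂ) * Δ = 0 := by linear_combination -h1
      exact (mul_eq_zero.1 h3).resolve_left hqc
    intro σ hσ
    rw [hTN σ hσ, hΔ0, add_zero]
  have hnzj : ∀ j : ℕ, 0 < j → j < q → ¬ ∀ᶠ t in 𝓝 (0 : ℂ), E t - E (zet q ^ j * t) = 0 := by
    intro j hj0 hjq hev
    refine hmin j hj0 hjq ?_
    have hfa : AnalyticOnNhd ℂ (fun t => E t - E (zet q ^ j * t)) (ball 0 (Real.exp (Λ / q))) :=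
      (hE.sub (hE.comp (fun t _ => (differentiableAt_id.const_mul _).differentiableWithinAt)
        fun t ht => hzn j t ht)).analyticOnNhd isOpen_ball
    have h2 := hfa.eqOn_zero_of_preconnected_of_eventuallyEq_zero
      (convex_ball _ _).isPreconnected h0b hev
    intro σ hσ
    have h3 : E (exp (σ / q)) - E (zet q ^ j * exp (σ / q)) = 0 := h2 (emem hq0 hσ)
    rw [hTE σ hσ, hTE (σ + per j) (by rw [add_re, per_re, add_zero]; exact hσ), hpert,
      neg_add, exp_add, ← sub_eq_zero.1 h3]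
    rw [eper, mul_one]
  have hnzj' : ∀ j : ℕ, 0 < j → j < q → ∀ᶠ t in 𝓝[≠] (0 : ℂ), E t - E (zet q ^ j * t) ≠ 0 := by
    intro j hj0 hjq
    have hfa : AnalyticAt ℂ (fun t => E t - E (zet q ^ j * t)) 0 :=
      (hE.sub (hE.comp (fun t _ => (differentiableAt_id.const_mul _).differentiableWithinAt)
        fun t ht => hzn j t ht)).analyticAt (isOpen_ball.mem_nhds h0b)
    exact hfa.eventually_eq_zero_or_eventually_ne_zero.resolve_left (hnzj j hj0 hjq)
  have hall : ∀ᶠ t in 𝓝[≠] (0 : ℂ), ∀ j ∈ Finset.Ioo 0 q, E t - E (zet q ^ j * t) ≠ 0 := by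
    rw [Filter.eventually_all_finset]
    intro j hj
    rw [Finset.mem_Ioo] at hj
    exact hnzj' j hj.1 hj.2
  rw [eventually_nhdsWithin_iff] at hall
  obtain ⟨h1, n, D, hnd, hDa, hD0, hED, h2⟩ :=
    partD' ha hq2 hJU.jb hTd hE hE0 hTE (by
      have := hnzj 1 one_pos (by omega)
      simp only [pow_one] at this
      exact this)
  obtain ⟨ε, hε, hb⟩ := Metric.eventually_nhds_iff_ball.1
    ((hED.and hDa.eventually_analyticAt).and hall)
  set δ := min ε (Real.exp (Λ / q)) with hδdef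
  have hδ : 0 < δ := lt_min hε (Real.exp_pos _)
  have hs1 : ball (0 : ℂ) δ ⊆ ball 0 ε := ball_subset_ball (min_le_left _ _)
  have hs2 : ball (0 : ℂ) δ ⊆ ball 0 (Real.exp (Λ / q)) := ball_subset_ball (min_le_right _ _)
  have hx : ∀ t ∈ ball (0 : ℂ) δ, t ^ q ∈ ball (0 : ℂ) (Real.exp Λ) := by
    intro t ht
    have h3 := mem_ball_zero_iff.1 (hs2 ht)
    rw [mem_ball_zero_iff, norm_pow]
    calc ‖t‖ ^ q < Real.exp (Λ / q) ^ q := pow_lt_pow_left₀ h3 (norm_nonneg _) hq0.ne'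
      _ = Real.exp Λ := by rw [← Real.exp_nat_mul, mul_div_cancel₀ _ hq'.ne']
  have hκ1 : F01 1 (lam / 4 * E 0) = 0 := by
    rw [F01_one]
    push_cast at h1
    exact h1
  have hκ2 : F01 (-(n / q)) (lam / 4 * E 0) = 0 := by
    rw [F01_poch]
    push_cast at h2 ⊢
    exact h2
  have hn2 : 2 * q < n := by
    by_contra hcon
    push Not at hcon
    have hn0 : 0 < n := by
      rcases Nat.eq_zero_or_pos n with h | h
      · exact absurd (h ▸ dvd_zero q) hnd
      · exact h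
    have hn0' : (0 : ℝ) < n := by exact_mod_cast hn0
    have hn2 : n ≠ 2 * q := fun h => hnd ⟨2, by rw [h, mul_comm]⟩
    have hn1 : n ≠ q := fun h => hnd ⟨1, by rw [h, mul_one]⟩
    refine Pool.Agent.E8helper32.SB.besselNC (κ := lam / 4 * E 0) hκ1 (ν := (n : ℝ) / q)
      (by positivity) ?_ ?_ hκ2
    · rw [div_lt_iff₀ hq']
      exact_mod_cast lt_of_le_of_ne hcon hn2
    · rw [ne_eq, div_eq_one_iff_eq hq'.ne']
      exact_mod_cast hn1
  refine ⟨φ (1 / conj w1), q, n, δ, E, D, ⟨w1, hwB, rfl⟩, hq2, hqN.trans hNdd, hnd, hn2, hδ, hE.mono hs2,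
    fun t ht => (hb t (hs1 ht)).1.2.differentiableAt.differentiableWithinAt, hE0, hD0,
    fun t ht => hC.h1 _ (hx t ht), ?_, ?_, fun t ht => (hb t (hs1 ht)).1.1, hκ1, hκ2⟩
  · intro t ht ht0
    have hre := hlog t (hs2 ht) ht0
    obtain ⟨g, hg, hTg⟩ := Ts_germ hG hC hre
    have hexpq : ∀ s : ℂ, s ≠ 0 → exp ((q : ℂ) * log s) = s ^ q := by
      intro s hs
      rw [exp_nat_mul, exp_log hs]
    rw [hexpq t ht0] at hg
    refine ⟨psi φ r (φ (1 / conj w1) + t ^ q), g, (psi_mem hD (hC.h1 _ (hx t ht))).1,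
      hC.h2 _ (hx t ht), (psi_mem hD (hC.h1 _ (hx t ht))).2, hg, ?_⟩
    -- the local inverse of `exp (σ / q)`
    set σ0 : ℂ := (q : ℂ) * log t with hσ0
    have hTs : ∀ᶠ s in 𝓝 t, ∀ᶠ σ in 𝓝 (σ0 + q * log (s / t)), Ts G ℓ σ =
        Rf g (psi φ r (φ (1 / conj w1) + exp σ)) := by
      have h3 : Tendsto (fun s : ℂ => σ0 + q * log (s / t)) (𝓝 t) (𝓝 σ0) := by
        have h4 : ContinuousAt (fun s : ℂ => σ0 + q * log (s / t)) t := by
          refine continuousAt_const.add (continuousAt_const.mul ?_)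
          refine ContinuousAt.clog (continuousAt_id.div_const t) ?_
          show t / t ∈ slitPlane
          rw [div_self ht0]
          exact one_mem_slitPlane
        have h5 := h4.tendsto
        rwa [div_self ht0, log_one, mul_zero, add_zero] at h5
      exact h3.eventually (eventually_eventually_nhds.2 hTg)
    filter_upwards [hTs, isOpen_ball.mem_nhds ht, isOpen_ne.mem_nhds ht0] with s hs1' hs2' hs0
    intro v hv hφv
    have h3 := hs1'.self_of_nhds
    have hexp1 : exp ((σ0 + q * log (s / t)) / q) = s := by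
      have e : (σ0 + q * log (s / t)) / q = log t + log (s / t) := by
        rw [hσ0, ← mul_add, mul_div_cancel_left₀ _ hqc]
      rw [e, exp_add, exp_log ht0, exp_log (div_ne_zero hs0 ht0), mul_div_cancel₀ _ ht0]
    have hexp2 : exp (σ0 + q * log (s / t)) = s ^ q := by
      have h4 := exp_nat_mul ((σ0 + q * log (s / t)) / q) q
      rw [hexp1, mul_div_cancel₀ _ hqc] at h4
      exact h4
    have hre2 : (σ0 + q * log (s / t)).re < Λ := by
      have h4 := mem_ball_zero_iff.1 (hx s hs2')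
      rw [← hexp2, norm_exp] at h4
      exact Real.exp_lt_exp.1 h4
    rw [hTE _ hre2, hexp1, hexp2, exp_neg, hexp2, ← div_eq_mul_inv] at h3
    rw [h3, ← hφv, psi_apply hD (ball_subset_ball hD.hr.le hv)]
    rfl
  · -- injectivity
    intro t ht t' ht' ht0 ht'0 hpow hval
    have hq1 : (t' / t) ^ q = 1 := by
      rw [div_pow, ← hpow, div_self (pow_ne_zero _ ht0)]
    have : NeZero q := ⟨hq0.ne'⟩
    obtain ⟨j, hjq, hj⟩ := (isPrimitiveRoot_exp q hq0.ne').eq_pow_of_pow_eq_one hq1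
    have hj' : t' = zet q ^ j * t := by
      unfold zet
      rw [hj, div_mul_cancel₀ _ ht0]
    rcases Nat.eq_zero_or_pos j with h0 | h0
    · rw [hj', h0, pow_zero, one_mul]
    · exfalso
      rw [← hpow] at hval
      have h3 := (div_left_inj' (pow_ne_zero q ht0)).1 hval
      refine (hb t (hs1 ht)).2 ht0 j (Finset.mem_Ioo.2 ⟨h0, hjq⟩) ?_
      rw [← hj', h3, sub_self]

/-- **The local theorem for virtually Moebius monodromy.** -/
theorem loc_q (hLIM : S_LIM) (hFAN : S_FAN) (hSTR : S_STRIP) (hELL : S_ELL)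
    (hG : P0 φ r w1 L G) {lam : ℝ} (hlam : 0 < lam)
    (hBU : BranchesBlowUp φ r lam) (hNF : NoFiniteIsolatedSingularity φ r)
    (hVG : ∀ (z : ℂ) (f : ℂ → ℂ), Branch φ r z f → ∀ b,
      VG (lam / 4) φ b (1 / conj z) (Rf f))
    (hB : ∀ w ∈ ball w1 (Real.exp L), 1 < ‖w‖) {B : Set ℂ} (hwB : w1 ∈ B) (hq : 0 < q) {dd : ℕ}
    (hdd : q ≤ dd)
    (hdet : a * d - b * c ≠ 0)
    (hM : ∀ τ : ℂ, τ.re < L → G (τ + per q) * (c * G τ + d) = a * G τ + b) :
    (∃ E : ℂ → ℂ, DifferentiableOn ℂ E (ball w1 (Real.exp L)) ∧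
      ∀ τ : ℂ, τ.re < L → G τ = E (w1 + exp τ)) ∨ BCusp φ r lam dd B := by
  have ha : 0 < lam / 4 := by positivity
  have hqc : (q : ℂ) ≠ 0 := by exact_mod_cast hq.ne'
  obtain ⟨Λ, ℓ, hC⟩ := exists_co hG.hD hG.hw1 L
  have hMR : ∀ σ ∈ HP Λ, Ts G ℓ (σ + per q) * (conj c * Ts G ℓ σ + -conj a) =
      -conj d * Ts G ℓ σ + conj b := fun σ hσ => Ts_MRq hC hM hσ
  have hTd : DifferentiableOn ℂ (Ts G ℓ) (HP Λ) := Ts_diff hC hG.hG
  have hOP : OP (lam / 4) Λ (Ts G ℓ) := fun σ1 hσ1 b => opi hG hC ha hVG hσ1 b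
  have hdet' : -conj d * -conj a - conj b * conj c ≠ 0 := by
    intro h1
    apply hdet
    have h2 := congrArg conj h1
    simp only [map_sub, map_mul, map_neg, conj_conj, map_zero] at h2
    linear_combination h2
  generalize ha' : -conj d = a' at hMR hdet'
  generalize hb' : conj b = b' at hMR hdet'
  generalize hc' : conj c = c' at hMR hdet'
  generalize hd' : -conj a = d' at hMR hdet'
  have hconst : (∃ b, ∀ σ ∈ HP Λ, Ts G ℓ σ = b) → ∃ E : ℂ → ℂ,
      DifferentiableOn ℂ E (ball w1 (Real.exp L)) ∧ ∀ τ : ℂ, τ.re < L → G τ = E (w1 + exp τ) :=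
    loc_const hG hlam hBU hNF hVG hB hC
  have hperc : ∀ m : ℕ, 0 < m → (∀ σ ∈ HP Λ, Ts G ℓ (σ + per (q * m)) = Ts G ℓ σ) →
      (∃ E : ℂ → ℂ, DifferentiableOn ℂ E (ball w1 (Real.exp L)) ∧
        ∀ τ : ℂ, τ.re < L → G τ = E (w1 + exp τ)) ∨ BCusp φ r lam dd B := fun m hm h =>
    per_case hG hlam hBU hNF hVG hB hC (Nat.mul_pos hq hm) (fun σ hσ => h σ hσ) hwB hq hdd hdet'
      fun σ hσ => hMR σ hσ
  by_cases hc0 : c' = 0
  · -- affine monodromy
    subst hc0
    have hd0 : d' ≠ 0 := by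
      rintro rfl
      exact hdet' (by ring)
    have ha0 : a' ≠ 0 := by
      rintro rfl
      exact hdet' (by ring)
    have hA : ∀ σ ∈ HP Λ, Ts G ℓ (σ + per q) = a' / d' * Ts G ℓ σ + b' / d' := by
      intro σ hσ
      have h1 := hMR σ hσ
      rw [zero_mul, zero_add] at h1
      field_simp
      exact h1
    by_cases hκ1 : a' / d' = 1
    · by_cases hΔ : b' / d' = 0
      · refine hperc 1 one_pos fun σ hσ => ?_
        rw [Nat.mul_one, hA σ hσ, hκ1, hΔ, one_mul, add_zero]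
      · have hper2 : ∀ σ : ℂ, σ.re < Λ → Ts G ℓ (σ + per (2 * q)) =
            Ts G ℓ σ + 2 * (b' / d') := by
          intro σ hσ
          have e : σ + per (2 * q) = σ + per q + per q := by unfold per; push_cast; ring
          rw [e, hA _ (HP_per (show σ ∈ HP Λ from hσ) q), hA σ hσ, hκ1]
          ring
        rcases four hG hlam hBU hNF hVG hB hC (q := 2 * q) (by omega) hper2 with h | ⟨h, -⟩
        · exact Or.inl h
        · exfalso
          exact hΔ ((mul_eq_zero.1 h).resolve_left two_ne_zero)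
    · have hs : 1 - a' / d' ≠ 0 := sub_ne_zero.2 (Ne.symm hκ1)
      obtain ⟨κ, hκ⟩ : ∃ κ, κ = a' / d' := ⟨_, rfl⟩
      rw [← hκ] at hκ1 hs hA
      have hκ0 : κ ≠ 0 := by rw [hκ]; exact div_ne_zero ha0 hd0
      obtain ⟨b0, hb0⟩ : ∃ b0, b0 = b' / d' / (1 - κ) := ⟨_, rfl⟩
      have hTm : ∀ σ ∈ HP Λ, Ts G ℓ (σ + per q) - b0 = κ * (Ts G ℓ σ - b0) := by
        intro σ hσ
        have e : b0 * (1 - κ) = b' / d' := by rw [hb0, div_mul_cancel₀ _ hs]
        rw [hA σ hσ]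
        linear_combination -e
      by_cases hirr : ∀ n : ℕ, 0 < n → κ ^ n ≠ 1
      · exact Or.inl (hconst ⟨b0, irr_q ha hq hOP hTd hκ0 hirr hTm⟩)
      · push Not at hirr
        obtain ⟨m, hm0, hm⟩ := hirr
        refine hperc m hm0 fun σ hσ => ?_
        have hit : ∀ k : ℕ, Ts G ℓ (σ + per (q * k)) - b0 = κ ^ k * (Ts G ℓ σ - b0) := by
          intro k
          induction k with
          | zero =>
            rw [Nat.mul_zero, pow_zero, one_mul]
            unfold per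
            simp
          | succ k ih =>
            have e : σ + per (q * (k + 1)) = σ + per (q * k) + per q := by
              unfold per; push_cast; ring
            rw [e, hTm _ (HP_per hσ _), ih, pow_succ]
            ring
        have h1 := hit m
        rw [hm, one_mul] at h1
        linear_combination h1
  · -- Moebius monodromy
    have hMR' : MR (Λ / q) (fun s => Ts G ℓ (q * s)) a' b' c' d' := by
      intro s hs
      have e : (q : ℂ) * (s + 2 * Real.pi * I) = q * s + per q := by unfold per; ring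
      show Ts G ℓ (q * (s + 2 * Real.pi * I)) * (c' * Ts G ℓ (q * s) + d') = _
      rw [e]
      exact hMR _ (qmem hq hs)
    have hback : ∀ σ : ℂ, (q : ℂ) * (σ / q) = σ := fun σ => mul_div_cancel₀ _ hqc
    have hback2 : ∀ σ : ℂ, (q : ℂ) * (σ / q + 2 * Real.pi * I) = σ + per q := by
      intro σ
      unfold per
      field_simp
    rcases hMR'.forms hc0 hdet' with ⟨b0, c0, hc0', hFP⟩ | ⟨b1, b2, κ, hb, hκ0, hκ1, hFL⟩
    · refine Or.inl (hconst (inf_one_q hLIM hSTR ha hq hOP hTd (b0 := b0) (c0 := c0)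
        (fun σ hσ => ?_) hc0'))
      have h1 := hFP _ (qmem' hq hσ)
      simp only [hback, hback2] at h1
      exact h1
    · have hFLq : FLq Λ q (Ts G ℓ) b1 b2 κ := by
        intro σ hσ
        have h1 := hFL _ (qmem' hq hσ)
        simp only [hback, hback2] at h1
        exact h1
      by_cases hκn : ∀ n : ℕ, 0 < n → κ ^ n ≠ 1
      · exact Or.inl (hconst (inf_two_q hLIM hFAN hSTR hELL ha hq hOP hTd hFLq hb hκ0 hκn))
      · push Not at hκn
        obtain ⟨m, hm0, hm⟩ := hκn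
        exact hperc m hm0 fun σ hσ => hFLq.per hq hb hκ0 hm hσ

end Pool.Agent.Helper6.SF
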