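import Pool.Agent.Helper6.SF.Loc
import Pool.Agent.Helper6.SF.Alg
import Pool.Graph.R_pool_sql_team_seeded_b677cdb8.E8helper32.SQ.Fin

/-!
# Branches the Schwarzian derivative of which is algebroid
-/

set_option autoImplicit false

open Complex MeasureTheory Metric Set Filter Topology ComplexConjugate

namespace Pool.Agent.Helper6.SF

open Pool.Agent.Results.MP_83fd13_an.BranchSingularities
open Pool.Agent.E8helper32.SA (eqOn_convex)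
open Pool.Agent.E8helper32.SQ

/-- the Schwarzian derivative of `g` near `z` satisfies the relation, off the complement of `U` -/
structure Rl (U : Set ℂ) (d : ℕ) (c : ℕ → ℂ → ℂ) (z : ℂ) (g : ℂ → ℂ) : Prop where
  hd : ∀ᶠ w in 𝓝 z, DifferentiableAt ℂ g w
  hn : ∃ᶠ w in 𝓝 z, deriv g w ≠ 0
  hs : ∀ᶠ w in 𝓝 z, w ∈ U → deriv g w ≠ 0 → Ev d c w (Sw g w) = 0

variable {U : Set ℂ} {d : ℕ} {c : ℕ → ℂ → ℂ}

theorem Rl.congr {z : ℂ} {f g : ℂ → ℂ} (h : Rl U d c z f) (hfg : f =ᶠ[𝓝 z] g) :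
    Rl U d c z g := by
  have h1 : ∀ᶠ y in 𝓝 z, f =ᶠ[𝓝 y] g := eventually_eventually_nhds.2 hfg
  refine ⟨?_, ?_, ?_⟩
  · filter_upwards [h.hd, h1] with w h2 h3
    exact h2.congr_of_eventuallyEq h3.symm
  · exact (h.hn.and_eventually h1).mono fun w hw => by rw [← hw.2.deriv_eq]; exact hw.1
  · filter_upwards [h.hs, h1] with w h2 h3 h4 h5
    rw [← Sw_congr h3]
    exact h2 h4 (by rw [h3.deriv_eq]; exact h5)

theorem Rl.an {z : ℂ} {g : ℂ → ℂ} (h : Rl U d c z g) : AnalyticAt ℂ g z := by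
  rw [analyticAt_iff_eventually_differentiableAt]
  exact h.hd

/-- the relation along an analytic function is analytic -/
theorem ev_an {h : ℂ → ℂ} {w : ℂ} (hc : ∀ k ≤ d, AnalyticAt ℂ (c k) w) (hh : AnalyticAt ℂ h w) :
    AnalyticAt ℂ (fun w => Ev d c w (h w)) w := by
  unfold Ev
  refine Finset.analyticAt_fun_sum _ fun k hk => ?_
  exact (hc k (Nat.lt_succ_iff.1 (Finset.mem_range.1 hk))).mul (hh.pow k)

/-- the propagation of relations -/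
theorem prop0 (hCONN : S_CONN) (hCNT : S_CNT) (hU : IsOpen U) {c0 : ℂ} {ρ : ℝ}
    (hA : (ball c0 ρ \ U).Countable) (hc : ∀ k ≤ d, DifferentiableOn ℂ (c k) (ball c0 ρ ∩ U))
    {E : ℂ → ℂ} (hE : DifferentiableOn ℂ E (ball c0 ρ)) {z1 : ℂ} (hz1 : z1 ∈ ball c0 ρ)
    (hz1U : z1 ∈ U) (hz1d : deriv E z1 ≠ 0)
    (hev : ∀ᶠ w in 𝓝 z1, Ev d c w (Sw E w) = 0) :
    ∀ w ∈ ball c0 ρ, w ∈ U → deriv E w ≠ 0 → Ev d c w (Sw E w) = 0 := by
  have hEa : AnalyticOnNhd ℂ E (ball c0 ρ) := hE.analyticOnNhd isOpen_ball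
  have hdE : DifferentiableOn ℂ (deriv E) (ball c0 ρ) := hE.deriv isOpen_ball
  have hZ := hCNT c0 ρ (deriv E) hdE ⟨z1, hz1, hz1d⟩
  -- the good set
  set D : Set ℂ := ball c0 ρ \ ((ball c0 ρ \ U) ∪ {w | w ∈ ball c0 ρ ∧ deriv E w = 0}) with hD
  have hDc : IsPreconnected D := hCONN c0 ρ _ (hA.union hZ)
  have hDm : ∀ w, w ∈ D ↔ w ∈ ball c0 ρ ∧ w ∈ U ∧ deriv E w ≠ 0 := by
    intro w
    rw [hD]
    constructor
    · rintro ⟨h1, h2⟩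
      rw [mem_union, not_or] at h2
      refine ⟨h1, ?_, fun h3 => h2.2 ⟨h1, h3⟩⟩
      by_contra h3
      exact h2.1 ⟨h1, h3⟩
    · rintro ⟨h1, h2, h3⟩
      refine ⟨h1, ?_⟩
      rintro (h4 | h4)
      · exact h4.2 h2
      · exact h3 h4.2
  have ha : AnalyticOnNhd ℂ (fun w => Ev d c w (Sw E w)) D := by
    intro w hw
    obtain ⟨h1, h2, h3⟩ := (hDm w).1 hw
    refine ev_an (fun k hk => ?_) (Sw_an (hEa w h1) h3)
    exact (hc k hk).analyticAt ((isOpen_ball.inter hU).mem_nhds ⟨h1, h2⟩)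
  have heq := ha.eqOn_zero_of_preconnected_of_eventuallyEq_zero hDc
    ((hDm z1).2 ⟨hz1, hz1U, hz1d⟩) hev
  exact fun w h1 h2 h3 => heq ((hDm w).2 ⟨h1, h2, h3⟩)

/-- propagation in discs -/
theorem Rl.prop (hCONN : S_CONN) (hCNT : S_CNT) (hU : IsOpen U) {c0 : ℂ} {ρ : ℝ}
    (hA : (ball c0 ρ \ U).Countable) (hc : ∀ k ≤ d, DifferentiableOn ℂ (c k) (ball c0 ρ ∩ U))
    {E g : ℂ → ℂ} (hE : DifferentiableOn ℂ E (ball c0 ρ)) {z : ℂ} (hz : z ∈ ball c0 ρ)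
    (hEg : E =ᶠ[𝓝 z] g) (h : Rl U d c z g) {z' : ℂ} (hz' : z' ∈ ball c0 ρ) :
    Rl U d c z' E := by
  have h' := h.congr hEg.symm
  have hdE : DifferentiableOn ℂ (deriv E) (ball c0 ρ) := hE.deriv isOpen_ball
  obtain ⟨w0, hw0, hw0b⟩ := (h'.hn.and_eventually (isOpen_ball.mem_nhds hz)).exists
  have hZ := hCNT c0 ρ (deriv E) hdE ⟨w0, hw0b, hw0⟩
  have hne : ∀ w ∈ ball c0 ρ, deriv E w ≠ 0 → ∀ᶠ v in 𝓝 w, deriv E v ≠ 0 := fun w hw h1 =>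
    (hdE.differentiableAt (isOpen_ball.mem_nhds hw)).continuousAt.eventually_ne h1
  obtain ⟨ε, hε, h1⟩ := Metric.eventually_nhds_iff_ball.1 (h'.hs.and (isOpen_ball.mem_nhds hz))
  obtain ⟨z1, hz1, hz1D⟩ : ∃ z1 ∈ ball z ε,
      z1 ∉ (ball c0 ρ \ U) ∪ {w | w ∈ ball c0 ρ ∧ deriv E w = 0} := by
    obtain ⟨z1, h2, h3⟩ := ((hA.union hZ).dense_compl ℝ).inter_open_nonempty (ball z ε)
      isOpen_ball ⟨z, mem_ball_self hε⟩
    exact ⟨z1, h2, h3⟩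
  have hz1b := (h1 z1 hz1).2
  rw [mem_union, not_or] at hz1D
  have hz1U : z1 ∈ U := by
    by_contra h3
    exact hz1D.1 ⟨hz1b, h3⟩
  have hz1d : deriv E z1 ≠ 0 := fun h3 => hz1D.2 ⟨hz1b, h3⟩
  have heq := prop0 hCONN hCNT hU hA hc hE hz1b hz1U hz1d (by
    filter_upwards [isOpen_ball.mem_nhds hz1, hU.mem_nhds hz1U, hne z1 hz1b hz1d] with v h5 h6 h7
    exact (h1 v h5).1 h6 h7)
  refine ⟨?_, ?_, ?_⟩
  · filter_upwards [isOpen_ball.mem_nhds hz'] with w hw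
    exact hE.differentiableAt (isOpen_ball.mem_nhds hw)
  · by_contra hcon
    rw [not_frequently] at hcon
    have h2 : deriv E =ᶠ[𝓝 z'] fun _ => (0 : ℂ) := hcon.mono fun w hw => not_not.1 hw
    have h3 := eqOn_convex (convex_ball c0 ρ) isOpen_ball hdE (differentiableOn_const (0 : ℂ)) hz' h2
    exact hw0 (h3 hw0b)
  · filter_upwards [isOpen_ball.mem_nhds hz'] with w hw h2 h3
    exact heq w hw h2 h3

variable {φ : ℂ → ℂ} {r : ℝ}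

/-- a point near which all branches with the relation extend -/
def GoodR (φ : ℂ → ℂ) (r : ℝ) (B U : Set ℂ) (d : ℕ) (c : ℕ → ℂ → ℂ) (y : ℂ) : Prop :=
  ∃ δ : ℝ, 0 < δ ∧ ball y δ ⊆ B ∧ ∀ z ∈ ball y δ, ∀ g : ℂ → ℂ, Branch φ r z g → Rl U d c z g →
    ∃ E : ℂ → ℂ, DifferentiableOn ℂ E (ball y δ) ∧ E =ᶠ[𝓝 z] g

theorem GoodR.open {B : Set ℂ} {y : ℂ} (h : GoodR φ r B U d c y) :
    ∀ᶠ w in 𝓝 y, GoodR φ r B U d c w := by
  obtain ⟨δ, hδ, hs, h1⟩ := h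
  filter_upwards [isOpen_ball.mem_nhds (mem_ball_self hδ)] with w hw
  have hsub : ball w (δ - dist w y) ⊆ ball y δ := ball_subset_ball' (by linarith)
  refine ⟨δ - dist w y, by rw [mem_ball] at hw; linarith, hsub.trans hs, fun z hz g hg hS => ?_⟩
  obtain ⟨E, hE, hEg⟩ := h1 z (hsub hz) g hg hS
  exact ⟨E, hE.mono hsub, hEg⟩

/-- one of finitely many analytic functions agrees -/
theorem pigeon {ι : Type} (S : Finset ι) {f : ι → ℂ → ℂ} {z : ℂ}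
    (hf : ∀ s ∈ S, AnalyticAt ℂ (f s) z) (h : ∀ᶠ w in 𝓝 z, ∃ s ∈ S, f s w = 0) :
    ∃ s ∈ S, ∀ᶠ w in 𝓝 z, f s w = 0 := by
  by_contra hcon
  push Not at hcon
  have h1 : ∀ s ∈ S, ∀ᶠ w in 𝓝[≠] z, f s w ≠ 0 := by
    intro s hs
    rcases (hf s hs).eventually_eq_zero_or_eventually_ne_zero with h2 | h2
    · exact absurd h2 (by
        intro h3
        exact (hcon s hs) (h3.mono fun w hw => not_not.2 hw))
    · exact h2
  have h2 : ∀ᶠ w in 𝓝[≠] z, ∀ s ∈ S, f s w ≠ 0 := by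
    rw [Filter.eventually_all_finset]
    exact h1
  obtain ⟨w, hw1, s, hs, hw2⟩ := (h2.and (h.filter_mono nhdsWithin_le_nhds)).exists
  exact hw1 s hs hw2

/-- regular points -/
theorem reg_ptR (hCONN : S_CONN) (hCNT : S_CNT) (hODE : S_ODE) (hMOB : S_MOB)
    (hφ : DifferentiableOn ℂ φ (ball 0 r))
    (hNF : NoFiniteIsolatedSingularity φ r) {B : Set ℂ} (hBo : IsOpen B) (hB : ∀ w ∈ B, 1 < ‖w‖)
    (hU : IsOpen U) (hc : ∀ k ≤ d, DifferentiableOn ℂ (c k) (B ∩ U)) {y : ℂ} (hyB : y ∈ B)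
    (hyU : y ∈ U) (hcd : c d y ≠ 0) (hsep : ∀ x, Ev d c y x = 0 → Ev' d c y x ≠ 0) :
    GoodR φ r B U d c y := by
  obtain ⟨S, h, δ1, hδ1, hhd, hroot⟩ := roots_fn (fun k hk =>
    (hc k hk).analyticAt ((hBo.inter hU).mem_nhds ⟨hyB, hyU⟩)) hcd hsep
  obtain ⟨δ2, hδ2, hs2⟩ := Metric.isOpen_iff.1 (hBo.inter hU) y ⟨hyB, hyU⟩
  set δ0 : ℝ := min δ1 δ2 with hδ0def
  have hδ0 : 0 < δ0 := lt_min hδ1 hδ2
  have h01 : ball y δ0 ⊆ ball y δ1 := ball_subset_ball (min_le_left _ _)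
  have h02 : ball y δ0 ⊆ B ∩ U := (ball_subset_ball (min_le_right _ _)).trans hs2
  have hgood : ∀ s ∈ S, Good φ r (ball y δ0) univ (h s) y := fun s hs =>
    reg_pt hODE hMOB hφ hNF isOpen_ball (fun w hw => hB w (h02 hw).1) isOpen_univ
      (by rw [inter_univ]; exact (hhd s hs).mono h01) (mem_ball_self hδ0) trivial
  have hev : ∀ᶠ δ in 𝓝[>] (0 : ℝ), ∀ s ∈ S, ∀ z ∈ ball y δ, ∀ g : ℂ → ℂ, Branch φ r z g →
      Sc univ (h s) z g → ∃ E : ℂ → ℂ, DifferentiableOn ℂ E (ball y δ) ∧ E =ᶠ[𝓝 z] g := by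
    rw [Filter.eventually_all_finset]
    intro s hs
    obtain ⟨δs, hδs, -, h1⟩ := hgood s hs
    filter_upwards [Ioo_mem_nhdsGT hδs] with δ hδ z hz g hg hS
    have hsub : ball y δ ⊆ ball y δs := ball_subset_ball hδ.2.le
    obtain ⟨E, hE, hEg⟩ := h1 z (hsub hz) g hg hS
    exact ⟨E, hE.mono hsub, hEg⟩
  obtain ⟨δ, hδ1', hδ⟩ := (hev.and (Ioo_mem_nhdsGT hδ0)).exists
  have hδs : ball y δ ⊆ ball y δ0 := ball_subset_ball hδ.2.le
  refine ⟨δ, hδ.1, fun w hw => (h02 (hδs hw)).1, fun z hz g hg hR => ?_⟩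
  -- the root function
  obtain ⟨ε, hε, hεs⟩ := Metric.eventually_nhds_iff_ball.1
    ((hR.hd.and hR.hs).and (isOpen_ball.mem_nhds (hδs hz)))
  have hgd : DifferentiableOn ℂ g (ball z ε) := fun w hw =>
    (hεs w hw).1.1.differentiableWithinAt
  have hεδ : ball z ε ⊆ ball y δ0 := fun w hw => (hεs w hw).2
  obtain ⟨z1, hz1n, hz1⟩ := (hR.hn.and_eventually
    (isOpen_ball.mem_nhds (mem_ball_self hε))).exists
  have hdg : DifferentiableOn ℂ (deriv g) (ball z ε) := hgd.deriv isOpen_ball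
  have hne1 : ∀ᶠ v in 𝓝 z1, deriv g v ≠ 0 :=
    (hdg.differentiableAt (isOpen_ball.mem_nhds hz1)).continuousAt.eventually_ne hz1n
  have hSwa : ∀ w ∈ ball z ε, deriv g w ≠ 0 → AnalyticAt ℂ (Sw g) w := fun w hw h1 =>
    Sw_an (hgd.analyticAt (isOpen_ball.mem_nhds hw)) h1
  have hha : ∀ s ∈ S, ∀ w ∈ ball z ε, AnalyticAt ℂ (h s) w := fun s hs w hw =>
    (hhd s hs).analyticAt (isOpen_ball.mem_nhds (h01 (hεδ hw)))
  obtain ⟨s, hs, hse⟩ := pigeon S (f := fun s w => Sw g w - h s w) (z := z1)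
    (fun s hs => (hSwa z1 hz1 hz1n).sub (hha s hs z1 hz1)) (by
      filter_upwards [hne1, isOpen_ball.mem_nhds hz1] with w h1 h2
      obtain ⟨s, hs, hx⟩ := hroot w (h01 (hεδ h2)) _ ((hεs w h2).1.2 (h02 (hεδ h2)).2 h1)
      exact ⟨s, hs, sub_eq_zero.2 hx⟩)
  refine hδ1' s hs z hz g hg ⟨hR.hd, hR.hn, ?_⟩
  -- the identity theorem
  have hZ := hCNT z ε (deriv g) hdg ⟨z1, hz1, hz1n⟩
  have hDc := hCONN z ε _ hZ
  have hDm : ∀ w, w ∈ ball z ε \ {w | w ∈ ball z ε ∧ deriv g w = 0} ↔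
      w ∈ ball z ε ∧ deriv g w ≠ 0 := by
    intro w
    constructor
    · rintro ⟨h1, h2⟩
      exact ⟨h1, fun h3 => h2 ⟨h1, h3⟩⟩
    · rintro ⟨h1, h2⟩
      exact ⟨h1, fun h3 => h2 h3.2⟩
  have ha : AnalyticOnNhd ℂ (fun w => Sw g w - h s w)
      (ball z ε \ {w | w ∈ ball z ε ∧ deriv g w = 0}) := by
    intro w hw
    obtain ⟨h1, h2⟩ := (hDm w).1 hw
    exact (hSwa w h1 h2).sub (hha s hs w h1)
  have heq := ha.eqOn_zero_of_preconnected_of_eventuallyEq_zero hDc ((hDm z1).2 ⟨hz1, hz1n⟩) hse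
  filter_upwards [isOpen_ball.mem_nhds (mem_ball_self (x := z) hε)] with w hw _ h2
  exact sub_eq_zero.1 (heq ((hDm w).2 ⟨hw, h2⟩))

end Pool.Agent.Helper6.SF
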