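import Mathlib

/-!
# Root functions
-/

set_option autoImplicit false

open Complex Metric Set Filter Topology Polynomial

namespace Pool.Agent.Helper6.SF

/-- the value of the relation -/
noncomputable def Ev (d : ℕ) (c : ℕ → ℂ → ℂ) (w x : ℂ) : ℂ :=
  ∑ k ∈ Finset.range (d + 1), c k w * x ^ k

/-- the value of the derivative of the relation -/
noncomputable def Ev' (d : ℕ) (c : ℕ → ℂ → ℂ) (w x : ℂ) : ℂ :=
  ∑ k ∈ Finset.range (d + 1), c k w * (k * x ^ (k - 1))

variable {c : ℕ → ℂ → ℂ} {d : ℕ} {y : ℂ}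

/-- the polynomial -/
noncomputable def Pw (d : ℕ) (c : ℕ → ℂ → ℂ) (w : ℂ) : ℂ[X] :=
  ∑ k ∈ Finset.range (d + 1), C (c k w) * X ^ k

theorem Pw_eval (w x : ℂ) : (Pw d c w).eval x = Ev d c w x := by
  unfold Pw Ev
  rw [eval_finsetSum]
  refine Finset.sum_congr rfl fun k _ => ?_
  rw [eval_mul, eval_C, eval_pow, eval_X]

theorem Pw_der (w x : ℂ) : (derivative (Pw d c w)).eval x = Ev' d c w x := by
  unfold Pw Ev'
  rw [derivative_sum, eval_finsetSum]
  refine Finset.sum_congr rfl fun k _ => ?_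
  rw [derivative_C_mul, derivative_X_pow, eval_mul, eval_C, eval_mul, eval_pow, eval_X, eval_C]

theorem Pw_coeff (w : ℂ) : (Pw d c w).coeff d = c d w := by
  unfold Pw
  rw [finsetSum_coeff, Finset.sum_eq_single d]
  · rw [coeff_C_mul, coeff_X_pow, if_pos rfl, mul_one]
  · intro k _ hk
    rw [coeff_C_mul, coeff_X_pow, if_neg (Ne.symm hk), mul_zero]
  · intro h
    exact absurd (Finset.mem_range.2 (Nat.lt_succ_self d)) h

theorem Pw_deg_le (w : ℂ) : (Pw d c w).natDegree ≤ d := by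
  unfold Pw
  refine natDegree_sum_le_of_forall_le _ _ fun k hk => ?_
  refine (natDegree_C_mul_X_pow_le _ _).trans ?_
  exact Nat.lt_succ_iff.1 (Finset.mem_range.1 hk)

theorem Pw_ne {w : ℂ} (h : c d w ≠ 0) : Pw d c w ≠ 0 := by
  intro h1
  apply h
  rw [← Pw_coeff (d := d) (c := c) w, h1, coeff_zero]

theorem Pw_deg {w : ℂ} (h : c d w ≠ 0) : (Pw d c w).natDegree = d :=
  le_antisymm (Pw_deg_le w) (le_natDegree_of_ne_zero (by rw [Pw_coeff]; exact h))

/-- the roots are not more than `d` -/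
theorem card_le {w : ℂ} (h : c d w ≠ 0) (S : Finset ℂ) (hS : ∀ x ∈ S, Ev d c w x = 0) :
    S.card ≤ d := by
  have h1 : S ⊆ (Pw d c w).roots.toFinset := by
    intro x hx
    rw [Multiset.mem_toFinset, mem_roots (Pw_ne h), IsRoot, Pw_eval]
    exact hS x hx
  calc S.card ≤ (Pw d c w).roots.toFinset.card := Finset.card_le_card h1
    _ ≤ Multiset.card (Pw d c w).roots := Multiset.toFinset_card_le _
    _ ≤ (Pw d c w).natDegree := card_roots' _
    _ ≤ d := Pw_deg_le w

/-- the implicit function -/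
theorem ift (hc : ∀ k ≤ d, AnalyticAt ℂ (c k) y) {x0 : ℂ} (h0 : Ev d c y x0 = 0)
    (h1 : Ev' d c y x0 ≠ 0) : ∃ h : ℂ → ℂ, h y = x0 ∧
      ∀ᶠ w in 𝓝 y, DifferentiableAt ℂ h w ∧ Ev d c w (h w) = 0 := by
  set f : ℂ × ℂ → ℂ := fun p => Ev d c p.1 p.2 with hf
  have hfa : AnalyticAt ℂ f (y, x0) := by
    rw [hf]
    unfold Ev
    refine Finset.analyticAt_fun_sum _ fun k hk => ?_
    have hk' : k ≤ d := Nat.lt_succ_iff.1 (Finset.mem_range.1 hk)
    have h2 : AnalyticAt ℂ (fun p : ℂ × ℂ => c k p.1) (y, x0) :=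
      AnalyticAt.fun_comp (g := c k) (f := fun p : ℂ × ℂ => p.1) (x := (y, x0)) (hc k hk')
        analyticAt_fst
    exact h2.mul (analyticAt_snd.pow k)
  have hfc : ContDiffAt ℂ 1 f (y, x0) := hfa.contDiffAt
  have hd : HasFDerivAt f (fderiv ℂ f (y, x0)) (y, x0) := hfa.differentiableAt.hasFDerivAt
  have hval : (fderiv ℂ f (y, x0) ∘L .inr ℂ ℂ ℂ) 1 = Ev' d c y x0 := by
    have h2 : HasDerivAt (fun x : ℂ => (y, x)) ((0 : ℂ), (1 : ℂ)) x0 :=
      (hasDerivAt_const x0 y).prodMk (hasDerivAt_id x0)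
    have h3 : HasDerivAt (fun x : ℂ => f (y, x)) (fderiv ℂ f (y, x0) (0, 1)) x0 :=
      HasFDerivAt.comp_hasDerivAt (f := fun x : ℂ => (y, x)) x0 hd h2
    have h4 : HasDerivAt (fun x : ℂ => f (y, x)) (Ev' d c y x0) x0 := by
      have h5 := (Pw d c y).hasDerivAt x0
      rw [Pw_der] at h5
      have e : (fun x : ℂ => f (y, x)) = fun x => (Pw d c y).eval x := by
        funext x
        rw [Pw_eval]
      rw [e]
      exact h5
    exact h3.unique h4
  have hinv : (fderiv ℂ f (y, x0) ∘L .inr ℂ ℂ ℂ).IsInvertible := by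
    refine ⟨ContinuousLinearEquiv.unitsEquivAut ℂ (Units.mk0 _ h1), ?_⟩
    ext
    rw [hval]
    simp
  refine ⟨hfc.implicitFunction one_ne_zero hinv,
    hfc.implicitFunction_apply_self one_ne_zero hinv, ?_⟩
  have e1 := hfc.eventually_apply_implicitFunction one_ne_zero hinv
  have e2 := (hfc.contDiffAt_implicitFunction one_ne_zero hinv).eventually (by simp)
  filter_upwards [e1, e2] with w h2 h3
  refine ⟨h3.differentiableAt one_ne_zero, ?_⟩
  have h4 : Ev d c w (hfc.implicitFunction one_ne_zero hinv w) = Ev d c y x0 := h2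
  rw [h4, h0]

/-- **The root functions.** -/
theorem roots_fn (hc : ∀ k ≤ d, AnalyticAt ℂ (c k) y) (hd : c d y ≠ 0)
    (hsep : ∀ x, Ev d c y x = 0 → Ev' d c y x ≠ 0) :
    ∃ (S : Finset ℂ) (h : ℂ → ℂ → ℂ) (δ : ℝ), 0 < δ ∧
      (∀ s ∈ S, DifferentiableOn ℂ (h s) (ball y δ)) ∧
      ∀ w ∈ ball y δ, ∀ x, Ev d c w x = 0 → ∃ s ∈ S, x = h s w := by
  classical
  have hP0 := Pw_ne (d := d) (c := c) hd
  set S : Finset ℂ := (Pw d c y).roots.toFinset with hS
  have hmem : ∀ x, x ∈ S ↔ Ev d c y x = 0 := by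
    intro x
    rw [hS, Multiset.mem_toFinset, mem_roots hP0, IsRoot, Pw_eval]
  have hnd : (Pw d c y).roots.Nodup := by
    refine nodup_roots ?_
    rw [separable_def]
    refine (isCoprime_iff_aeval_ne_zero_of_isAlgClosed ℂ ℂ _ _).2 fun x => ?_
    by_cases hx : Ev d c y x = 0
    · right
      rw [coe_aeval_eq_eval, Pw_der]
      exact hsep x hx
    · left
      rw [coe_aeval_eq_eval, Pw_eval]
      exact hx
  have hcard : S.card = d := by
    rw [hS, Multiset.toFinset_card_of_nodup hnd, ← (IsAlgClosed.splits _).natDegree_eq_card_roots,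
      Pw_deg hd]
  have hex : ∀ s : ℂ, ∃ h : ℂ → ℂ, s ∈ S → (h y = s ∧
      ∀ᶠ w in 𝓝 y, DifferentiableAt ℂ h w ∧ Ev d c w (h w) = 0) := by
    intro s
    by_cases hs : s ∈ S
    · have h0 := (hmem s).1 hs
      obtain ⟨h, h1⟩ := ift hc h0 (hsep s h0)
      exact ⟨h, fun _ => h1⟩
    · exact ⟨fun _ => 0, fun h => absurd h hs⟩
  choose h hh using hex
  have e1 : ∀ᶠ w in 𝓝 y, ∀ s ∈ S, DifferentiableAt ℂ (h s) w ∧ Ev d c w (h s w) = 0 := by
    rw [Filter.eventually_all_finset]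
    exact fun s hs => (hh s hs).2
  have e2 : ∀ᶠ w in 𝓝 y, ∀ s ∈ S, ∀ s' ∈ S, s ≠ s' → h s w ≠ h s' w := by
    rw [Filter.eventually_all_finset]
    intro s hs
    rw [Filter.eventually_all_finset]
    intro s' hs'
    by_cases hss : s = s'
    · exact Eventually.of_forall fun w h1 => absurd hss h1
    · have c1 : ContinuousAt (h s) y := ((hh s hs).2.self_of_nhds).1.continuousAt
      have c2 : ContinuousAt (h s') y := ((hh s' hs').2.self_of_nhds).1.continuousAt
      have c3 : ∀ᶠ w in 𝓝 y, h s w - h s' w ≠ 0 := by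
        refine (c1.sub c2).eventually_ne ?_
        rw [Pi.sub_apply, (hh s hs).1, (hh s' hs').1]
        exact sub_ne_zero.2 hss
      filter_upwards [c3] with w hw _
      exact sub_ne_zero.1 hw
  have e3 : ∀ᶠ w in 𝓝 y, c d w ≠ 0 := (hc d le_rfl).continuousAt.eventually_ne hd
  obtain ⟨δ, hδ, hb⟩ := Metric.eventually_nhds_iff_ball.1 (e1.and (e2.and e3))
  refine ⟨S, h, δ, hδ, fun s hs w hw => ((hb w hw).1 s hs).1.differentiableWithinAt, ?_⟩
  intro w hw x hx
  obtain ⟨b1, b2, b3⟩ := hb w hw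
  by_contra hcon
  push Not at hcon
  have hinj : Set.InjOn (fun s => h s w) S := by
    intro s hs s' hs' hss
    by_contra hne
    exact b2 s hs s' hs' hne hss
  have h1 : (insert x (S.image fun s => h s w)).card = d + 1 := by
    rw [Finset.card_insert_of_notMem, Finset.card_image_of_injOn hinj, hcard]
    intro h2
    rw [Finset.mem_image] at h2
    obtain ⟨s, hs, hsx⟩ := h2
    exact hcon s hs hsx.symm
  have h2 := card_le b3 (insert x (S.image fun s => h s w)) (by
    intro z hz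
    rw [Finset.mem_insert, Finset.mem_image] at hz
    rcases hz with rfl | ⟨s, hs, rfl⟩
    · exact hx
    · exact (b1 s hs).2)
  omega

end Pool.Agent.Helper6.SF
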